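import Pool.Agent.H9.ZC.Zsc

/-!
# The class of the zooms from cofinal data

`ZPr S w₁ ε Dt Φ`: the statement `Φ` holds for the large events of the zooms at the window `w₁` in
closed linear coordinates, for all closed data with the property `Dt`.
`ZCof S w₁ Dt`: there are closed data with the property `Dt` for arbitrarily long families of the
class.
`zcof_clb`: a class `ClB` without the bad properties of a list, if the absence of the `i`-th property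
follows from the property `R i` of the data, and there are data with the properties `R i`, `i ≤ M`,
for arbitrarily long families, for every `M`.
`ZCof.or`, `zcof_num`: one alternative, one limit of a bounded number, for all stages.
-/

set_option autoImplicit false

namespace Pool.ZCO

open Finset Real MvPolynomial
open Pool.Agent.H49.Ent Pool.Agent.H32.Dense Pool.STK Pool.KA Pool.KSAT Pool.K2S Pool.PB Pool.S6C
open Pool.GEN Pool.ZCL Pool.TOP Pool.ZLC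

variable {m n : ℕ}

/-- **The statement holds for the large events of the zooms**, for all closed data with the property
`Dt`. -/
def ZPr (S : PCl m) (w₁ : ℝ) (ε : Fin n → Fin m) (Dt : DtP m) (Φ : Stat n) : Prop :=
  ∃ ψ : ℝ, 0 < ψ ∧ ∃ τ₀ : ℝ, 0 < τ₀ ∧ ∃ J₀ : ℕ, ∀ J ≥ J₀, ∀ (F : Fam m J) (A : F.Ω → Prop),
    S.St τ₀ J F A → ∀ (κ : Type) (C : Crd m κ) (z : PtT F → κ) (z' : LnT F → κ),
    (∀ ω, A ω → z (ptr F J ω) = z' (slam F ⌊w₁ * J⌋₊ ω)) → Dt J F A κ C z' →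
    ∀ (hl : IsLaw (cond F.p A True)) (J' : ℕ) (hJ : ⌊w₁ * J⌋₊ + J' = J)
    (B : F.Ω → Prop), Sub B A → Real.exp (-(3 * ψ * J')) * Pe F.p A ≤ Pe F.p B →
    Φ J' (zfc (F.res A True hl) ⌊w₁ * J⌋₊ J' hJ.le C (fun ω => z' (slam F ⌊w₁ * J⌋₊ ω)) ε) B

/-- **Closed data for arbitrarily long families.** -/
def ZCof (S : PCl m) (w₁ : ℝ) (Dt : DtP m) : Prop :=
  ∀ τ : ℝ, 0 < τ → ∀ J₀ : ℕ, ∃ J ≥ J₀, ∃ (F : Fam m J) (A : F.Ω → Prop), S.St τ J F A ∧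
    ∃ (κ : Type) (C : Crd m κ) (z : PtT F → κ) (z' : LnT F → κ),
      (∀ ω, A ω → z (ptr F J ω) = z' (slam F ⌊w₁ * J⌋₊ ω)) ∧ Dt J F A κ C z'

section

variable {S : PCl m} {w₁ : ℝ} {ε : Fin n → Fin m} {Dt Dt' : DtP m} {Φ Φ' : Stat n}

theorem ZPr.mono (h : ZPr S w₁ ε Dt Φ)
    (hΦ : ∀ (J : ℕ) (F : Fam n J) (A : F.Ω → Prop), Φ J F A → Φ' J F A) : ZPr S w₁ ε Dt Φ' := by
  obtain ⟨ψ, hψ, τ₀, hτ₀, J₀, h⟩ := h
  exact ⟨ψ, hψ, τ₀, hτ₀, J₀, fun J hJ₀ F A hS κ C z z' hc hd hl J' hJ B hBA hB =>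
    hΦ _ _ _ (h J hJ₀ F A hS κ C z z' hc hd hl J' hJ B hBA hB)⟩

theorem ZPr.data (h : ZPr S w₁ ε Dt Φ) (hd : ∀ (J : ℕ) (F : Fam m J) (A : F.Ω → Prop) (κ : Type)
    (C : Crd m κ) (z' : LnT F → κ), Dt' J F A κ C z' → Dt J F A κ C z') :
    ZPr S w₁ ε Dt' Φ := by
  obtain ⟨ψ, hψ, τ₀, hτ₀, J₀, h⟩ := h
  exact ⟨ψ, hψ, τ₀, hτ₀, J₀, fun J hJ₀ F A hS κ C z z' hc hD =>
    h J hJ₀ F A hS κ C z z' hc (hd _ _ _ _ _ _ hD)⟩

theorem ZPr.and (h : ZPr S w₁ ε Dt Φ) (h' : ZPr S w₁ ε Dt Φ') :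
    ZPr S w₁ ε Dt (fun J F A => Φ J F A ∧ Φ' J F A) := by
  obtain ⟨ψ, hψ, τ₀, hτ₀, J₀, h⟩ := h
  obtain ⟨ψ', hψ', τ₀', hτ₀', J₀', h'⟩ := h'
  refine ⟨min ψ ψ', lt_min hψ hψ', min τ₀ τ₀', lt_min hτ₀ hτ₀', max J₀ J₀', ?_⟩
  intro J hJ F A hS κ C z z' hc hd hl J' hJ' B hBA hB
  have e : ∀ x : ℝ, min ψ ψ' ≤ x → Real.exp (-(3 * x * J')) * Pe F.p A ≤ Pe F.p B := by
    intro x hx
    refine le_trans (mul_le_mul_of_nonneg_right (Real.exp_le_exp.2 (neg_le_neg ?_))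
      (Pe_nonneg F.isLaw A)) hB
    exact mul_le_mul_of_nonneg_right (by linarith) (Nat.cast_nonneg J')
  exact ⟨h J ((le_max_left _ _).trans hJ) F A (S.mono (min_le_left _ _) hS) κ C z z' hc hd hl J'
      hJ' B hBA (e _ (min_le_left _ _)),
    h' J ((le_max_right _ _).trans hJ) F A (S.mono (min_le_right _ _) hS) κ C z z' hc hd hl J'
      hJ' B hBA (e _ (min_le_right _ _))⟩

/-- A statement of 9's form. -/
theorem _root_.Pool.ZLC.ZBD.zpr (h : ZBD S w₁ ε Dt Φ) (hpos : ∀ (τ : ℝ) (J : ℕ) (F : Fam m J)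
    (A : F.Ω → Prop), 0 < τ → S.St τ J F A → 0 < Pe F.p A) : ZPr S w₁ ε Dt Φ := by
  obtain ⟨ψ, hψ, τ₀, hτ₀, J₀, h⟩ := h
  refine ⟨ψ, hψ, τ₀, hτ₀, J₀, fun J hJ₀ F A hS κ C z z' hc hd hl J' hJ B hBA hB =>
    h J hJ₀ F A hS κ C z z' hc hd hl J' hJ B ?_⟩
  have hA := hpos _ _ _ _ hτ₀ hS
  rw [Pe_cond, le_div_iff₀ hA]
  have e1 : (fun ω => A ω ∧ B ω) = B := by
    funext ω
    exact propext ⟨fun h => h.2, fun h => ⟨hBA ω h, h⟩⟩
  rw [e1]
  exact hB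

theorem ZCof.mono (h : ZCof S w₁ Dt) (hd : ∀ (J : ℕ) (F : Fam m J) (A : F.Ω → Prop) (κ : Type)
    (C : Crd m κ) (z' : LnT F → κ), Dt J F A κ C z' → Dt' J F A κ C z') : ZCof S w₁ Dt' := by
  intro τ hτ J₀
  obtain ⟨J, hJ, F, A, hA, κ, C, z, z', hc, h1⟩ := h τ hτ J₀
  exact ⟨J, hJ, F, A, hA, κ, C, z, z', hc, hd _ _ _ _ _ _ h1⟩

/-- Data on a large event of every family of the class. -/
theorem zcof_of_bas (hne : S.Ne) {K₁ : ℝ} (hK₁ : 0 < K₁)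
    (hD : Bas S (fun J F A => ∃ B : F.Ω → Prop, Sub B A ∧ Pe F.p A ≤ K₁ * Pe F.p B ∧
      ∃ (κ : Type) (C : Crd m κ) (z : PtT F → κ) (z' : LnT F → κ),
        (∀ ω, B ω → z (ptr F J ω) = z' (slam F ⌊w₁ * J⌋₊ ω)) ∧ Dt J F B κ C z')) :
    ZCof S w₁ Dt := by
  intro τ hτ J₀
  obtain ⟨τD, hτD, JD, hD⟩ := hD
  obtain ⟨J₅, hJ₅⟩ := exists_nat_ge (Real.log K₁ / (τ / 2))
  obtain ⟨J, hJ, F, A, hA⟩ := hne (min τD (τ / 2)) (lt_min hτD (half_pos hτ))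
    (max J₀ (max JD J₅))
  simp only [ge_iff_le, max_le_iff] at hJ
  obtain ⟨hJ0, hJD, hJ5⟩ := hJ
  obtain ⟨B, hBA, hPB, κ, C, z, z', hcl, hDt⟩ := hD J hJD F A (S.mono (min_le_left _ _) hA)
  refine ⟨J, hJ0, F, B, ?_, κ, C, z, z', hcl, hDt⟩
  have h1 := S.res (τ' := τ / 2) (by positivity) (S.mono (min_le_right τD (τ / 2)) hA) hBA (by
    have h2 : Real.log K₁ / (τ / 2) ≤ J := hJ₅.trans (by exact_mod_cast hJ5)
    rw [div_le_iff₀ (by positivity)] at h2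
    have h3 : Real.exp (-(τ / 2 * J)) ≤ 1 / K₁ := by
      rw [one_div, ← Real.exp_log (inv_pos.2 hK₁), Real.log_inv]
      exact Real.exp_le_exp.2 (by linarith)
    calc Real.exp (-(τ / 2 * J)) * Pe F.p A ≤ 1 / K₁ * Pe F.p A :=
          mul_le_mul_of_nonneg_right h3 (Pe_nonneg F.isLaw A)
      _ ≤ 1 / K₁ * (K₁ * Pe F.p B) := mul_le_mul_of_nonneg_left hPB (by positivity)
      _ = Pe F.p B := by field_simp)
  rwa [add_halves] at h1

/-- **One alternative for all stages.** -/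
theorem ZCof.or {D : ℕ → DtP m} {P Q : DtP m} (hmono : ∀ M M' : ℕ, M ≤ M' → ∀ (J : ℕ) (F : Fam m J)
    (A : F.Ω → Prop) (κ : Type) (C : Crd m κ) (z' : LnT F → κ), D M' J F A κ C z' →
      D M J F A κ C z')
    (h : ∀ M, ZCof S w₁ (fun J F A κ C z' => D M J F A κ C z' ∧
      (P J F A κ C z' ∨ Q J F A κ C z'))) :
    (∀ M, ZCof S w₁ (fun J F A κ C z' => D M J F A κ C z' ∧ P J F A κ C z')) ∨
      ∀ M, ZCof S w₁ (fun J F A κ C z' => D M J F A κ C z' ∧ Q J F A κ C z') := by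
  by_contra hcon
  push Not at hcon
  obtain ⟨⟨M₁, h1⟩, M₂, h2⟩ := hcon
  unfold ZCof at h1 h2
  push Not at h1 h2
  obtain ⟨τ₁, hτ₁, J₁, h1⟩ := h1
  obtain ⟨τ₂, hτ₂, J₂, h2⟩ := h2
  obtain ⟨J, hJ, F, A, hA, κ, C, z, z', hc, h3, h4⟩ :=
    h (max M₁ M₂) (min τ₁ τ₂) (lt_min hτ₁ hτ₂) (max J₁ J₂)
  rcases h4 with h4 | h4
  · exact h1 J ((le_max_left _ _).trans hJ) F A (S.mono (min_le_left _ _) hA) κ C z z' hc
      (hmono _ _ (le_max_left _ _) _ _ _ _ _ _ h3) h4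
  · exact h2 J ((le_max_right _ _).trans hJ) F A (S.mono (min_le_right _ _) hA) κ C z z' hc
      (hmono _ _ (le_max_right _ _) _ _ _ _ _ _ h3) h4

/-- **One limit of a bounded number**, for all stages. -/
theorem zcof_num {D : ℕ → DtP m} {x : ∀ (J : ℕ) (F : Fam m J) (_ : F.Ω → Prop) (κ : Type),
    Crd m κ → (LnT F → κ) → ℝ} {a b : ℝ} (hmono : ∀ M M' : ℕ, M ≤ M' → ∀ (J : ℕ) (F : Fam m J)
    (A : F.Ω → Prop) (κ : Type) (C : Crd m κ) (z' : LnT F → κ), D M' J F A κ C z' →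
      D M J F A κ C z')
    (h : ∀ M, ZCof S w₁ (fun J F A κ C z' => D M J F A κ C z' ∧
      x J F A κ C z' ∈ Set.Icc a b)) :
    ∃ c ∈ Set.Icc a b, ∀ M : ℕ, ∀ δ : ℝ, 0 < δ → ZCof S w₁ (fun J F A κ C z' =>
      D M J F A κ C z' ∧ |x J F A κ C z' - c| ≤ δ) := by
  by_contra hcon
  push Not at hcon
  choose! M δ hδ hno using hcon
  unfold ZCof at hno
  push Not at hno
  choose! τ hτ J₀ hno using hno
  -- finitely many balls cover the interval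
  obtain ⟨t, ht1, ht2⟩ := (isCompact_Icc : IsCompact (Set.Icc a b)).elim_nhds_subcover
    (fun c => Metric.ball c (δ c)) (fun c hc => Metric.ball_mem_nhds c (hδ c hc))
  obtain ⟨τm, hτm, hτm'⟩ : ∃ τm : ℝ, 0 < τm ∧ ∀ c ∈ t, τm ≤ τ c := by
    rcases t.eq_empty_or_nonempty with rfl | hne
    · exact ⟨1, one_pos, fun c hc => absurd hc (Finset.notMem_empty c)⟩
    · refine ⟨t.inf' hne τ, ?_, fun c hc => Finset.inf'_le τ hc⟩
      rw [Finset.lt_inf'_iff]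
      exact fun c hc => hτ c (ht1 c hc)
  obtain ⟨J, hJ, F, A, hA, κ, C, z, z', hc, h3, h4⟩ := h (t.sup M) τm hτm (t.sup J₀)
  have h5 := ht2 h4
  obtain ⟨c, hct, hxc⟩ := Set.mem_iUnion₂.1 h5
  rw [Metric.mem_ball, Real.dist_eq] at hxc
  have h6 := hno c (ht1 c hct) J ((Finset.le_sup (f := J₀) hct).trans hJ) F A
    (S.mono (hτm' c hct) hA) κ C z z' hc (hmono _ _ (Finset.le_sup (f := M) hct) _ _ _ _ _ _ h3)
  linarith

/-- **The class of the zooms**, cofinal data. -/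
theorem zoom_cls3 {C₀ : ℝ} (hC₀ : 0 ≤ C₀) (hbs : TmC S C₀) (hw0 : 0 < w₁)
    (hw11 : w₁ < 1) {ι : ℕ → ℕ → Type} [∀ i J, Fintype (ι i J)]
    {R : ∀ (i J : ℕ), ι i J → ∀ F : Fam n J, (F.Ω → Prop) → Prop}
    (hcard : ∀ (i : ℕ) (e : ℝ), 0 < e → ∃ J₀ : ℕ, ∀ J ≥ J₀,
      (Fintype.card (ι i J) : ℝ) ≤ Real.exp (e * J))
    (hR : ∀ (i J : ℕ) (a : ι i J), GPr (R i J a))
    {ψ : ℕ → ℝ} (hψ : ∀ i, 0 < ψ i)
    (hD : ∀ M : ℕ, ∀ τ : ℝ, 0 < τ → ∀ J₀ : ℕ, ∃ J ≥ J₀, ∃ (F : Fam m J) (B : F.Ω → Prop),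
      S.St τ J F B ∧ ∃ (κ : Type) (C : Crd m κ) (z : PtT F → κ) (z' : LnT F → κ),
        (∀ ω, B ω → z (ptr F J ω) = z' (slam F ⌊w₁ * J⌋₊ ω)) ∧
        ∀ (hl : IsLaw (cond F.p B True)) (J' : ℕ) (hJ : ⌊w₁ * J⌋₊ + J' = J), ∀ i ≤ M,
          ∀ B' : F.Ω → Prop, Real.exp (-(3 * ψ i * J')) ≤ Pe (cond F.p B True) B' →
          ¬ ∃ a : ι i J', R i J' a (zfc (F.res B True hl) ⌊w₁ * J⌋₊ J' hJ.le C
            (fun ω => z' (slam F ⌊w₁ * J⌋₊ ω)) ε) B') :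
    ∃ S' : FCl n, ZCls (fun _ F => Gd F) R S' := by
  classical
  have h01 : 0 < 1 - w₁ := by linarith
  obtain ⟨η, hη, M, J₂, hmain⟩ := zcl_ne (R := R) (fun _ F => Gd F) hcard
    (fun i J a => (hR i J a).inv) (fun i J a => (hR i J a).glu) (fun i J a => (hR i J a).sub)
    (fun _ _ h => h) (fun _ _ h _ _ _ _ => h) ψ hψ
  obtain ⟨τ, hτ⟩ : ∃ τ, τ = min 1 (η * (1 - w₁) / (C₀ + 1)) := ⟨_, rfl⟩
  have hτ0 : 0 < τ := by
    rw [hτ]
    exact lt_min one_pos (div_pos (mul_pos hη h01) (by linarith))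
  have t3 : C₀ * τ ≤ η * (1 - w₁) := by
    have h1 : τ ≤ η * (1 - w₁) / (C₀ + 1) := by rw [hτ]; exact min_le_right _ _
    rw [le_div_iff₀ (by linarith)] at h1
    have e1 : τ * (C₀ + 1) = C₀ * τ + τ := by ring
    linarith
  obtain ⟨J₄, hJ₄⟩ := lin (J₂ : ℝ) h01
  obtain ⟨J, hJ4, F, B, hB, κ', C, z, z', hcl, hDt⟩ := hD M τ hτ0 J₄
  replace hJ4 := hJ₄ J hJ4
  have hJr : (0 : ℝ) ≤ J := Nat.cast_nonneg J
  obtain ⟨hB0, hTmB⟩ := hbs _ J F B hτ0 hB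
  have hl := isLaw_cond F.isLaw hB0
  have hWJ : ⌊w₁ * (J : ℝ)⌋₊ ≤ J := by
    refine Nat.floor_le_of_le ?_
    have := mul_le_mul_of_nonneg_right hw11.le hJr
    linarith
  obtain ⟨J', hJ'⟩ : ∃ J', ⌊w₁ * (J : ℝ)⌋₊ + J' = J := ⟨J - ⌊w₁ * (J : ℝ)⌋₊, by omega⟩
  have hWr : (⌊w₁ * (J : ℝ)⌋₊ : ℝ) ≤ w₁ * J := Nat.floor_le (by positivity)
  have hsum : (⌊w₁ * (J : ℝ)⌋₊ : ℝ) + J' = J := by exact_mod_cast hJ'
  have hJ'0 : (0 : ℝ) ≤ J' := Nat.cast_nonneg J'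
  have hJ'1 : (1 - w₁) * J ≤ (J' : ℝ) := by
    have : (1 - w₁) * (J : ℝ) = J - w₁ * J := by ring
    linarith
  have hJ'2 : J₂ ≤ J' := by
    have : (J₂ : ℝ) ≤ J' := by linarith
    exact_mod_cast this
  have hTm : (zfc (F.res B True hl) ⌊w₁ * (J : ℝ)⌋₊ J' hJ'.le C
      (fun ω => z' (slam F ⌊w₁ * (J : ℝ)⌋₊ ω)) ε).Tm (η * J') := by
    have h1 := zfc_Tm (F.res B True hl) hJ'.le C (fun ω => z' (slam F ⌊w₁ * (J : ℝ)⌋₊ ω)) ε (by
      intro ω ω' _ _ hh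
      have a1 := Prod.ext_iff.1 hh
      have a2 := Prod.ext_iff.1 a1.2
      simp only at a1 a2
      have a3 : slam F ⌊w₁ * (J : ℝ)⌋₊ ω = slam F ⌊w₁ * (J : ℝ)⌋₊ ω' :=
        Prod.ext a1.1 (Prod.ext a2.2 a2.1)
      simp only
      rw [a3]) (hTmB hl)
    unfold Fam.Tm at h1 ⊢
    refine le_trans ?_ h1
    have h2 : C₀ * τ * J ≤ η * J' := by
      calc C₀ * τ * J ≤ η * (1 - w₁) * J := mul_le_mul_of_nonneg_right t3 hJr
        _ = η * ((1 - w₁) * J) := by ring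
        _ ≤ η * J' := mul_le_mul_of_nonneg_left hJ'1 hη.le
    linarith
  exact hmain ⟨J', hJ'2, _, hTm, zfc_Gd _ hJ'.le C _ ε, fun i hi E hE =>
    hDt hl J' hJ' i hi E hE⟩

end

/-- The list with the inactivity: the number of the properties is subexponential. -/
theorem card_sum {ι : ℕ → Type} [∀ J, Fintype (ι J)] (h : ∀ e : ℝ, 0 < e → ∃ J₀ : ℕ, ∀ J ≥ J₀,
    (Fintype.card (ι J) : ℝ) ≤ Real.exp (e * J)) (β : Type) [Fintype β] :
    ∀ e : ℝ, 0 < e → ∃ J₀ : ℕ, ∀ J ≥ J₀,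
      (Fintype.card (ι J ⊕ β) : ℝ) ≤ Real.exp (e * J) := by
  intro e he
  obtain ⟨J₁, hJ₁⟩ := h (e / 2) (half_pos he)
  obtain ⟨J₂, hJ₂⟩ := exists_nat_ge (2 * (1 + (Fintype.card β : ℝ)) / e)
  refine ⟨max J₁ J₂, fun J hJ => ?_⟩
  have h1 := hJ₁ J ((le_max_left _ _).trans hJ)
  have h2 : 2 * (1 + (Fintype.card β : ℝ)) / e ≤ J :=
    hJ₂.trans (by exact_mod_cast (le_max_right _ _).trans hJ)
  rw [div_le_iff₀ he] at h2
  have h3 := Real.add_one_le_exp (e / 2 * J)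
  have h4 : Real.exp (e * J) = Real.exp (e / 2 * J) * Real.exp (e / 2 * J) := by
    rw [← Real.exp_add]
    congr 1
    ring
  rw [Fintype.card_sum]
  push_cast
  rw [h4]
  have h5 : (0 : ℝ) ≤ (Fintype.card β : ℝ) := Nat.cast_nonneg _
  have h8 : (Fintype.card (ι J) : ℝ) + (Fintype.card β : ℝ) ≤
      Real.exp (e / 2 * J) + (Real.exp (e / 2 * J) - 1) := by linarith
  have h10 : 0 ≤ (Real.exp (e / 2 * J) - 1) * (Real.exp (e / 2 * J) - 1) := mul_self_nonneg _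
  have h11 : (Real.exp (e / 2 * J) - 1) * (Real.exp (e / 2 * J) - 1) =
    Real.exp (e / 2 * J) * Real.exp (e / 2 * J) - 2 * Real.exp (e / 2 * J) + 1 := by ring
  linarith

/-- **The class of the zooms in closed linear coordinates**, cofinal data; the absence of the `i`-th
property follows from the property `R i` of the data. -/
theorem zcof_clb {S : PCl m} {C₀ : ℝ} (hC₀ : 0 ≤ C₀) (hbs : TmC S C₀) {w₁ : ℝ}
    (hw0 : 0 < w₁) (hw11 : w₁ < 1) {ε : Fin n → Fin m} {kap : Fin m}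
    (hk0 : ∀ k : Fin n, (k : ℕ) = 0 → ε k = kap) {B₀ : ℝ} (hB₀ : 0 ≤ B₀) {cL : ℝ}
    {Φ : ℕ → Stat n} (hΦ : ∀ i, UPr (Φ i)) {R : ℕ → DtP m}
    (hz : ∀ i, ZPr S w₁ ε (R i) (fun J G B => ¬ Φ i J G B))
    (hD : ∀ M : ℕ, ZCof S w₁ (fun J F A κ C z' => CrdK kap cL J F A κ C z' ∧
      ∀ i ≤ M, R i J F A κ C z')) :
    ∃ S' : PCl n, ClB (NZR S kap B₀ w₁) S' ∧ ∀ i, Bas S' (fun J F A => ¬ Φ i J F A) := by
  classical
  choose ι hι Rr hcard hR hiff using hΦ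
  choose ψ hψ τz hτz Jz hz using hz
  obtain ⟨N, hN⟩ : ∃ N, N = NZR S kap B₀ w₁ := ⟨_, rfl⟩
  have hact : ∀ i : ℕ, ZBD S w₁ ε (CrdK kap cL) (fun J G B =>
      ∀ (q q' : ℚ) (k : Fin n), (k : ℕ) = 0 → Encodable.encode (q, q') ≤ i → 0 ≤ q → q ≤ q' →
        q' ≤ 1 → ¬ ActF N q q' (1 / ((i : ℝ) + 1)) k J G B) := by
    intro i
    rw [hN]
    exact zbd_act hbs hw0 hw11 (fun k : Fin n => (k : ℕ) = 0) hk0 hB₀ (by positivity) cL i
  choose ψa hψa τa hτa Ja hza using hact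
  have hall : ∀ i (J : ℕ) (a : ι i J ⊕ (Fin (i + 1) × Fin n)),
      GPr (actL N (ι := ι) (fun i J a => Rr i J a) i J a) := by
    rintro i J (a | ⟨c, k⟩)
    · exact hR i J a
    · exact gpr_actC N _ _ k
  obtain ⟨S', hne', hmem, hS'⟩ := zoom_cls3 (ε := ε) hC₀ hbs hw0 hw11
    (ι := fun i J => ι i J ⊕ (Fin (i + 1) × Fin n))
    (R := actL N (ι := ι) (fun i J a => Rr i J a)) (fun i => card_sum (hcard i) _) hall
    (ψ := fun i => min (ψ i) (ψa i)) (fun i => lt_min (hψ i) (hψa i)) (by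
      intro M τ hτ J₀
      obtain ⟨τm, hτm, hτm'⟩ := min_upto hτa M
      obtain ⟨τn, hτn, hτn'⟩ := min_upto hτz M
      obtain ⟨J, hJ, F, B, hB, κ, C, z, z', hcl, hCr, hRd⟩ := hD M (min τ (min τm τn))
        (lt_min hτ (lt_min hτm hτn)) (max J₀ (max (∑ i ∈ range (M + 1), Ja i)
          (∑ i ∈ range (M + 1), Jz i)))
      simp only [ge_iff_le, max_le_iff] at hJ
      obtain ⟨hJ0, hJa, hJz⟩ := hJ
      have hBa : ∀ i ≤ M, S.St (τa i) J F B := fun i hi => S.mono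
        (((min_le_right _ _).trans (min_le_left _ _)).trans (hτm' i hi)) hB
      have hBz : ∀ i ≤ M, S.St (τz i) J F B := fun i hi => S.mono
        (((min_le_right _ _).trans (min_le_right _ _)).trans (hτn' i hi)) hB
      refine ⟨J, hJ0, F, B, S.mono (min_le_left _ _) hB, κ, C, z, z', hcl,
        fun hl J' hJ' i hi B' hB' => ?_⟩
      have hB0 : 0 < Pe F.p B := by
        have h1 := hl.sum_one
        by_contra hcon
        have h2 : Pe F.p B = 0 := le_antisymm (not_lt.1 hcon) (Pe_nonneg F.isLaw B)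
        have h3 : Pe (cond F.p B True) (fun _ => True) = 1 := Pe_univ hl
        rw [Pe_cond, h2, div_zero] at h3
        exact zero_ne_one h3
      have hJ'0 : (0 : ℝ) ≤ J' := Nat.cast_nonneg J'
      have e1 : Real.exp (-(3 * ψ i * J')) ≤ Real.exp (-(3 * min (ψ i) (ψa i) * J')) :=
        Real.exp_le_exp.2 (neg_le_neg (mul_le_mul_of_nonneg_right
          (mul_le_mul_of_nonneg_left (min_le_left _ _) (by norm_num)) hJ'0))
      have e2 : Real.exp (-(3 * ψa i * J')) ≤ Real.exp (-(3 * min (ψ i) (ψa i) * J')) :=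
        Real.exp_le_exp.2 (neg_le_neg (mul_le_mul_of_nonneg_right
          (mul_le_mul_of_nonneg_left (min_le_right _ _) (by norm_num)) hJ'0))
      rintro ⟨a | ⟨c, k⟩, ha⟩
      · -- the user's property
        have ha' : Rr i J' a (zfc (F.res B True hl) ⌊w₁ * J⌋₊ J' hJ'.le C
            (fun ω => z' (slam F ⌊w₁ * J⌋₊ ω)) ε) B' := ha
        have h1 := (hR i J' a).inv _ _ ha'
        have hJi : Jz i ≤ J := (Finset.single_le_sum (f := Jz) (fun _ _ => Nat.zero_le _)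
          (Finset.mem_range.2 (by omega))).trans hJz
        refine hz i J hJi F B (hBz i hi) κ C z z' hcl (hRd i hi) hl J' hJ'
          (fun ω => B' ω ∧ cond F.p B True ω ≠ 0) ?_ ?_ ((hiff i J' _ _).2 ⟨a, h1⟩)
        · intro ω hω
          exact of_eq_true ((cond_pos_iff F.isLaw.nonneg B True ω).1
            (lt_of_le_of_ne (hl.nonneg ω) (Ne.symm hω.2))).2
        · have h2 : Pe (cond F.p B True) (fun ω => B' ω ∧ cond F.p B True ω ≠ 0) =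
              Pe (cond F.p B True) B' := Pe_supp _ _
          rw [Pe_cond] at h2
          have h3 : (fun ω => B ω ∧ B' ω ∧ cond F.p B True ω ≠ 0) =
              fun ω => B' ω ∧ cond F.p B True ω ≠ 0 := by
            funext ω
            refine propext ⟨fun h => h.2, fun h => ⟨?_, h⟩⟩
            exact of_eq_true ((cond_pos_iff F.isLaw.nonneg B True ω).1
              (lt_of_le_of_ne (hl.nonneg ω) (Ne.symm h.2))).2
          rw [h3, div_eq_iff hB0.ne'] at h2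
          rw [h2]
          exact mul_le_mul_of_nonneg_right (e1.trans hB') hB0.le
      · -- the inactivity
        obtain ⟨⟨h3, h4, h5⟩, h6⟩ := ha
        have hJi : Ja i ≤ J := (Finset.single_le_sum (f := Ja) (fun _ _ => Nat.zero_le _)
          (Finset.mem_range.2 (by omega))).trans hJa
        refine hza i J hJi F B (hBa i hi) κ C z z' hcl hCr hl J' hJ' B'
          (e2.trans hB') _ _ k h3 ?_ h5.1 h5.2.1 h5.2.2 h6
        have h7 := c.2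
        change Encodable.encode (dqc c) ≤ i
        omega)
  have hbas : ∀ i : ℕ, Bas S'.toP (fun J F A =>
      ¬ ∃ a, actL N (ι := ι) (fun i J a => Rr i J a) i J a F A) := by
    intro i
    obtain ⟨κ, hκ, hc⟩ := hS' i
    refine Bas.mono 0 hc fun J _ F A h1 => h1 A ?_
    have h2 : Real.exp (-(κ * J)) ≤ 1 := by
      rw [Real.exp_le_one_iff]
      have : 0 ≤ κ * (J : ℝ) := by positivity
      linarith
    calc _ ≤ 1 * Pe F.p A := mul_le_mul_of_nonneg_right h2 (Pe_nonneg F.isLaw A)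
      _ = Pe F.p A := one_mul _
  refine ⟨S'.toP, ⟨hne', ?_, ?_⟩, fun i => ?_⟩
  · intro τ J F A hA
    have h1 : S'.St τ F A := hA
    have h2 := hmem τ J F h1.1
    exact ⟨S'.tr h1.1, S'.tm h1.1, S'.rb h1.1, h1.2, h2.1, h2.2⟩
  · intro k hk q q' h0 h1 h2 h hh
    obtain ⟨i, hi⟩ := exists_inv hh
    obtain ⟨c, hc⟩ : ∃ c, c = Encodable.encode (q, q') := ⟨_, rfl⟩
    have hii : 1 / (((max i c : ℕ) : ℝ) + 1) ≤ h := by
      refine le_trans ?_ hi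
      refine one_div_le_one_div_of_le (by positivity) ?_
      have : (i : ℝ) ≤ ((max i c : ℕ) : ℝ) := by exact_mod_cast le_max_left _ _
      linarith
    refine Bas.mono 0 (hbas (max i c)) fun J _ F A h3 => ?_
    by_contra hcon
    push Not at hcon
    refine h3 ⟨Sum.inr (⟨c, by
      have := le_max_right i c
      omega⟩, k), ?_⟩
    change ActC N (1 / (((max i c : ℕ) : ℝ) + 1)) c k J F A
    unfold ActC
    rw [hc, dqc_encode]
    refine ⟨⟨hk, rfl, h0, h1, h2⟩, ?_⟩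
    rw [← hc]
    unfold ActF
    have hcon' := hcon
    rw [← hN] at hcon'
    refine lt_of_lt_of_le hcon' ?_
    have hl2 : 0 ≤ Real.log 2 := (Real.log_pos one_lt_two).le
    exact mul_le_mul_of_nonneg_right (mul_le_mul_of_nonneg_right (by linarith) hl2)
      (Nat.cast_nonneg J)
  · refine Bas.mono 0 (hbas i) fun J _ F A h1 h2 => ?_
    obtain ⟨a, ha⟩ := (hiff i J F A).1 h2
    exact h1 ⟨Sum.inl a, ha⟩

end Pool.ZCO
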