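import Pool.Agent.H80.ZC.Slo
import Pool.Agent.H82.ZC.Psz
import Pool.Agent.H39.GEN.Psc

/-!
# The requirements for the coordinates of the sheared zooms

For the coordinates `shC` (case A) and `swC` (case B): the requirement `Pool.ZFW.PsR` of (Psi1)
(`psr_shC`, `psr_swC`), the bounds of the inverse (`shC_one`, `swC_one`), the property
`Pool.PSI.Nea` of (Psi2) (`nea_shC`, `nea_swC`).
-/

set_option autoImplicit false

namespace Pool.ZLC

open Finset Real MvPolynomial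
open Pool.Agent.H49.Ent Pool.Agent.H32.Dense Pool.STK Pool.KA Pool.KSAT Pool.K2S Pool.PB Pool.S6C
open Pool.GEN Pool.ZCL Pool.TOP

variable {m n J : ℕ} {V : Type} {cb : V → Fin m → ℝ} {u N : Fin m} {Lt : Finset (Fin m)}
  {hu : u ∉ Lt} {huN : u ≠ N} {M : Fin m → ℕ}

theorem shC_one {M₁ : ℕ} (hM : ∀ k ∈ Lt, M k ≤ M₁) (v : V) {y : Fin m → ℝ}
    (h : ∀ i, |(shC cb u Lt hu M).L v y i| ≤ 1) (k : Fin m) : |y k| ≤ 2 ^ (M₁ + 1) := by
  have h1 := shC_inv (hu := hu) hM v (x := y) (y := fun _ => 0) zero_le_one (fun i => by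
    rw [Box.L_zero, sub_zero]
    exact h i) k
  simpa using h1

theorem swC_one (hu : u ∉ Lt) (hN : N ∉ Lt) {M₁ : ℕ} (hM : ∀ k ∈ Lt, M k ≤ M₁) (v : V)
    {y : Fin m → ℝ} (h : ∀ i, |(swC cb u N Lt huN M).L v y i| ≤ 1) (k : Fin m) :
    |y k| ≤ 2 ^ (M₁ + 2) := by
  have h1 := swC_inv (huN := huN) hu hN hM v (x := y) (y := fun _ => 0) zero_le_one (fun i => by
    rw [Box.L_zero, sub_zero]
    exact h i) k
  simpa using h1

end Pool.ZLC

namespace Pool.PKG

open Finset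
open Pool.Agent.H49.Ent Pool.Agent.H32.Dense Pool.STK Pool.KA Pool.KSAT Pool.K2S Pool.PB
open Pool.GEN Pool.S6C Pool.STAT Pool.CHT Pool.GRW Pool.ONE Pool.STA Pool.ZLC
open Pool.ZFW (InvB FwK PsR)
open Pool.PSI (Nea)

variable {n : ℕ} {V : Type} (hn : 2 ≤ n) (σ : Equiv.Perm (Fin (n - 1))) {l : ℕ}

theorem ez_bij (hl : l ≤ n - 1) : Function.Bijective (ez hn σ l) :=
  Finite.injective_iff_bijective.1 (ez_inj hn σ hl)

/-- The slot of a coordinate. -/
noncomputable def ezi (hl : l ≤ n - 1) : Fin n → Fin n :=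
  (Equiv.ofBijective (ez hn σ l) (ez_bij hn σ hl)).symm

theorem ez_ezi (hl : l ≤ n - 1) (k : Fin n) : ez hn σ l (ezi hn σ hl k) = k :=
  (Equiv.ofBijective (ez hn σ l) (ez_bij hn σ hl)).apply_symm_apply k

theorem ezi_ne (hl : l < n - 1) {k : Fin n} (hk : k ∈ (range l).image (cc hn σ)) :
    ezi hn σ hl.le k ≠ lst hn := by
  intro h
  have h1 := ez_ezi hn σ hl.le k
  rw [h, ez_lst hn σ hl.le] at h1
  obtain ⟨j, hj, h2⟩ := Finset.mem_image.1 hk
  have h3 := Finset.mem_range.1 hj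
  have h4 := cc_inj' hn σ (by omega) (by omega) (h2.trans h1.symm)
  omega

/-- **The requirement of (Psi1) in case A.** -/
theorem psr_shC {cb : V → Fin n → ℝ} {Lt : Finset (Fin n)} {hu : cc hn σ l ∉ Lt}
    {M : Fin n → ℕ} (hl : l < n - 1) (hLt : ∀ j < l, cc hn σ j ∉ Lt) {w₁ x h' : ℝ} {J : ℕ}
    {F : Fam n J} {A : F.Ω → Prop} {z' : LnT F → V} (hM : ∀ k ∈ Lt, M k ≤ ⌊h' * J⌋₊) :
    PsR w₁ (ez hn σ l) ((range l).image (cc hn σ)) (cc hn σ l) (lst hn) (ezi hn σ hl.le) x h'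
      J F A V (shC cb (cc hn σ l) Lt hu M) z' := by
  intro ω _
  have p1 : (1 : ℝ) ≤ 2 ^ ⌊x * (J : ℝ)⌋₊ := one_le_pow₀ one_le_two
  refine ⟨fun x y δ hδ h k => ?_, 1, fun _ => 0, ?_, ?_, rfl, ?_, ?_, ?_⟩
  · refine (shC_inv (cb := cb) (hu := hu) hM (z' (slam F ⌊w₁ * (J : ℝ)⌋₊ ω)) hδ
      (fun k => ?_) k).trans ?_
    · rw [← ez_ezi hn σ hl.le k]
      exact h _
    · refine mul_le_mul_of_nonneg_right ?_ hδ
      rw [pow_succ]
      have : (0 : ℝ) < 2 ^ ⌊h' * (J : ℝ)⌋₊ := by positivity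
      linarith
  · rw [abs_one]
    linarith
  · intro _
    rw [abs_zero]
    linarith
  · exact fun i hi => ezi_ne hn σ hl hi
  · intro i hi y
    rw [ez_ezi]
    obtain ⟨j, hj, rfl⟩ := Finset.mem_image.1 hi
    exact shC_not (hLt j (Finset.mem_range.1 hj)) _ _
  · intro y
    rw [ez_lst hn σ hl.le, shC_not hu]
    simp

/-- **The requirement of (Psi1) in case B.** -/
theorem psr_swC {cb : V → Fin n → ℝ} {Lt : Finset (Fin n)} (hu : cc hn σ l ∉ Lt)
    (hN : lst hn ∉ Lt) {huN : cc hn σ l ≠ lst hn} {M : Fin n → ℕ} (hl : l < n - 1)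
    (hLt : ∀ j < l, cc hn σ j ∉ Lt) {w₁ x h' : ℝ} {J : ℕ}
    {F : Fam n J} {A : F.Ω → Prop} {z' : LnT F → V} (hM : ∀ k ∈ Lt, M k ≤ ⌊h' * J⌋₊)
    (hc : ∀ ω, A ω → 1 ≤ |cb (z' (slam F ⌊w₁ * J⌋₊ ω)) (lst hn)| ∧
      |cb (z' (slam F ⌊w₁ * J⌋₊ ω)) (lst hn)| ≤ 4 * 2 ^ ⌊x * J⌋₊) :
    PsR w₁ (ez hn σ l) ((range l).image (cc hn σ)) (cc hn σ l) (lst hn) (ezi hn σ hl.le) x h'
      J F A V (swC cb (cc hn σ l) (lst hn) Lt huN M) z' := by
  classical
  intro ω hω
  obtain ⟨hc1, hc2⟩ := hc ω hω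
  obtain ⟨v, hv⟩ : ∃ v, v = z' (slam F ⌊w₁ * (J : ℝ)⌋₊ ω) := ⟨_, rfl⟩
  rw [← hv] at hc1 hc2 ⊢
  have p1 : (1 : ℝ) ≤ 2 ^ ⌊x * (J : ℝ)⌋₊ := one_le_pow₀ one_le_two
  refine ⟨fun x y δ hδ h k => ?_, cb v (lst hn),
    fun j => if ez hn σ l j = lst hn then -cb v (lst hn) else 0, hc2, ?_, ?_, ?_, ?_, ?_⟩
  · refine (swC_inv (cb := cb) (huN := huN) hu hN hM v hδ (fun k => ?_) k).trans ?_
    · rw [← ez_ezi hn σ hl.le k]
      exact h _
    · refine mul_le_mul_of_nonneg_right (le_of_eq ?_) hδ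
      rw [pow_add]
      ring
  · intro j
    split_ifs
    · rw [abs_neg]
      exact hc2
    · rw [abs_zero]
      linarith
  · rw [ez_lst hn σ hl.le, if_neg huN]
  · exact fun i hi => ezi_ne hn σ hl hi
  · intro i hi y
    rw [ez_ezi]
    obtain ⟨j, hj, rfl⟩ := Finset.mem_image.1 hi
    have hj' := Finset.mem_range.1 hj
    refine swC_not (hLt j hj') ?_ ?_ _ _
    · intro h1
      have := cc_inj' hn σ (by omega) (by omega) h1
      omega
    · exact fun h1 => by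
        rw [← cc_ge hn σ (le_refl (n - 1))] at h1
        have := cc_inj' hn σ (by omega) (by omega) h1
        omega
  · intro y
    rw [ez_lst hn σ hl.le, swC_u, Finset.sum_eq_single (ezi hn σ hl.le (lst hn))]
    · rw [ez_ezi, if_pos rfl, swC_N]
      have h3 : |(cb v (lst hn))⁻¹| ≤ 2 ^ 0 := by
        rw [pow_zero, abs_inv]
        exact inv_le_one_of_one_le₀ hc1
      have h4 : cb v (lst hn) ≠ 0 := fun h => by rw [h, abs_zero] at hc1; linarith
      rw [clp_of h3]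
      field_simp
      ring
    · intro j _ hj
      rw [if_neg (fun h1 => hj ?_), zero_mul]
      rw [← h1]
      exact ((Equiv.ofBijective (ez hn σ l) (ez_bij hn σ hl.le)).symm_apply_apply j).symm
    · exact fun h => absurd (Finset.mem_univ _) h

/-! ### The coordinates of the zoom are functions of the sheared coordinates -/

theorem pow_sub_le (J M : ℕ) : (1 : ℝ) / 2 ^ (J - M) ≤ 2 ^ M / 2 ^ J := by
  rw [div_le_div_iff₀ (by positivity) (by positivity), one_mul, ← pow_add]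
  exact pow_le_pow_right₀ one_le_two (by omega)

/-- The slots of case A. -/
theorem nea_slot {cb : V → Fin n → ℝ} {Lt : Finset (Fin n)} {hu : cc hn σ l ∉ Lt}
    {M : Fin n → ℕ} {Mi : ℕ → ℕ} {v : V} {w : Fin n → ℝ} {J : ℕ}
    (hM1 : ∀ i ≤ n - 1, cc hn σ i ∈ Lt → Mi i ≤ M (cc hn σ i))
    (hM0 : ∀ i ≤ n - 1, cc hn σ i ∉ Lt → Mi i = 0)
    (hw1 : ∀ k ∈ Lt, w k = clp (M k) (cb v k)) {y : Fin n → ℝ} {i : ℕ} (hi : i ≤ n - 1)
    (hw0 : cc hn σ i ∉ Lt → w (cc hn σ i) = 0)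
    (h : |y (cc hn σ i) - w (cc hn σ i) * y (cc hn σ l)| ≤ 1 / 2 ^ (J - Mi i)) :
    |(shC cb (cc hn σ l) Lt hu M).L v y (cc hn σ i)| ≤ 1 / 2 ^ J := by
  by_cases hk : cc hn σ i ∈ Lt
  · rw [shC_mem hk, ← hw1 _ hk, abs_div, abs_of_pos (by positivity : (0 : ℝ) < 2 ^ M (cc hn σ i)),
      div_le_iff₀ (by positivity)]
    refine h.trans ((pow_sub_le J (Mi i)).trans ?_)
    rw [one_div, inv_mul_eq_div]
    exact div_le_div_of_nonneg_right (pow_le_pow_right₀ one_le_two (hM1 i hi hk)) (by positivity)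
  · rw [shC_not hk]
    rw [hw0 hk, zero_mul, sub_zero, hM0 i hi hk, Nat.sub_zero] at h
    exact h

/-- **The property `Nea` of (Psi2) in case A.** -/
theorem nea_shC {cb : V → Fin n → ℝ} {Lt : Finset (Fin n)} {hu : cc hn σ l ∉ Lt}
    {M : Fin n → ℕ} {Mi : ℕ → ℕ} (hl : l < n - 1)
    (hM1 : ∀ i ≤ n - 1, cc hn σ i ∈ Lt → Mi i ≤ M (cc hn σ i))
    (hM0 : ∀ i ≤ n - 1, cc hn σ i ∉ Lt → Mi i = 0) (v : V) {J Q Q' c₀ : ℕ}
    (hQ : Q' ≤ Q + c₀) :
    Nea (shC cb (cc hn σ l) Lt hu M) v (dirA cb (cc hn σ l) Lt M v) (cc hn σ) l (n - 1) Mi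
      (ez hn σ l) (lst hn) J Q Q' c₀ := by
  intro y hy
  have p1 : (1 : ℝ) ≤ 2 ^ c₀ := one_le_pow₀ one_le_two
  refine ⟨fun j hj => ?_, fun h => ?_⟩
  · have hj1 : (j : ℕ) < n - 1 := by
      have h1 := j.2
      by_contra hcon
      exact hj (Fin.ext (by
        have h2 : ((lst hn : Fin n) : ℕ) = n - 1 := rfl
        omega))
    have hne : ix l j ≠ l := by
      unfold ix
      split_ifs <;> omega
    have hle := ix_le (l := l) hj1
    have hcne : cc hn σ (ix l j) ≠ cc hn σ l := fun h => hne (cc_inj' hn σ (by omega) (by omega) h)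
    rw [ez_ix hn σ l hj1]
    refine (nea_slot hn σ (hu := hu) hM1 hM0 (w := dirA cb (cc hn σ l) Lt M v) ?_ hle ?_
      (hy _ hle hne)).trans (div_le_div_of_nonneg_right p1 (by positivity))
    · intro k hk
      unfold dirA
      rw [if_neg (fun h => hu (by rw [← h]; exact hk)), if_pos hk]
    · intro hk
      unfold dirA
      rw [if_neg hcne, if_neg hk]
  · rw [ez_lst hn σ hl.le, shC_not hu]
    refine h.trans ?_
    rw [div_le_div_iff₀ (by positivity) (by positivity), one_mul, ← pow_add]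
    exact pow_le_pow_right₀ one_le_two (by omega)

/-- **The property `Nea` of (Psi2) in case B.** -/
theorem nea_swC {cb : V → Fin n → ℝ} {Lt : Finset (Fin n)} (hu : cc hn σ l ∉ Lt)
    (hN : lst hn ∉ Lt) {huN : cc hn σ l ≠ lst hn} {M : Fin n → ℕ} {Mi : ℕ → ℕ} (hl : l < n - 1)
    (hM1 : ∀ i < n - 1, cc hn σ i ∈ Lt → Mi i ≤ M (cc hn σ i))
    (hM0 : ∀ i < n - 1, cc hn σ i ∉ Lt → Mi i = 0) {v : V} {J Q Q' c₀ : ℕ}
    (hc1 : 1 ≤ |cb v (lst hn)|) (hc2 : (2 : ℝ) ^ Mi (n - 1) ≤ 2 ^ c₀ * |cb v (lst hn)|)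
    (hc3 : |cb v (lst hn)| ≤ 2 ^ Mi (n - 1)) (hQ : Q' + Mi (n - 1) + 1 ≤ Q + c₀)
    (hQJ : Q' + Mi (n - 1) + 1 ≤ J + c₀) :
    Nea (swC cb (cc hn σ l) (lst hn) Lt huN M) v (dirB cb (cc hn σ l) (lst hn) Lt M v)
      (cc hn σ) l (n - 1) Mi (ez hn σ l) (lst hn) J Q Q' c₀ := by
  intro y hy
  have p1 : (1 : ℝ) ≤ 2 ^ c₀ := one_le_pow₀ one_le_two
  have hNc : cc hn σ (n - 1) = lst hn := cc_ge hn σ le_rfl
  have hcc : 0 < |cb v (lst hn)| := by linarith
  have hcne : cb v (lst hn) ≠ 0 := abs_pos.1 hcc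
  have hdN : dirB cb (cc hn σ l) (lst hn) Lt M v (lst hn) = cb v (lst hn) := by
    unfold dirB
    rw [if_neg huN.symm, if_pos rfl]
  have hyN : |y (lst hn) - cb v (lst hn) * y (cc hn σ l)| ≤ 2 ^ Mi (n - 1) / 2 ^ J := by
    have h1 := hy (n - 1) le_rfl (by omega)
    rw [hNc, hdN] at h1
    exact h1.trans (pow_sub_le _ _)
  refine ⟨fun j hj => ?_, fun h => ?_⟩
  · have hj1 : (j : ℕ) < n - 1 := by
      have h1 := j.2
      by_contra hcon
      exact hj (Fin.ext (by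
        have h2 : ((lst hn : Fin n) : ℕ) = n - 1 := rfl
        omega))
    have hne : ix l j ≠ l := by
      unfold ix
      split_ifs <;> omega
    have hle := ix_le (l := l) hj1
    rw [ez_ix hn σ l hj1]
    rcases hle.lt_or_eq with hlt | heq
    · have hcnu : cc hn σ (ix l j) ≠ cc hn σ l :=
        fun h => hne (cc_inj' hn σ (by omega) (by omega) h)
      have hcnN : cc hn σ (ix l j) ≠ lst hn := fun h => by
        rw [← hNc] at h
        have := cc_inj' hn σ (by omega) (by omega) h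
        omega
      rw [swC_eq (hu := hu) hcnu hcnN]
      have hM1' : ∀ i ≤ n - 1, cc hn σ i ∈ Lt →
          (if i = n - 1 then 0 else Mi i) ≤ M (cc hn σ i) := by
        intro i hi hk
        split_ifs with h1
        · exact Nat.zero_le _
        · exact hM1 i (by omega) hk
      have hM0' : ∀ i ≤ n - 1, cc hn σ i ∉ Lt → (if i = n - 1 then 0 else Mi i) = 0 := by
        intro i hi hk
        split_ifs with h1
        · rfl
        · exact hM0 i (by omega) hk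
      refine (nea_slot hn σ (hu := hu) (v := v) hM1' hM0'
        (w := dirB cb (cc hn σ l) (lst hn) Lt M v) ?_ hle ?_ ?_).trans
        (div_le_div_of_nonneg_right p1 (by positivity))
      · intro k hk
        unfold dirB
        rw [if_neg (fun h => hu (by rw [← h]; exact hk)),
          if_neg (fun h => hN (by rw [← h]; exact hk)), if_pos hk]
      · intro hk
        unfold dirB
        rw [if_neg hcnu, if_neg hcnN, if_neg hk]
      · rw [if_neg (by omega)]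
        exact hy _ hle hne
    · rw [heq, hNc, swC_N]
      have h3 : |(cb v (lst hn))⁻¹| ≤ 2 ^ 0 := by
        rw [pow_zero, abs_inv]
        exact inv_le_one_of_one_le₀ hc1
      rw [clp_of h3]
      have e1 : y (cc hn σ l) - (cb v (lst hn))⁻¹ * y (lst hn) =
          -(cb v (lst hn))⁻¹ * (y (lst hn) - cb v (lst hn) * y (cc hn σ l)) := by
        field_simp
        ring
      rw [e1, abs_mul, abs_neg, abs_inv, inv_mul_le_iff₀ hcc]
      refine hyN.trans ?_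
      have e2 : |cb v (lst hn)| * (2 ^ c₀ / 2 ^ J) = 2 ^ c₀ * |cb v (lst hn)| / 2 ^ J := by ring
      rw [e2]
      exact div_le_div_of_nonneg_right hc2 (by positivity)
  · rw [ez_lst hn σ hl.le, swC_u]
    have e1 : y (lst hn) = (y (lst hn) - cb v (lst hn) * y (cc hn σ l)) +
        cb v (lst hn) * y (cc hn σ l) := by ring
    rw [e1]
    refine (abs_add_le _ _).trans ?_
    rw [abs_mul]
    have h4 := mul_le_mul hc3 h (abs_nonneg _) (by positivity)
    have h5 : (2 : ℝ) ^ Mi (n - 1) / 2 ^ J ≤ 2 ^ c₀ / 2 ^ Q' / 2 := by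
      rw [div_div, div_le_div_iff₀ (by positivity) (by positivity), ← pow_succ, ← pow_add,
        ← pow_add]
      exact pow_le_pow_right₀ one_le_two (by omega)
    have h6 : (2 : ℝ) ^ Mi (n - 1) * (1 / 2 ^ Q) ≤ 2 ^ c₀ / 2 ^ Q' / 2 := by
      rw [mul_one_div, div_div, div_le_div_iff₀ (by positivity) (by positivity), ← pow_succ,
        ← pow_add, ← pow_add]
      exact pow_le_pow_right₀ one_le_two (by omega)
    linarith

end Pool.PKG
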