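import Pool.Agent.H80.ZC.Zco
import Pool.Agent.H27.TOP.Rwl

/-!
# The class of the sheared zooms: countably many properties

`zcof_cls`: countably many bad properties, each absent for data with one requirement.
`zcof_four`: the four families of properties in the theorem on the sheared class: no labels of the
list coordinates over the coordinates before them (Phi2), no labels of the target above the numbers
`U` (Phi1), labels of the target with the numbers `D` (Psi1), an entropy bound (Psi2).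
-/

set_option autoImplicit false

namespace Pool.ZCO

open Finset Real MvPolynomial
open Pool.Agent.H49.Ent Pool.Agent.H32.Dense Pool.STK Pool.KA Pool.KSAT Pool.K2S Pool.PB Pool.S6C
open Pool.GEN Pool.ZCL Pool.TOP Pool.ZLC
open Pool.ONE (tgs)

variable {m n : ℕ}

/-- The requirements can be satisfied, finitely many at the same time. -/
def ZReq {Req : Type*} (S : PCl m) (w₁ : ℝ) (kap : Fin m) (cL : ℝ) (R : Req → DtP m) : Prop :=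
  ∀ L : List Req, ZCof S w₁ (fun J F A κ C z' => CrdK kap cL J F A κ C z' ∧
    ∀ r ∈ L, R r J F A κ C z')

/-- **Countably many properties.** -/
theorem zcof_cls {S : PCl m} {C₀ : ℝ} (hC₀ : 0 ≤ C₀) (hbs : TmC S C₀) {w₁ : ℝ}
    (hw0 : 0 < w₁) (hw11 : w₁ < 1) {ε : Fin n → Fin m} {kap : Fin m}
    (hk0 : ∀ k : Fin n, (k : ℕ) = 0 → ε k = kap) {B₀ : ℝ} (hB₀ : 0 ≤ B₀) {cL : ℝ}
    {Req : Type*} {R : Req → DtP m} (hD : ZReq S w₁ kap cL R) {ι : Type} [Countable ι] [Nonempty ι]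
    {Φ : ι → Stat n} (hΦ : ∀ i, UPr (Φ i))
    (hz : ∀ i, ∃ r : Req, ZPr S w₁ ε (R r) (fun J G B => ¬ Φ i J G B)) :
    ∃ S' : PCl n, ClB (NZR S kap B₀ w₁) S' ∧ ∀ i, Bas S' (fun J F A => ¬ Φ i J F A) := by
  obtain ⟨f, hf⟩ := exists_surjective_nat ι
  choose r hr using hz
  obtain ⟨S', h1, h2⟩ := zcof_clb hC₀ hbs hw0 hw11 hk0 hB₀ (cL := cL) (Φ := fun i => Φ (f i))
    (fun i => hΦ (f i)) (R := fun i => R (r (f i))) (fun i => hr (f i)) (fun M =>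
      (hD ((List.range (M + 1)).map fun i => r (f i))).mono fun J F A κ C z' hh =>
        ⟨hh.1, fun i hi => hh.2 _ (List.mem_map.2 ⟨i, List.mem_range.2 (by omega), rfl⟩)⟩)
  refine ⟨S', h1, fun i => ?_⟩
  obtain ⟨j, rfl⟩ := hf i
  exact h2 j

/-- There is no part of a given proportion with a label; the proportion may depend on the length. -/
theorem upr_many (k : Fin n) (K₁ : ℕ → ℝ) (K : ℕ) (a w P : ℕ → ℕ) :
    UPr (fun J (F : Fam n J) A => ∀ B : F.Ω → Prop, Sub B A → Pe F.p A ≤ K₁ J * Pe F.p B →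
      ¬ (tgs k).T () K (a J) (w J) (P J) J F B) :=
  GPr.upr fun J => gpr_many (P := fun (F : Fam n J) A => (tgs k).T () K (a J) (w J) (P J) J F A)
    (fun F A B hB h => (tgs k).her () K _ _ _ J F A B hB h)
    (fun _ _ _ _ hl _ h => tgs_free hl h)

/-- A large entropy. -/
theorem upr_ent (l : Fin n) (v : Fin (n - 1) → Fin n) (q : ℕ → ℕ) (b : ℕ → ℝ) :
    UPr (fun J (F : Fam n J) A => b J ≤ CH (cond F.p A True)
      (fun ω => (F.X (q J) ω l, fun i : Fin (n - 1) => F.X J ω (v i)))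
      (fun ω => ((), F.W ω))) :=
  GPr.upr fun J => gpr_ge (Y := fun (F : Fam n J) ω =>
      (F.X (q J) ω l, fun i : Fin (n - 1) => F.X J ω (v i))) (V := fun _ _ => ()) (b J)
    (fun _ _ _ _ _ => rfl) (fun _ _ _ _ _ => rfl)

/-- **The four families of properties.** -/
theorem zcof_four {S : PCl m} {C₀ : ℝ} (hC₀ : 0 ≤ C₀) (hbs : TmC S C₀) {w₁ : ℝ}
    (hw0 : 0 < w₁) (hw11 : w₁ < 1) {ε : Fin n → Fin m} {kap : Fin m}
    (hk0 : ∀ k : Fin n, (k : ℕ) = 0 → ε k = kap) {B₀ : ℝ} (hB₀ : 0 ≤ B₀) {cL : ℝ}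
    {Req : Type*} {R : Req → DtP m} (hD : ZReq S w₁ kap cL R) {Rr : ℝ} {l : Fin n}
    {v : Fin (n - 1) → Fin n} {Q : ℕ → ℝ}
    (hΦ₂ : ∀ i : Fin n, 1 ≤ (i : ℕ) → (i : ℕ) < n - 1 → ∀ h : ℝ, 0 < h → Q i + h ≤ 1 →
      ∃ d : ℝ, 0 < d ∧ ∀ K : ℕ, ∃ r : Req, ZPr S w₁ ε (R r) (fun J G B =>
        ¬ LbR Rr G (Finset.univ.filter fun j : Fin n => (j : ℕ) < i) i K ⌊d * J⌋₊
          ⌊(Q i + h) * J⌋₊ B))
    {U : ℝ → ℝ → ℝ} {D : ℝ → ℝ} {b₁ : ℝ} (hb₁ : b₁ ≤ 1)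
    (hΦ₁ : ∀ a w : ℚ, 0 < w → w ≤ a → (a : ℝ) < b₁ → ∀ (K : ℕ) (h : ℝ), 0 < h →
      ∃ r : Req, ZPr S w₁ ε (R r) (fun J G B =>
        ¬ (tgs l).T () K ⌊(a : ℝ) * J⌋₊ ⌊(w : ℝ) * J⌋₊ ⌊(U a w + h) * J⌋₊ J G B))
    (hΨ₁ : ∀ w : ℚ, 0 < w → (w : ℝ) < b₁ → ∀ h : ℝ, 0 < h → ∃ K : ℕ, ∀ τ : ℝ, 0 < τ →
      ∃ r : Req, ZPr S w₁ ε (R r) (fun J G A => ∃ B : G.Ω → Prop, Sub B A ∧
        Real.exp (-(τ * J)) * Pe G.p A ≤ Pe G.p B ∧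
        (tgs l).T () K ⌊(w : ℝ) * J⌋₊ ⌊(w : ℝ) * J⌋₊ ⌊(D w - h) * J⌋₊ J G B))
    {Qb eb : ℝ} (hΨ₂ : ∀ h : ℝ, 0 < h → ∃ r : Req, ZPr S w₁ ε (R r) (fun J G A =>
      CH (cond G.p A True) (fun ω => (G.X ⌊Qb * J⌋₊ ω l, fun i : Fin (n - 1) => G.X J ω (v i)))
        G.W ≤ (eb + h) * Real.log 2 * J)) :
    ∃ S' : PCl n, ClB (NZR S kap B₀ w₁) S' ∧
      (∀ i : Fin n, 1 ≤ (i : ℕ) → (i : ℕ) < n - 1 → ∀ h : ℝ, 0 < h → Q i + h ≤ 1 →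
        ∃ d : ℝ, 0 < d ∧ ∀ K : ℕ, Bas S' (fun J G B =>
          ¬ LbR Rr G (Finset.univ.filter fun j : Fin n => (j : ℕ) < i) i K ⌊d * J⌋₊
            ⌊(Q i + h) * J⌋₊ B)) ∧
      (∀ a w : ℚ, 0 < w → w ≤ a → (a : ℝ) < b₁ → ∀ (K : ℕ) (h : ℝ), 0 < h →
        Bas S' (fun J G B =>
          ¬ (tgs l).T () K ⌊(a : ℝ) * J⌋₊ ⌊(w : ℝ) * J⌋₊ ⌊(U a w + h) * J⌋₊ J G B)) ∧
      (∀ w : ℚ, 0 < w → (w : ℝ) < b₁ → ∀ h : ℝ, 0 < h → ∃ K : ℕ, ∀ τ : ℝ, 0 < τ →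
        Bas S' (fun J G A => ∃ B : G.Ω → Prop, Sub B A ∧
          Real.exp (-(τ * J)) * Pe G.p A ≤ Pe G.p B ∧
          (tgs l).T () K ⌊(w : ℝ) * J⌋₊ ⌊(w : ℝ) * J⌋₊ ⌊(D w - h) * J⌋₊ J G B)) ∧
      ∀ h : ℝ, 0 < h → Bas S' (fun J G A =>
        CH (cond G.p A True) (fun ω => (G.X ⌊Qb * J⌋₊ ω l, fun i : Fin (n - 1) => G.X J ω (v i)))
          G.W ≤ (eb + h) * Real.log 2 * J) := by
  classical
  have hl2 : 0 < Real.log 2 := Real.log_pos one_lt_two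
  have hk : ∀ k : ℕ, (0 : ℝ) < 1 / ((k : ℝ) + 1) := fun k => by positivity
  choose! d hd hΦ₂ using hΦ₂
  choose! Kf hΨ₁ using hΨ₁
  -- the indices
  let I₂ : Type := {p : Fin n × ℕ × ℕ // 1 ≤ (p.1 : ℕ) ∧ (p.1 : ℕ) < n - 1 ∧
    Q p.1 + 1 / ((p.2.2 : ℝ) + 1) ≤ 1}
  let I₁ : Type := {p : ℚ × ℚ × ℕ × ℕ // 0 < p.2.1 ∧ p.2.1 ≤ p.1 ∧ (p.1 : ℝ) < b₁}
  let I₃ : Type := {p : ℚ × ℕ × ℕ // 0 < p.1 ∧ (p.1 : ℝ) < b₁}
  obtain ⟨Φ, hΦ⟩ : ∃ Φ : (I₂ ⊕ I₁) ⊕ (I₃ ⊕ ℕ) → Stat n, Φ = fun i => match i with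
    | Sum.inl (Sum.inl p) => fun J G B =>
        LbR Rr G (Finset.univ.filter fun j : Fin n => (j : ℕ) < p.1.1) p.1.1 p.1.2.1
          ⌊d p.1.1 (1 / ((p.1.2.2 : ℝ) + 1)) * J⌋₊ ⌊(Q p.1.1 + 1 / ((p.1.2.2 : ℝ) + 1)) * J⌋₊ B
    | Sum.inl (Sum.inr p) => fun J G B =>
        (tgs l).T () p.1.2.2.1 ⌊(p.1.1 : ℝ) * J⌋₊ ⌊(p.1.2.1 : ℝ) * J⌋₊
          ⌊(U p.1.1 p.1.2.1 + 1 / ((p.1.2.2.2 : ℝ) + 1)) * J⌋₊ J G B
    | Sum.inr (Sum.inl p) => fun J G A => ∀ B : G.Ω → Prop, Sub B A →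
        Pe G.p A ≤ Real.exp (1 / ((p.1.2.2 : ℝ) + 1) * J) * Pe G.p B →
        ¬ (tgs l).T () (Kf p.1.1 (1 / ((p.1.2.1 : ℝ) + 1))) ⌊(p.1.1 : ℝ) * J⌋₊
          ⌊(p.1.1 : ℝ) * J⌋₊ ⌊(D p.1.1 - 1 / ((p.1.2.1 : ℝ) + 1)) * J⌋₊ J G B
    | Sum.inr (Sum.inr k) => fun J G A => (eb + 1 / ((k : ℝ) + 1)) * Real.log 2 * J ≤
        CH (cond G.p A True) (fun ω => (G.X ⌊Qb * J⌋₊ ω l, fun i : Fin (n - 1) => G.X J ω (v i)))
          (fun ω => ((), G.W ω)) := ⟨_, rfl⟩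
  have hexp : ∀ (x : ℝ) (a b : ℝ), a ≤ Real.exp x * b ↔ Real.exp (-x) * a ≤ b := by
    intro x a b
    rw [Real.exp_neg, inv_mul_le_iff₀ (Real.exp_pos x)]
  have hWW : ∀ {J : ℕ} (G : Fam n J) (A : G.Ω → Prop) (Y : G.Ω → ℤ × (Fin (n - 1) → ℤ)),
      IsLaw (cond G.p A True) → CH (cond G.p A True) Y (fun ω => ((), G.W ω)) =
        CH (cond G.p A True) Y G.W := by
    intro J G A Y hq
    refine le_antisymm (CH_mono_cond hq.nonneg fun ω ω' _ _ hh => (Prod.ext_iff.mp hh).2)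
      (CH_mono_cond hq.nonneg fun ω ω' _ _ hh => Prod.ext rfl hh)
  have : Countable I₂ := inferInstance
  have : Countable I₁ := inferInstance
  have : Countable I₃ := inferInstance
  obtain ⟨S', hS', hno⟩ := zcof_cls hC₀ hbs hw0 hw11 (ε := ε) hk0 hB₀ hD (Φ := Φ) (by
    rw [hΦ]
    rintro ((p | p) | (p | k))
    · exact GPr.upr fun J => gpr_lbR _ _ _ _ _ _
    · refine upr_tgs l _ (fun J => ⌊(p.1.1 : ℝ) * J⌋₊) (fun J => ⌊(p.1.2.1 : ℝ) * J⌋₊)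
        (fun J => ⌊(U p.1.1 p.1.2.1 + 1 / ((p.1.2.2.2 : ℝ) + 1)) * J⌋₊) (fun J => ?_)
      refine Nat.floor_le_of_le ?_
      have h1 : (p.1.1 : ℝ) ≤ 1 := p.2.2.2.le.trans hb₁
      calc (p.1.1 : ℝ) * J ≤ 1 * J := mul_le_mul_of_nonneg_right h1 (Nat.cast_nonneg J)
        _ = J := one_mul _
    · exact upr_many l (fun J => Real.exp (1 / ((p.1.2.2 : ℝ) + 1) * J)) _
        (fun J => ⌊(p.1.1 : ℝ) * J⌋₊) (fun J => ⌊(p.1.1 : ℝ) * J⌋₊)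
        (fun J => ⌊(D p.1.1 - 1 / ((p.1.2.1 : ℝ) + 1)) * J⌋₊)
    · exact upr_ent l v (fun J => ⌊Qb * J⌋₊) (fun J => (eb + 1 / ((k : ℝ) + 1)) * Real.log 2 * J))
    (by
    rw [hΦ]
    rintro ((p | p) | (p | k))
    · exact hΦ₂ p.1.1 p.2.1 p.2.2.1 _ (hk _) p.2.2.2 p.1.2.1
    · exact hΦ₁ p.1.1 p.1.2.1 p.2.1 p.2.2.1 p.2.2.2 p.1.2.2.1 _ (hk _)
    · obtain ⟨r, hr⟩ := hΨ₁ p.1.1 p.2.1 p.2.2 _ (hk p.1.2.1) _ (hk p.1.2.2)
      refine ⟨r, hr.mono fun J G A h1 h2 => ?_⟩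
      obtain ⟨B, k1, k2, k3⟩ := h1
      exact h2 B k1 ((hexp _ _ _).2 k2) k3
    · obtain ⟨r, hr⟩ := hΨ₂ (1 / ((k : ℝ) + 1) / 2) (half_pos (hk k))
      obtain ⟨ψ, hψ, τ₀, hτ₀, J₀, hr⟩ := hr
      obtain ⟨J₁, hJ₁⟩ := lin (1 : ℝ) (show 0 < 1 - w₁ by linarith)
      refine ⟨r, ψ, hψ, min τ₀ 1, lt_min hτ₀ one_pos, max J₀ J₁, ?_⟩
      intro J hJ F A hS κ C z z' hc hd' hl J' hJ' B hBA hB h2
      have h1 := hr J ((le_max_left _ _).trans hJ) F A (S.mono (min_le_left _ _) hS) κ C z z' hc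
        hd' hl J' hJ' B hBA hB
      have hJ1 := hJ₁ J ((le_max_right _ _).trans hJ)
      have hA0 := (hbs _ J F A (lt_min hτ₀ one_pos) hS).1
      have hB0 : 0 < Pe F.p B := lt_of_lt_of_le (mul_pos (Real.exp_pos _) hA0) hB
      have hWr : (⌊w₁ * (J : ℝ)⌋₊ : ℝ) ≤ w₁ * J := Nat.floor_le (by positivity)
      have hsum : (⌊w₁ * (J : ℝ)⌋₊ : ℝ) + J' = J := by exact_mod_cast hJ'
      have hJ'1 : (1 : ℝ) ≤ J' := by nlinarith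
      have hq : IsLaw (cond (zfc (F.res A True hl) ⌊w₁ * J⌋₊ J' hJ'.le C
          (fun ω => z' (slam F ⌊w₁ * J⌋₊ ω)) ε).p B True) := by
        refine isLaw_cond hl ?_
        change 0 < Pe (cond F.p A True) B
        rw [Pe_cond]
        have e1 : (fun ω => A ω ∧ B ω) = B := by
          funext ω
          exact propext ⟨fun h => h.2, fun h => ⟨hBA ω h, h⟩⟩
        rw [e1]
        exact div_pos hB0 hA0
      dsimp only at h2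
      rw [hWW _ _ _ hq] at h2
      have h3 := h2.trans h1
      have h4 : (eb + 1 / ((k : ℝ) + 1) / 2) * Real.log 2 * J' <
          (eb + 1 / ((k : ℝ) + 1)) * Real.log 2 * J' := by
        refine mul_lt_mul_of_pos_right (mul_lt_mul_of_pos_right ?_ hl2) (by linarith)
        linarith [hk k]
      linarith)
  rw [hΦ] at hno
  have hpos : Bas S' (fun _ F A => 0 < Pe F.p A) :=
    ⟨1, one_pos, 0, fun J _ F A hA => lt_of_lt_of_le (Real.exp_pos _)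
      (hS'.mem 1 J F A hA).2.2.2.1⟩
  have hfl : ∀ {x y : ℝ} (J : ℕ), x ≤ y → ⌊x * J⌋₊ ≤ ⌊y * J⌋₊ := fun J h =>
    Nat.floor_le_floor (mul_le_mul_of_nonneg_right h (Nat.cast_nonneg J))
  refine ⟨S', hS', ?_, ?_, ?_, ?_⟩
  · intro i hi1 hi2 h hh hQh
    obtain ⟨k, hkh⟩ := exists_inv hh
    have h0 : Q i + 1 / ((k : ℝ) + 1) ≤ 1 := by linarith
    refine ⟨d i (1 / ((k : ℝ) + 1)), hd i hi1 hi2 _ (hk k) h0, fun K => ?_⟩
    refine (hno (Sum.inl (Sum.inl ⟨(i, K, k), hi1, hi2, h0⟩))).mono 0 fun J _ F A h1 h2 => ?_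
    exact h1 (h2.wk (Finset.Subset.refl _) le_rfl (hfl J (by linarith)))
  · intro a w hw hwa ha K h hh
    obtain ⟨k, hkh⟩ := exists_inv hh
    refine (hno (Sum.inl (Sum.inr ⟨(a, w, K, k), hw, hwa, ha⟩))).mono 0 fun J _ F A h1 h2 => ?_
    exact h1 ((tgs l).anti (hfl J (by linarith)) h2)
  · intro w hw hwb h hh
    obtain ⟨k, hkh⟩ := exists_inv hh
    refine ⟨Kf w (1 / ((k : ℝ) + 1)), fun τ hτ => ?_⟩
    obtain ⟨t, htτ⟩ := exists_inv hτ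
    refine (hno (Sum.inr (Sum.inl ⟨(w, k, t), hw, hwb⟩))).mono 0 fun J _ F A h1 => ?_
    push Not at h1
    obtain ⟨B, k1, k2, k3⟩ := h1
    refine ⟨B, k1, ?_, (tgs l).anti (hfl J (by linarith)) k3⟩
    have k4 := (hexp _ _ _).1 k2
    refine le_trans (mul_le_mul_of_nonneg_right (Real.exp_le_exp.2 (neg_le_neg ?_))
      (Pe_nonneg F.isLaw A)) k4
    exact mul_le_mul_of_nonneg_right htτ (Nat.cast_nonneg J)
  · intro h hh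
    obtain ⟨k, hkh⟩ := exists_inv hh
    refine ((hno (Sum.inr (Sum.inr k))).and hpos).mono 0 ?_
    rintro J - F A ⟨h1, hA⟩
    have hq := isLaw_cond F.isLaw hA
    push Not at h1
    rw [hWW F A _ hq] at h1
    refine h1.le.trans ?_
    exact mul_le_mul_of_nonneg_right (mul_le_mul_of_nonneg_right (by linarith) hl2.le)
      (Nat.cast_nonneg J)

end Pool.ZCO
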