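import Pool.Agent.H80.ZC.Zfg

/-!
# The two cases of the last coordinate of the direction

`MCof`: closed directions `cb` (over a closed map to `V`) with a property, for arbitrarily long
families of a class. `mcof_case`: if the direction exists on large parts of all events of the class,
with the last coordinate at most `2 ^ ((E + h) J)`, then the last coordinate is at most `1` for
arbitrarily long families (for all stages), or it is `2 ^ (x J)` up to `2 ^ (δ J)`, with one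
number `x ∈ [0, E]`, for all stages and all `δ`.
-/

set_option autoImplicit false

namespace Pool.ZHC

open Finset Real MvPolynomial
open Pool.Agent.H49.Ent Pool.Agent.H32.Dense Pool.STK Pool.KA Pool.KSAT Pool.K2S Pool.PB Pool.S6C
open Pool.GEN Pool.ZCL Pool.TOP Pool.ZLC Pool.ZCO

variable {m : ℕ}

/-- A property of closed directions. -/
def MDt (m : ℕ) : Type 1 := ∀ (J : ℕ) (F : Fam m J), (F.Ω → Prop) → ∀ V : Type,
  (V → Fin m → ℝ) → (PtT F → V) → (LnT F → V) → Prop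

/-- **Closed directions for arbitrarily long families.** -/
def MCof (S : PCl m) (w₁ : ℝ) (Dt : MDt m) : Prop :=
  ∀ τ : ℝ, 0 < τ → ∀ J₀ : ℕ, ∃ J ≥ J₀, ∃ (F : Fam m J) (A : F.Ω → Prop), S.St τ J F A ∧
    ∃ (V : Type) (cb : V → Fin m → ℝ) (z : PtT F → V) (z' : LnT F → V),
      (∀ ω, A ω → z (ptr F J ω) = z' (slam F ⌊w₁ * J⌋₊ ω)) ∧ Dt J F A V cb z z'

variable {S : PCl m} {w₁ : ℝ} {Dt Dt' : MDt m}

theorem MCof.mono (h : MCof S w₁ Dt) (hd : ∀ (J : ℕ) (F : Fam m J) (A : F.Ω → Prop) (V : Type)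
    (cb : V → Fin m → ℝ) (z : PtT F → V) (z' : LnT F → V), Dt J F A V cb z z' → Dt' J F A V cb z z') :
    MCof S w₁ Dt' := by
  intro τ hτ J₀
  obtain ⟨J, hJ, F, A, hA, V, cb, z, z', hc, h1⟩ := h τ hτ J₀
  exact ⟨J, hJ, F, A, hA, V, cb, z, z', hc, hd _ _ _ _ _ _ _ h1⟩

/-- For long families. -/
theorem MCof.mono' (J₁ : ℕ) (h : MCof S w₁ Dt) (hd : ∀ J ≥ J₁, ∀ (F : Fam m J) (A : F.Ω → Prop)
    (V : Type) (cb : V → Fin m → ℝ) (z : PtT F → V) (z' : LnT F → V), Dt J F A V cb z z' → Dt' J F A V cb z z') :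
    MCof S w₁ Dt' := by
  intro τ hτ J₀
  obtain ⟨J, hJ, F, A, hA, V, cb, z, z', hc, h1⟩ := h τ hτ (max J₀ J₁)
  exact ⟨J, (le_max_left _ _).trans hJ, F, A, hA, V, cb, z, z', hc,
    hd _ ((le_max_right _ _).trans hJ) _ _ _ _ _ _ h1⟩

/-- **Closed coordinates from closed directions.** -/
theorem MCof.zcof {D : DtP m} (C : ∀ V : Type, (V → Fin m → ℝ) → Crd m V) (h : MCof S w₁ Dt)
    (hd : ∀ (J : ℕ) (F : Fam m J) (A : F.Ω → Prop) (V : Type)
    (cb : V → Fin m → ℝ) (z : PtT F → V) (z' : LnT F → V), Dt J F A V cb z z' → D J F A V (C V cb) z') :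
    ZCof S w₁ D := by
  intro τ hτ J₀
  obtain ⟨J, hJ, F, A, hA, V, cb, z, z', hc, h1⟩ := h τ hτ J₀
  exact ⟨J, hJ, F, A, hA, V, C V cb, z, z', hc, hd _ _ _ _ _ _ _ h1⟩

section case

variable {I : Type} [Preorder I] [IsDirected I (· ≤ ·)]

/-- **One alternative for all stages.** -/
theorem MCof.or {D : I → MDt m} {P Q : MDt m} (hmono : ∀ i j : I, i ≤ j → ∀ (J : ℕ)
    (F : Fam m J) (A : F.Ω → Prop) (V : Type) (cb : V → Fin m → ℝ) (z : PtT F → V) (z' : LnT F → V),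
    D j J F A V cb z z' → D i J F A V cb z z')
    (h : ∀ i, MCof S w₁ (fun J F A V cb z z' => D i J F A V cb z z' ∧
      (P J F A V cb z z' ∨ Q J F A V cb z z'))) :
    (∀ i, MCof S w₁ (fun J F A V cb z z' => D i J F A V cb z z' ∧ P J F A V cb z z')) ∨
      ∀ i, MCof S w₁ (fun J F A V cb z z' => D i J F A V cb z z' ∧ Q J F A V cb z z') := by
  by_contra hcon
  push Not at hcon
  obtain ⟨⟨i₁, h1⟩, i₂, h2⟩ := hcon
  unfold MCof at h1 h2
  push Not at h1 h2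
  obtain ⟨τ₁, hτ₁, J₁, h1⟩ := h1
  obtain ⟨τ₂, hτ₂, J₂, h2⟩ := h2
  obtain ⟨i, hi1, hi2⟩ := exists_ge_ge i₁ i₂
  obtain ⟨J, hJ, F, A, hA, V, cb, z, z', hc, h3, h4⟩ :=
    h i (min τ₁ τ₂) (lt_min hτ₁ hτ₂) (max J₁ J₂)
  rcases h4 with h4 | h4
  · exact h1 J ((le_max_left _ _).trans hJ) F A (S.mono (min_le_left _ _) hA) V cb z z' hc
      (hmono _ _ hi1 _ _ _ _ _ _ _ h3) h4
  · exact h2 J ((le_max_right _ _).trans hJ) F A (S.mono (min_le_right _ _) hA) V cb z z' hc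
      (hmono _ _ hi2 _ _ _ _ _ _ _ h3) h4

/-- **One limit of a bounded number**, for all stages. -/
theorem mcof_num [Nonempty I] {D : I → MDt m} {x : ∀ (J : ℕ) (F : Fam m J) (_ : F.Ω → Prop)
    (V : Type), (V → Fin m → ℝ) → (PtT F → V) → (LnT F → V) → ℝ} {a b : ℝ}
    (hmono : ∀ i j : I, i ≤ j → ∀ (J : ℕ)
    (F : Fam m J) (A : F.Ω → Prop) (V : Type) (cb : V → Fin m → ℝ) (z : PtT F → V) (z' : LnT F → V),
    D j J F A V cb z z' → D i J F A V cb z z')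
    (h : ∀ i, MCof S w₁ (fun J F A V cb z z' => D i J F A V cb z z' ∧
      x J F A V cb z z' ∈ Set.Icc a b)) :
    ∃ c ∈ Set.Icc a b, ∀ i : I, ∀ δ : ℝ, 0 < δ → MCof S w₁ (fun J F A V cb z z' =>
      D i J F A V cb z z' ∧ |x J F A V cb z z' - c| ≤ δ) := by
  classical
  by_contra hcon
  push Not at hcon
  choose! M δ hδ hno using hcon
  unfold MCof at hno
  push Not at hno
  choose! τ hτ J₀ hno using hno
  -- finitely many balls cover the interval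
  obtain ⟨t, ht1, ht2⟩ := (isCompact_Icc : IsCompact (Set.Icc a b)).elim_nhds_subcover
    (fun c => Metric.ball c (δ c)) (fun c hc => Metric.ball_mem_nhds c (hδ c hc))
  obtain ⟨τm, hτm, hτm'⟩ : ∃ τm : ℝ, 0 < τm ∧ ∀ c ∈ t, τm ≤ τ c := by
    rcases t.eq_empty_or_nonempty with rfl | hne
    · exact ⟨1, one_pos, fun c hc => absurd hc (Finset.notMem_empty c)⟩
    · refine ⟨t.inf' hne τ, ?_, fun c hc => Finset.inf'_le τ hc⟩
      rw [Finset.lt_inf'_iff]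
      exact fun c hc => hτ c (ht1 c hc)
  obtain ⟨i, hi⟩ : ∃ i : I, ∀ c ∈ t, M c ≤ i := by
    have : ∀ s : Finset ℝ, ∃ i : I, ∀ c ∈ s, M c ≤ i := by
      intro s
      induction s using Finset.induction_on with
      | empty => exact ⟨Classical.arbitrary I, fun c hc => absurd hc (Finset.notMem_empty c)⟩
      | insert a s ha ih =>
        obtain ⟨i, hi⟩ := ih
        obtain ⟨j, hj1, hj2⟩ := exists_ge_ge i (M a)
        refine ⟨j, fun c hc => ?_⟩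
        rcases Finset.mem_insert.1 hc with rfl | hc
        · exact hj2
        · exact (hi c hc).trans hj1
    exact this t
  obtain ⟨J, hJ, F, A, hA, V, cb, z, z', hc, h3, h4⟩ := h i τm hτm (t.sup J₀)
  have h5 := ht2 h4
  obtain ⟨c, hct, hxc⟩ := Set.mem_iUnion₂.1 h5
  rw [Metric.mem_ball, Real.dist_eq] at hxc
  have h6 := hno c (ht1 c hct) J ((Finset.le_sup (f := J₀) hct).trans hJ) F A
    (S.mono (hτm' c hct) hA) V cb z z' hc (hmono _ _ (hi c hct) _ _ _ _ _ _ _ h3)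
  linarith

end case

/-- A linear function against an exponential. -/
theorem lin_exp {c K b : ℝ} (hc : 0 < c) (hK : 0 ≤ K) (hb : 0 ≤ b) :
    ∃ J₀ : ℕ, ∀ J ≥ J₀, K * ((⌊b * (J : ℝ)⌋₊ : ℝ) + 2) ≤ Real.exp (c * J) := by
  obtain ⟨J₀, hJ₀⟩ := exists_nat_ge (4 * K * (b + 2) / c ^ 2)
  refine ⟨J₀ + 1, fun J hJ => ?_⟩
  have hJ1 : (1 : ℝ) ≤ J := by exact_mod_cast (by omega : 1 ≤ J)
  have hJ2 : 4 * K * (b + 2) / c ^ 2 ≤ J := hJ₀.trans (by exact_mod_cast (by omega : J₀ ≤ J))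
  rw [div_le_iff₀ (by positivity)] at hJ2
  have h1 : (⌊b * (J : ℝ)⌋₊ : ℝ) + 2 ≤ (b + 2) * J := by
    have := Nat.floor_le (show 0 ≤ b * (J : ℝ) by positivity)
    linarith
  have h2 : c * J / 2 ≤ Real.exp (c * J / 2) := by
    have := Real.add_one_le_exp (c * J / 2)
    linarith
  have h3 : Real.exp (c * J) = Real.exp (c * J / 2) * Real.exp (c * J / 2) := by
    rw [← Real.exp_add]
    congr 1
    ring
  have h4 : (c * J / 2) * (c * J / 2) ≤ Real.exp (c * J) := by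
    rw [h3]
    exact mul_le_mul h2 h2 (by positivity) (Real.exp_pos _).le
  calc K * ((⌊b * (J : ℝ)⌋₊ : ℝ) + 2) ≤ K * ((b + 2) * J) := mul_le_mul_of_nonneg_left h1 hK
    _ ≤ (c * J / 2) * (c * J / 2) := by nlinarith
    _ ≤ _ := h4

section main

variable {I : Type} [Preorder I] [IsDirected I (· ≤ ·)] [Nonempty I]

/-- The last coordinate of the direction on an event. -/
def LeN (N : Fin m) (w₁ : ℝ) (b : ℝ) : MDt m := fun J F A _ cb _ z' =>
  ∀ ω, A ω → |cb (z' (slam F ⌊w₁ * (J : ℝ)⌋₊ ω)) N| ≤ b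

/-- The last coordinate of the direction on an event up to a factor two. -/
def DyN (N : Fin m) (w₁ : ℝ) (k : ℕ) : MDt m := fun J F A _ cb _ z' =>
  ∀ ω, A ω → (2 : ℝ) ^ k ≤ |cb (z' (slam F ⌊w₁ * (J : ℝ)⌋₊ ω)) N| ∧
    |cb (z' (slam F ⌊w₁ * (J : ℝ)⌋₊ ω)) N| ≤ 2 ^ (k + 1)

/-- **The two cases of the last coordinate of the direction.** -/
theorem mcof_case (hne : S.Ne) {E : ℝ} (hE : 0 ≤ E) (N : Fin m) {D D' : I → MDt m}
    {s : I → ℝ} (hs0 : ∀ i, 0 < s i) (hs1 : ∀ i, s i ≤ 1) (hs : ∀ i j, i ≤ j → s j ≤ s i)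
    (hsε : ∀ ε : ℝ, 0 < ε → ∃ i, s i ≤ ε)
    (hmono : ∀ i j : I, i ≤ j → ∀ (J : ℕ)
      (F : Fam m J) (A : F.Ω → Prop) (V : Type) (cb : V → Fin m → ℝ) (z : PtT F → V) (z' : LnT F → V),
      D' j J F A V cb z z' → D' i J F A V cb z z')
    (hres : ∀ i, ∃ e : ℝ, 0 < e ∧ ∃ J₁ : ℕ, ∀ J ≥ J₁, ∀ (F : Fam m J) (B B' : F.Ω → Prop)
      (V : Type) (cb : V → Fin m → ℝ) (z : PtT F → V) (z' : LnT F → V), D i J F B V cb z z' → Sub B' B →
      Real.exp (-(e * J)) * Pe F.p B ≤ Pe F.p B' → D' i J F B' V cb z z')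
    (h : ∀ i, ∃ K : ℝ, 0 < K ∧ Bas S (fun J F A => ∃ B : F.Ω → Prop, Sub B A ∧
      Pe F.p A ≤ K * Pe F.p B ∧ ∃ (V : Type) (cb : V → Fin m → ℝ) (z : PtT F → V)
        (z' : LnT F → V), (∀ ω, B ω → z (ptr F J ω) = z' (slam F ⌊w₁ * J⌋₊ ω)) ∧
        D i J F B V cb z z' ∧ LeN N w₁ (2 ^ ⌊(E + s i) * J⌋₊) J F B V cb z z')) :
    (∀ i, MCof S w₁ (fun J F A V cb z z' => D' i J F A V cb z z' ∧ LeN N w₁ 1 J F A V cb z z')) ∨
    ∃ xs ∈ Set.Icc 0 E, ∀ i, ∀ δ : ℝ, 0 < δ → MCof S w₁ (fun J F A V cb z z' =>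
      D' i J F A V cb z z' ∧ ∃ k : ℕ, (xs - δ) * J ≤ k ∧ (k : ℝ) ≤ (xs + δ) * J ∧
        DyN N w₁ k J F A V cb z z') := by
  classical
  -- the stages
  obtain ⟨D₂, hD₂⟩ : ∃ D₂ : I → MDt m, D₂ = fun i J F A V cb z z' => D' i J F A V cb z z' ∧
      LeN N w₁ (2 ^ ⌊(E + s i) * J⌋₊) J F A V cb z z' := ⟨_, rfl⟩
  have hmono₂ : ∀ i j : I, i ≤ j → ∀ (J : ℕ) (F : Fam m J) (A : F.Ω → Prop) (V : Type)
      (cb : V → Fin m → ℝ) (z : PtT F → V) (z' : LnT F → V), D₂ j J F A V cb z z' → D₂ i J F A V cb z z' := by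
    intro i j hij J F A V cb z z' h1
    rw [hD₂] at h1 ⊢
    refine ⟨hmono _ _ hij _ _ _ _ _ _ _ h1.1, fun ω hω => (h1.2 ω hω).trans ?_⟩
    refine pow_le_pow_right₀ one_le_two (Nat.floor_mono ?_)
    refine mul_le_mul_of_nonneg_right ?_ (Nat.cast_nonneg J)
    have h2 := hs i j hij
    linarith
  have h1 : ∀ i, MCof S w₁ (fun J F A V cb z z' => D₂ i J F A V cb z z' ∧
      (LeN N w₁ 1 J F A V cb z z' ∨ ∃ k : ℕ, DyN N w₁ k J F A V cb z z')) := by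
    intro i τ hτ J₀
    have hh := hs0 i
    obtain ⟨K, hK, τD, hτD, JD, hD⟩ := h i
    obtain ⟨e, he, J₁, hres⟩ := hres i
    obtain ⟨J₂, hJ₂⟩ := lin_exp (c := τ / 2) (K := K) (b := E + s i)
      (by positivity) hK.le (by positivity)
    obtain ⟨J₃, hJ₃⟩ := lin_exp (c := e) (K := 1) (b := E + s i)
      he zero_le_one (by positivity)
    obtain ⟨J, hJ, F, A, hA⟩ := hne (min τD (τ / 2)) (lt_min hτD (half_pos hτ))
      (max (max J₀ J₁) (max JD (max J₂ J₃)))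
    simp only [ge_iff_le, max_le_iff] at hJ
    obtain ⟨⟨hJ0, hJ1⟩, hJD, hJ2, hJ3⟩ := hJ
    obtain ⟨B, hBA, hPB, V, cb, z, z', hcl, hDt, hle⟩ := hD J hJD F A
      (S.mono (min_le_left _ _) hA)
    obtain ⟨x, hx⟩ : ∃ x : F.Ω → ℝ, x = fun ω => |cb (z' (slam F ⌊w₁ * (J : ℝ)⌋₊ ω)) N| := ⟨_, rfl⟩
    obtain ⟨P, hP⟩ : ∃ P : ℕ, P = ⌊(E + s i) * J⌋₊ := ⟨_, rfl⟩
    have hJ2 := hJ₂ J hJ2
    have hJ3 := hJ₃ J hJ3
    rw [← hP] at hJ2 hJ3
    have hxB : ∀ ω, B ω → x ω ≤ 2 ^ P := by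
      intro ω hω
      rw [hx, hP]
      exact hle ω hω
    obtain ⟨f, hf⟩ : ∃ f : F.Ω → ℕ, f = fun ω => if x ω ≤ 1 then 0 else Nat.log 2 ⌊x ω⌋₊ + 1 :=
      ⟨_, rfl⟩
    have hfB : ∀ ω, B ω → f ω < P + 2 := by
      intro ω hω
      rw [hf]
      simp only
      split_ifs with h2
      · omega
      · have h3 : ⌊x ω⌋₊ ≤ 2 ^ P := by
          have h4 := hxB ω hω
          refine Nat.floor_le_of_le ?_
          push_cast
          exact h4
        have h5 : Nat.log 2 ⌊x ω⌋₊ ≤ P := by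
          calc Nat.log 2 ⌊x ω⌋₊ ≤ Nat.log 2 (2 ^ P) := Nat.log_mono_right h3
            _ = P := Nat.log_pow (by norm_num) P
        omega
    obtain ⟨v, hv⟩ := pe_pig (p := F.p) (κ := Fin (P + 2))
      (fun ω => (⟨min (f ω) (P + 1), by omega⟩ : Fin (P + 2))) B
    obtain ⟨B', hB'⟩ : ∃ B' : F.Ω → Prop, B' = fun ω => B ω ∧
      (⟨min (f ω) (P + 1), by omega⟩ : Fin (P + 2)) = v := ⟨_, rfl⟩
    rw [← hB', Fintype.card_fin] at hv
    push_cast at hv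
    have hB'B : Sub B' B := fun ω hω => by
      rw [hB'] at hω
      exact hω.1
    have hB'f : ∀ ω, B' ω → f ω = v := by
      intro ω hω
      rw [hB'] at hω
      have h2 := hfB ω hω.1
      have h3 := congrArg Fin.val hω.2
      simp only at h3
      omega
    have hPe := Pe_nonneg F.isLaw A
    have hPeB := Pe_nonneg F.isLaw B
    have hP2 : (0 : ℝ) < (P : ℝ) + 2 := by positivity
    have hv' : Pe F.p B ≤ ((P : ℝ) + 2) * Pe F.p B' := by
      rw [div_le_iff₀ hP2] at hv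
      linarith
    have hst : S.St τ J F B' := by
      have h2 := S.res (τ' := τ / 2) (by positivity) (S.mono (min_le_right τD (τ / 2)) hA)
        (fun ω hω => hBA ω (hB'B ω hω)) (by
          have h3 : Pe F.p A ≤ Real.exp (τ / 2 * J) * Pe F.p B' := by
            calc Pe F.p A ≤ K * Pe F.p B := hPB
              _ ≤ K * (((P : ℝ) + 2) * Pe F.p B') := mul_le_mul_of_nonneg_left hv' hK.le
              _ = K * ((P : ℝ) + 2) * Pe F.p B' := by ring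
              _ ≤ _ := mul_le_mul_of_nonneg_right hJ2 (Pe_nonneg F.isLaw B')
          rw [Real.exp_neg, inv_mul_le_iff₀ (Real.exp_pos _)]
          exact h3)
      rwa [add_halves] at h2
    have hD' : D' i J F B' V cb z z' := by
      refine hres J hJ1 F B B' V cb z z' hDt hB'B ?_
      rw [Real.exp_neg, inv_mul_le_iff₀ (Real.exp_pos _)]
      exact hv'.trans (mul_le_mul_of_nonneg_right (by linarith) (Pe_nonneg F.isLaw B'))
    refine ⟨J, hJ0, F, B', hst, V, cb, z, z', fun ω hω => hcl ω (hB'B ω hω), ?_, ?_⟩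
    · rw [hD₂]
      exact ⟨hD', fun ω hω => hle ω (hB'B ω hω)⟩
    · rcases Nat.eq_zero_or_pos (v : ℕ) with h2 | h2
      · left
        intro ω hω
        have h3 := hB'f ω hω
        rw [h2, hf] at h3
        simp only at h3
        split_ifs at h3 with h4
        rw [hx] at h4
        exact h4
      · right
        refine ⟨(v : ℕ) - 1, fun ω hω => ?_⟩
        have h3 := hB'f ω hω
        rw [hf] at h3
        simp only at h3
        split_ifs at h3 with h4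
        · omega
        · push Not at h4
          have h5 : Nat.log 2 ⌊x ω⌋₊ = (v : ℕ) - 1 := by omega
          have h6 : 1 ≤ ⌊x ω⌋₊ := Nat.le_floor (by exact_mod_cast h4.le)
          have h7 := Nat.pow_log_le_self 2 (show ⌊x ω⌋₊ ≠ 0 by omega)
          have h8 := Nat.lt_pow_succ_log_self (show 1 < 2 by norm_num) ⌊x ω⌋₊
          rw [h5] at h7 h8
          have h9 : (⌊x ω⌋₊ : ℝ) ≤ x ω := Nat.floor_le (by linarith)
          have h10 := Nat.lt_floor_add_one (x ω)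
          have h11 : (2 : ℝ) ^ ((v : ℕ) - 1) ≤ ⌊x ω⌋₊ := by exact_mod_cast h7
          have h12 : (⌊x ω⌋₊ : ℝ) + 1 ≤ 2 ^ ((v : ℕ) - 1 + 1) := by exact_mod_cast h8
          rw [hx] at h9 h10 h11 h12
          exact ⟨h11.trans h9, by linarith⟩
  rcases MCof.or hmono₂ h1 with h2 | h2
  · left
    intro i
    exact (h2 i).mono fun J F A V cb z z' h3 => by
      rw [hD₂] at h3
      exact ⟨h3.1.1, h3.2⟩
  · right
    obtain ⟨X, hX⟩ : ∃ X : ∀ (J : ℕ) (F : Fam m J) (_ : F.Ω → Prop) (V : Type),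
      (V → Fin m → ℝ) → (PtT F → V) → (LnT F → V) → ℕ, X = fun J F A V cb z z' =>
        if h : ∃ k : ℕ, DyN N w₁ k J F A V cb z z' then Nat.find h else 0 := ⟨_, rfl⟩
    have hX1 : ∀ (J : ℕ) (F : Fam m J) (A : F.Ω → Prop) (V : Type) (cb : V → Fin m → ℝ)
        (z : PtT F → V) (z' : LnT F → V), (∃ k : ℕ, DyN N w₁ k J F A V cb z z') →
        DyN N w₁ (X J F A V cb z z') J F A V cb z z' := by
      intro J F A V cb z z' h3
      rw [hX]
      simp only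
      rw [dif_pos h3]
      exact Nat.find_spec h3
    have hX2 : ∀ (J : ℕ) (F : Fam m J) (A : F.Ω → Prop) (V : Type) (cb : V → Fin m → ℝ)
        (z : PtT F → V) (z' : LnT F → V) (Q : ℕ), LeN N w₁ (2 ^ Q) J F A V cb z z' →
        X J F A V cb z z' ≤ Q := by
      intro J F A V cb z z' Q h3
      by_cases h4 : ∃ k : ℕ, DyN N w₁ k J F A V cb z z'
      · by_cases h5 : ∃ ω, A ω
        · obtain ⟨ω, hω⟩ := h5
          have h6 := (hX1 J F A V cb z z' h4 ω hω).1.trans (h3 ω hω)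
          exact (pow_le_pow_iff_right₀ (one_lt_two : (1 : ℝ) < 2)).1 h6
        · push Not at h5
          have h6 : DyN N w₁ 0 J F A V cb z z' := fun ω hω => absurd hω (h5 ω)
          rw [hX]
          simp only
          rw [dif_pos h4, (Nat.find_eq_zero h4).2 h6]
          exact Nat.zero_le _
      · rw [hX]
        simp only
        rw [dif_neg h4]
        exact Nat.zero_le _
    have hX3 : ∀ (J : ℕ) (i : I) (F : Fam m J) (A : F.Ω → Prop) (V : Type) (cb : V → Fin m → ℝ)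
        (z : PtT F → V) (z' : LnT F → V), LeN N w₁ (2 ^ ⌊(E + s i) * J⌋₊) J F A V cb z z' →
        (X J F A V cb z z' : ℝ) / J ≤ E + s i := by
      intro J i F A V cb z z' h3
      have h4 := hX2 J F A V cb z z' _ h3
      have h6 := hs0 i
      have h5 : (0 : ℝ) ≤ E + s i := by positivity
      refine div_le_of_le_mul₀ (Nat.cast_nonneg J) h5 ?_
      calc (X J F A V cb z z' : ℝ) ≤ (⌊(E + s i) * J⌋₊ : ℝ) := by exact_mod_cast h4
        _ ≤ _ := Nat.floor_le (by positivity)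
    obtain ⟨c, ⟨hc0, hc1⟩, h3⟩ := mcof_num (a := 0) (b := E + 1) (D := fun i J F A V cb z z' =>
      D₂ i J F A V cb z z' ∧ ∃ k : ℕ, DyN N w₁ k J F A V cb z z')
      (x := fun J F A V cb z z' => (X J F A V cb z z' : ℝ) / J)
      (fun i j hij J F A V cb z z' h4 => ⟨hmono₂ i j hij _ _ _ _ _ _ _ h4.1, h4.2⟩)
      (fun i => (h2 i).mono fun J F A V cb z z' h4 => ⟨h4, by positivity, by
        have h5 := hD₂ ▸ h4.1
        have h6 := hX3 J i F A V cb z z' h5.2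
        have h7 := hs1 i
        linarith⟩)
    have hcE : c ≤ E := by
      by_contra hcon
      push Not at hcon
      have hd : 0 < (c - E) / 3 := by linarith
      obtain ⟨M, hM⟩ := hsε _ hd
      obtain ⟨J, -, F, A, -, V, cb, z, z', -, ⟨h4, -⟩, h5⟩ :=
        h3 M _ hd 1 one_pos 0
      have h6 := hX3 J M F A V cb z z' (hD₂ ▸ h4).2
      have h8 := (abs_le.1 h5).1
      linarith
    refine ⟨c, ⟨hc0, hcE⟩, fun i δ hδ => ?_⟩
    refine (h3 i δ hδ).mono' 1 fun J hJ F A V cb z z' h4 => ?_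
    obtain ⟨⟨h5, h6⟩, h7⟩ := h4
    rw [hD₂] at h5
    have hJ' : (0 : ℝ) < J := by exact_mod_cast (by omega : 0 < J)
    refine ⟨h5.1, X J F A V cb z z', ?_, ?_, hX1 _ _ _ _ _ _ _ h6⟩
    · have h8 := (abs_le.1 h7).1
      rw [← le_div_iff₀ hJ']
      linarith
    · have h8 := (abs_le.1 h7).2
      rw [← div_le_iff₀ hJ']
      linarith

end main

/-- A statement for arbitrarily long families. -/
def Cof (S : PCl m) (Φ : Stat m) : Prop :=
  ∀ τ : ℝ, 0 < τ → ∀ J₀ : ℕ, ∃ J ≥ J₀, ∃ (F : Fam m J) (A : F.Ω → Prop), S.St τ J F A ∧ Φ J F A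

/-- Lists of requirements with a stage. -/
structure LI (Rq : Type) where
  L : List Rq
  M : ℕ

instance (Rq : Type) : Preorder (LI Rq) where
  le a b := a.L ⊆ b.L ∧ a.M ≤ b.M
  le_refl a := ⟨fun _ h => h, le_rfl⟩
  le_trans a b c h h' := ⟨fun _ hx => h'.1 (h.1 hx), h.2.trans h'.2⟩

instance (Rq : Type) : IsDirected (LI Rq) (· ≤ ·) := ⟨fun a b =>
  ⟨⟨a.L ++ b.L, max a.M b.M⟩, ⟨fun _ h => List.mem_append.2 (Or.inl h), le_max_left _ _⟩,
    ⟨fun _ h => List.mem_append.2 (Or.inr h), le_max_right _ _⟩⟩⟩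

instance (Rq : Type) : Nonempty (LI Rq) := ⟨⟨[], 0⟩⟩

/-- **The two cases of the last coordinate of the direction.** -/
theorem zh_case (hne : S.Ne) {E : ℝ} (hE : 0 ≤ E) (N : Fin m) {Rq : Type}
    {P P' : List Rq → ℝ → ∀ (J : ℕ) (F : Fam m J), (F.Ω → Prop) → ∀ V : Type, (PtT F → V) →
      (LnT F → V) → (V → Fin m → ℝ) → Prop}
    (hsub : ∀ (L : List Rq) (h : ℝ), 0 < h → ∃ τ : ℝ, 0 < τ ∧ ∃ J₀ : ℕ, ∀ J ≥ J₀,
      ∀ (F : Fam m J) (B B' : F.Ω → Prop) (V : Type) (z : PtT F → V) (z' : LnT F → V)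
        (cb : V → Fin m → ℝ), Sub B' B → Real.exp (-(τ * J)) * Pe F.p B ≤ Pe F.p B' →
        P L h J F B V z z' cb → P' L h J F B' V z z' cb)
    (hL : ∀ (L L' : List Rq) (h : ℝ) (J : ℕ) (F : Fam m J) (B : F.Ω → Prop) (V : Type)
      (z : PtT F → V) (z' : LnT F → V) (cb : V → Fin m → ℝ), L ⊆ L' →
      P' L' h J F B V z z' cb → P' L h J F B V z z' cb)
    (hh : ∀ (L : List Rq) (h h' : ℝ) (J : ℕ) (F : Fam m J) (B : F.Ω → Prop) (V : Type)
      (z : PtT F → V) (z' : LnT F → V) (cb : V → Fin m → ℝ), 0 < h → h ≤ h' →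
      P' L h J F B V z z' cb → P' L h' J F B V z z' cb)
    (hM : ∀ (L : List Rq) (h : ℝ), 0 < h → ∃ K : ℝ, 0 < K ∧ Bas S (fun J F A =>
      ∃ B : F.Ω → Prop, Sub B A ∧ Pe F.p A ≤ K * Pe F.p B ∧
      ∃ (V : Type) (z : PtT F → V) (z' : LnT F → V) (cb : V → Fin m → ℝ),
        (∀ ω, B ω → z (ptr F J ω) = z' (slam F ⌊w₁ * J⌋₊ ω)) ∧
        (∀ ω, B ω → |cb (z' (slam F ⌊w₁ * J⌋₊ ω)) N| ≤ 2 ^ ⌊(E + h) * J⌋₊) ∧
        P L h J F B V z z' cb)) :
    (∀ (L : List Rq) (h : ℝ), 0 < h → Cof S (fun J F A =>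
      ∃ (V : Type) (z : PtT F → V) (z' : LnT F → V) (cb : V → Fin m → ℝ),
        (∀ ω, A ω → z (ptr F J ω) = z' (slam F ⌊w₁ * J⌋₊ ω)) ∧
        (∀ ω, A ω → |cb (z' (slam F ⌊w₁ * J⌋₊ ω)) N| ≤ 1) ∧ P' L h J F A V z z' cb)) ∨
    ∃ xs : ℝ, 0 ≤ xs ∧ xs ≤ E ∧ ∀ (L : List Rq) (h δ : ℝ), 0 < h → 0 < δ → Cof S (fun J F A =>
      ∃ (V : Type) (z : PtT F → V) (z' : LnT F → V) (cb : V → Fin m → ℝ),
        (∀ ω, A ω → z (ptr F J ω) = z' (slam F ⌊w₁ * J⌋₊ ω)) ∧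
        (∀ ω, A ω → 1 ≤ |cb (z' (slam F ⌊w₁ * J⌋₊ ω)) N| ∧
          2 ^ ⌊(xs - δ) * J⌋₊ ≤ |cb (z' (slam F ⌊w₁ * J⌋₊ ω)) N| ∧
          |cb (z' (slam F ⌊w₁ * J⌋₊ ω)) N| ≤ 4 * 2 ^ ⌊(xs + δ) * J⌋₊) ∧
        P' L h J F A V z z' cb) := by
  have hpos : ∀ M : ℕ, (0 : ℝ) < 1 / ((M : ℝ) + 1) := fun M => by positivity
  have hm := mcof_case (I := LI Rq) (w₁ := w₁) hne hE N
    (D := fun i J F A V cb z z' => P i.L (1 / ((i.M : ℝ) + 1)) J F A V z z' cb)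
    (D' := fun i J F A V cb z z' => P' i.L (1 / ((i.M : ℝ) + 1)) J F A V z z' cb)
    (s := fun i => 1 / ((i.M : ℝ) + 1)) (fun i => hpos i.M)
    (fun i => by
      rw [div_le_one (by positivity)]
      have : (0 : ℝ) ≤ i.M := Nat.cast_nonneg _
      linarith)
    (fun i j hij => by
      have h2 : (i.M : ℝ) ≤ j.M := by exact_mod_cast hij.2
      exact one_div_le_one_div_of_le (by positivity) (by linarith))
    (fun ε hε => by
      obtain ⟨M, hM⟩ := exists_nat_gt (1 / ε)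
      refine ⟨⟨[], M⟩, ?_⟩
      rw [div_lt_iff₀ hε] at hM
      rw [div_le_iff₀ (by positivity)]
      nlinarith)
    (fun i j hij J F A V cb z z' h1 => by
      refine hL _ _ _ _ _ _ _ _ _ _ hij.1 (hh _ _ _ _ _ _ _ _ _ _ (hpos j.M) ?_ h1)
      have h2 : (i.M : ℝ) ≤ j.M := by exact_mod_cast hij.2
      exact one_div_le_one_div_of_le (by positivity) (by linarith))
    (fun i => by
      obtain ⟨τ, hτ, J₀, h1⟩ := hsub i.L _ (hpos i.M)
      exact ⟨τ, hτ, J₀, fun J hJ F B B' V cb z z' h2 h3 h4 => h1 J hJ F B B' V z z' cb h3 h4 h2⟩)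
    (fun i => by
      obtain ⟨K, hK, hB⟩ := hM i.L _ (hpos i.M)
      refine ⟨K, hK, hB.mono 0 ?_⟩
      rintro J - F A ⟨B, h1, h2, V, z, z', cb, h3, h4, h5⟩
      exact ⟨B, h1, h2, V, cb, z, z', h3, h5, h4⟩)
  have hex : ∀ h : ℝ, 0 < h → ∃ M : ℕ, 1 / ((M : ℝ) + 1) ≤ h := by
    intro h hh
    obtain ⟨M, hM⟩ := exists_nat_gt (1 / h)
    refine ⟨M, ?_⟩
    rw [div_lt_iff₀ hh] at hM
    rw [div_le_iff₀ (by positivity)]
    nlinarith
  rcases hm with hm | ⟨xs, hxs, hm⟩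
  · left
    intro L h hh'
    obtain ⟨M, hM'⟩ := hex h hh'
    intro τ hτ J₀
    obtain ⟨J, hJ, F, A, hA, V, cb, z, z', hc, h1, h2⟩ := hm ⟨L, M⟩ τ hτ J₀
    exact ⟨J, hJ, F, A, hA, V, z, z', cb, hc, h2, hh _ _ _ _ _ _ _ _ _ _ (hpos M) hM' h1⟩
  · right
    refine ⟨xs, hxs.1, hxs.2, fun L h δ hh' hδ => ?_⟩
    obtain ⟨M, hM'⟩ := hex h hh'
    intro τ hτ J₀
    obtain ⟨J, hJ, F, A, hA, V, cb, z, z', hc, h1, k, hk1, hk2, h2⟩ := hm ⟨L, M⟩ δ hδ τ hτ J₀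
    refine ⟨J, hJ, F, A, hA, V, z, z', cb, hc, fun ω hω => ?_,
      hh _ _ _ _ _ _ _ _ _ _ (hpos M) hM' h1⟩
    obtain ⟨h3, h4⟩ := h2 ω hω
    refine ⟨(one_le_pow₀ one_le_two).trans h3, ?_, ?_⟩
    · refine le_trans (pow_le_pow_right₀ one_le_two ?_) h3
      exact Nat.floor_le_of_le hk1
    · refine h4.trans ?_
      have h5 : k ≤ ⌊(xs + δ) * (J : ℝ)⌋₊ := Nat.le_floor hk2
      have h6 : (2 : ℝ) ^ k ≤ 2 ^ ⌊(xs + δ) * (J : ℝ)⌋₊ := pow_le_pow_right₀ one_le_two h5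
      have h7 : (0 : ℝ) < 2 ^ ⌊(xs + δ) * (J : ℝ)⌋₊ := by positivity
      rw [pow_succ]
      linarith

end Pool.ZHC
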