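import Pool.Agent.H80.ZC.Lbq

/-!
# No stable labels in the zooms of a class, closed linear coordinates, at every window

`Pk.phi2v_zpr`: (Phi2) at the window `w'` of the zoom, with the numbers at a good window `v` behind
`w₁ + w' (1 - w₁)`. `Pk.phi2w_zpr`: at a good window which is a limit of good windows from the
right; `Pk.phi2w`: at any window, with the infimum of the numbers behind.
-/

set_option autoImplicit false

namespace Pool.PKG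

open MeasureTheory Set Filter Topology
open Pool.Agent.H49.Ent Pool.Agent.H32.Dense Pool.STK Pool.KA Pool.KSAT Pool.K2S Pool.PB
open Pool.GEN Pool.S6C Pool.STAT Pool.CHT Pool.GRW Pool.ONE Pool.STA
open Pool.TOP (LbR)
open Pool.ZCO (ZPr)
open Pool.ZLB (SlD zpr_nolb)

variable {n : ℕ} {hn : 2 ≤ n} {S : PCl n} {P : ℝ → ℝ → ℝ} {r : ℝ → ℝ}
  {P' : ℕ → List (Fin n) × Fin n → ℝ → ℝ → ℝ} {Λ : Finset (Fin n) → Fin n → ℝ → ℝ → ℝ}

/-- **(Phi2) at any window**, with the numbers at a good window behind. -/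
theorem Pk.phi2v_zpr (H : Pk hn S P r P' Λ) (hF : FZX (n - 1)) {o : Od n} {l : ℕ}
    {w₁ w' v Q' ε : ℝ} (c₀ : ℝ) (hw0 : 0 < w₁) (hw1 : w₁ < 1) (hv : v ∈ Gs P r P' Λ o)
    (hw'0 : 0 ≤ w') (hw'1 : w' ≤ 1) (hwv : w₁ + w' * (1 - w₁) < v)
    (hQ'0 : 0 ≤ Q') (hQ'1 : Q' ≤ 1) (hε : 0 ≤ ε) (e : Fin n → Fin n) (i : Fin n)
    (hi : (i : ℕ) < n - 1) (hQ : LL hn P P' o (ix l i + 1) v v + ε < w₁ + Q' * (1 - w₁)) (K : ℕ) :
    ZPr S w₁ e
      (SlD 2 w₁ e (Finset.univ.filter fun j : Fin n => (j : ℕ) < i) i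
        ((Finset.range (ix l i)).image (cc hn o.1.1)) (cc hn o.1.1 (ix l i)) ε c₀)
      (fun J' G B' => ¬ LbR 8 G (Finset.univ.filter fun j : Fin n => (j : ℕ) < i) i K
        ⌊w' * J'⌋₊ ⌊Q' * J'⌋₊ B') := by
  classical
  have h01 : 0 < 1 - w₁ := by linarith
  have hv0 := hv.1.1.1
  have hv1 := hv.1.1.2.1
  obtain ⟨Q, hQd⟩ : ∃ Q, Q = (LL hn P P' o (ix l i + 1) v v + (w₁ + Q' * (1 - w₁) - ε)) / 2 :=
    ⟨_, rfl⟩
  have hLLQ : LL hn P P' o (ix l i + 1) v v < Q := by rw [hQd]; linarith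
  have hQQ : Q + ε < w₁ + Q' * (1 - w₁) := by rw [hQd]; linarith
  have hQ1 : Q ≤ 1 := by
    have := mul_le_mul_of_nonneg_right hQ'1 h01.le
    linarith
  have hLL0 : 0 ≤ LL hn P P' o (ix l i + 1) v v := by
    have h1 := ix_le (l := l) hi
    rcases h1.lt_or_eq with h2 | h2
    · rw [LL_low (by omega) (by omega)]
      exact hv0.le.trans ((H.cht o.2).low _ _ _ hv0.le le_rfl hv1.le)
    · rw [h2, LL_lst]
      exact hv0.le.trans (H.tgs.low () _ _ hv0.le le_rfl hv1.le)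
  have h6 := zpr_nolb 2 (R := 1) (by norm_num) hw0 hw1 hw'0 hw'1 hwv hv1.le
    (hLL0.trans hLLQ.le) hQ'0 hQ'1 hQQ e
    (Finset.univ.filter fun j : Fin n => (j : ℕ) < i) i
    ((Finset.range (ix l i)).image (cc hn o.1.1)) (cc hn o.1.1 (ix l i)) K (c₀ := c₀)
    (H.nolb hF hv (ix_le hi) hLLQ hQ1 le_rfl (K + 1))
  have e1 : ((2 * ((2 : ℕ) : ℝ) + 1) * 1 + 3) = 8 := by norm_num
  rw [e1] at h6
  exact h6

/-- **(Phi2) at a good window** `g = w₁ + w' (1 - w₁)` of the class which is a limit of good windows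
from the right, with the numbers there. -/
theorem Pk.phi2w_zpr (H : Pk hn S P r P' Λ) (hF : FZX (n - 1)) {o : Od n} {l : ℕ}
    {w₁ w' g Q' ε : ℝ} (c₀ : ℝ) (hw0 : 0 < w₁) (hw1 : w₁ < 1) (hg : g ∈ Gs P r P' Λ o)
    (hR : ∀ δ : ℝ, 0 < δ → ∃ v ∈ Gs P r P' Λ o, g < v ∧ v < g + δ)
    (hw'0 : 0 ≤ w') (hwg : g = w₁ + w' * (1 - w₁))
    (hQ'0 : 0 ≤ Q') (hQ'1 : Q' ≤ 1) (hε : 0 ≤ ε) (e : Fin n → Fin n) (i : Fin n)
    (hi : (i : ℕ) < n - 1) (hQ : LL hn P P' o (ix l i + 1) g g + ε < w₁ + Q' * (1 - w₁)) (K : ℕ) :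
    ZPr S w₁ e
      (SlD 2 w₁ e (Finset.univ.filter fun j : Fin n => (j : ℕ) < i) i
        ((Finset.range (ix l i)).image (cc hn o.1.1)) (cc hn o.1.1 (ix l i)) ε c₀)
      (fun J' G B' => ¬ LbR 8 G (Finset.univ.filter fun j : Fin n => (j : ℕ) < i) i K
        ⌊w' * J'⌋₊ ⌊Q' * J'⌋₊ B') := by
  have h01 : 0 < 1 - w₁ := by linarith
  have hg1 := hg.1.1.2.1
  obtain ⟨δ, hδ, h1⟩ := H.ll_near hg (ix_le (l := l) hi)
    (e := w₁ + Q' * (1 - w₁) - (LL hn P P' o (ix l i + 1) g g + ε)) (by linarith)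
  obtain ⟨v, hv, h2, h3⟩ := hR δ hδ
  have hv1 := hv.1.1.2.1
  have h4 := h1 v h2 h3 hv1.le
  have hw'1 : w' ≤ 1 := by
    by_contra hcon
    push Not at hcon
    have := mul_lt_mul_of_pos_right hcon h01
    linarith
  exact H.phi2v_zpr hF c₀ hw0 hw1 hv hw'0 hw'1 (by linarith) hQ'0 hQ'1 hε e i hi (by linarith) K

/-- **(Phi2) in the form of the properties of a class**: a number `q` at the window `w'` such that
there are good windows behind with numbers at most `w₁ + (q + h) (1 - w₁)`, for all `h`. -/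
theorem Pk.phi2w (H : Pk hn S P r P' Λ) (hF : FZX (n - 1)) {o : Od n} {l : ℕ}
    {w₁ w' q h : ℝ} (c₀ : ℝ) (hw0 : 0 < w₁) (hw1 : w₁ < 1)
    (hw'0 : 0 ≤ w') (hw'1 : w' ≤ 1) (hq0 : 0 ≤ q) (hh : 0 < h) (hq1 : q + h ≤ 1)
    (e : Fin n → Fin n) (i : Fin n) (hi : (i : ℕ) < n - 1) {x : ℝ} (hx : 0 ≤ x)
    (hq : ∀ h' : ℝ, 0 < h' → ∃ v ∈ Gs P r P' Λ o, w₁ + w' * (1 - w₁) < v ∧
      LL hn P P' o (ix l i + 1) v v + x < w₁ + q * (1 - w₁) + h') (K : ℕ) :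
    ZPr S w₁ e
      (SlD 2 w₁ e (Finset.univ.filter fun j : Fin n => (j : ℕ) < i) i
        ((Finset.range (ix l i)).image (cc hn o.1.1)) (cc hn o.1.1 (ix l i))
        (x + h * (1 - w₁) / 2) c₀)
      (fun J' G B' => ¬ LbR 8 G (Finset.univ.filter fun j : Fin n => (j : ℕ) < i) i K
        ⌊w' * J'⌋₊ ⌊(q + h) * J'⌋₊ B') := by
  have h01 : 0 < 1 - w₁ := by linarith
  have h0 : 0 < h * (1 - w₁) := mul_pos hh h01
  obtain ⟨v, hv, h2, h3⟩ := hq (h * (1 - w₁) / 2) (by linarith)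
  exact H.phi2v_zpr hF c₀ hw0 hw1 hv hw'0 hw'1 h2 (by linarith) hq1 (by linarith) e i hi
    (by
      have e1 : (q + h) * (1 - w₁) = q * (1 - w₁) + h * (1 - w₁) := by ring
      linarith) K

end Pool.PKG
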