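import Pool.Agent.H80.ZC.Lbc
import Pool.Agent.H80.ZC.Zco

/-!
# Stable labels of the zooms in closed linear coordinates

`lbr_zfc`: a stable label of one coordinate of the zoom `Pool.ZLC.zfc` over other coordinates of the
zoom is a stable label of the family, for general closed linear coordinates.
`SlD`: the requirement on the closed data. `zpr_nolb`: the statement on the zooms of a class.
-/

set_option autoImplicit false

namespace Pool.ZLB

open Finset Real MvPolynomial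
open Pool.Agent.H49.Ent Pool.Agent.H32.Dense Pool.STK Pool.KA Pool.KSAT Pool.K2S Pool.PB Pool.S6C
open Pool.GEN Pool.ZCL Pool.TOP Pool.ZLC Pool.ZCO

variable {m n J : ℕ} {V : Type}

section

variable (Cr : Crd m V) (v : V)

/-- Linear coordinates are linear forms. -/
theorem L_fin (x : Fin m → ℝ) (k : Fin m) (s : Finset (Fin m)) :
    Cr.L v (fun i => if i ∈ s then x i else 0) k =
      ∑ j ∈ s, x j * Cr.L v (Pi.single j 1) k := by
  classical
  induction s using Finset.induction_on with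
  | empty =>
    simp only [Finset.notMem_empty, if_false, Finset.sum_empty]
    exact Box.L_zero Cr v k
  | insert a s ha ih =>
    rw [Finset.sum_insert ha, ← ih]
    have h := Cr.lin v (fun i => if i ∈ s then x i else 0) (Pi.single a 1) (x a) k
    have e : (fun j => (if j ∈ s then x j else 0) + x a * (Pi.single a 1 : Fin m → ℝ) j) =
        fun i => if i ∈ insert a s then x i else 0 := by
      funext j
      by_cases hj : j = a
      · subst hj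
        simp [ha]
      · simp [hj]
    rw [e] at h
    rw [h]
    ring

theorem L_sum (x : Fin m → ℝ) (k : Fin m) :
    Cr.L v x k = ∑ j, x j * Cr.L v (Pi.single j 1) k := by
  have h := L_fin Cr v x k univ
  simpa using h

/-- Lipschitz functions. -/
theorem bd_lip0 {Cr : Crd m V} {c : ℝ} (hC : Cr.Bd 0 c) {v : V} {x y : Fin m → ℝ} {δ : ℝ}
    (hδ : 0 ≤ δ) (h : ∀ j, |x j - y j| ≤ δ) (i : Fin m) :
    |Cr.L v x i - Cr.L v y i| ≤ c * δ := by
  rcases hδ.eq_or_lt with h0 | h0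
  · have h1 : x = y := by
      funext j
      have := h j
      rw [← h0] at this
      have h2 := abs_nonpos_iff.1 this
      linarith
    rw [h1, sub_self, abs_zero, ← h0, mul_zero]
  · exact bd_lip hC h0 h i

/-- The linear coordinates as polynomials. -/
noncomputable def lcs : Option (Fin m) → MvPolynomial (Option (Fin m)) ℝ
  | none => X none
  | some k => ∑ j, C (Cr.L v (Pi.single j 1) k) * X (some j)

/-- The values of the linear coordinates. -/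
noncomputable def lcv (b : Option (Fin m) → ℝ) : Option (Fin m) → ℝ
  | none => b none
  | some k => Cr.L v (fun j => b (some j)) k

/-- The coordinate `k`, when `q` is the coordinate `k'` as a function of the other linear
coordinates, and `α` is the coefficient of `k` in `k'`. -/
noncomputable def lck (α : ℝ) (k k' : Fin m) (q : MvPolynomial (Option (Fin m)) ℝ) :
    MvPolynomial (Option (Fin m)) ℝ :=
  C α⁻¹ * (aeval (lcs Cr v) q - lcs Cr v (some k') + C α * X (some k))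

variable {Cr v}

theorem eval_lcs (b : Option (Fin m) → ℝ) (o : Option (Fin m)) :
    eval b (lcs Cr v o) = lcv Cr v b o := by
  rcases o with _ | k
  · exact eval_X _
  · unfold lcs lcv
    simp only
    rw [map_sum, L_sum Cr v]
    refine Finset.sum_congr rfl fun j _ => ?_
    rw [map_mul, eval_C, eval_X]
    ring

theorem eval_lck (b : Option (Fin m) → ℝ) (α : ℝ) (k k' : Fin m)
    (q : MvPolynomial (Option (Fin m)) ℝ) :
    eval b (lck Cr v α k k' q) = α⁻¹ * (eval (lcv Cr v b) q -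
      Cr.L v (fun j => b (some j)) k' + α * b (some k)) := by
  have e1 : (fun o => eval b (lcs Cr v o)) = lcv Cr v b := funext fun o => eval_lcs b o
  unfold lck
  rw [map_mul, map_add, map_sub, map_mul, eval_C, eval_C, eval_X, eval_aevalσ, e1, eval_lcs]
  rfl

theorem deg_lcs (o : Option (Fin m)) : (lcs Cr v o).totalDegree ≤ 1 := by
  rcases o with _ | k
  · unfold lcs
    rw [totalDegree_X]
  · unfold lcs
    simp only
    refine totalDegree_finsetSum_le fun j _ => ?_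
    refine (totalDegree_mul _ _).trans ?_
    rw [totalDegree_C, totalDegree_X]

theorem deg_lck {K : ℕ} (hK : 1 ≤ K) (α : ℝ) (k k' : Fin m) {q : MvPolynomial (Option (Fin m)) ℝ}
    (hq : q.totalDegree ≤ K) : (lck Cr v α k k' q).totalDegree ≤ K := by
  have h1 : (aeval (lcs Cr v) q).totalDegree ≤ K := by
    have := totalDegree_aevalσ (g := lcs Cr v) (fun o => deg_lcs o) hq
    omega
  unfold lck
  refine (totalDegree_mul _ _).trans ?_
  rw [totalDegree_C, zero_add]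
  refine (totalDegree_add _ _).trans (max_le ((totalDegree_sub _ _).trans
    (max_le h1 ((deg_lcs _).trans hK))) ?_)
  refine (totalDegree_mul _ _).trans ?_
  rw [totalDegree_C, totalDegree_X]
  omega

end

/-- The cells of the velocities are bounded. -/
theorem bd_bvl {F : Fam m J} {Cr : Crd m V} {c : ℝ} (hC : Cr.Bd 0 c) (g : F.Ω → V) (ω : F.Ω)
    (k : Fin m) : |(F.bvl Cr g ω k : ℝ)| ≤ c + 1 := by
  have h0 := Box.L_zero Cr (g ω) k
  have h1 := bd_lip0 hC (v := g ω) (x := F.d ω) (y := fun _ => 0) zero_le_one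
    (fun j => by rw [sub_zero]; exact F.dir ω j) k
  rw [h0, sub_zero, mul_one, abs_le] at h1
  have h2 := Int.floor_le ((2 : ℝ) ^ 0 * Cr.L (g ω) (F.d ω) k)
  have h3 := Int.lt_floor_add_one ((2 : ℝ) ^ 0 * Cr.L (g ω) (F.d ω) k)
  rw [pow_zero, one_mul] at h2 h3
  have e1 : F.bvl Cr g ω k = ⌊Cr.L (g ω) (F.d ω) k⌋ := by
    change ⌊(2 : ℝ) ^ 0 * Cr.L (g ω) (F.d ω) k⌋ = _
    rw [pow_zero, one_mul]
  rw [e1, abs_le]
  constructor <;> linarith [h1.1, h1.2]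

/-- **The slots**: the linear coordinates `e j`, `j` in `I'`, are functions of the coordinates in
`I`, and the linear coordinate `e i` is a multiple of the coordinate `k` and a function of the
coordinates in `I`. -/
structure Slot (Cr : Crd m V) (e : Fin n → Fin m) (I' : Finset (Fin n)) (i : Fin n)
    (I : Finset (Fin m)) (k : Fin m) (α : V → ℝ) : Prop where
  dep : ∀ j ∈ I', ∀ v x y, (∀ k' ∈ I, x k' = y k') → Cr.L v x (e j) = Cr.L v y (e j)
  top : ∀ v x y, (∀ k' ∈ I, x k' = y k') → Cr.L v x (e i) - α v * x k =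
    Cr.L v y (e i) - α v * y k

/-- The position: the value of the substituted label near the point. -/
theorem lbg_pos {F : Fam m J} {w J' P₁ : ℕ} (hJ : w + J' = J) (hP : P₁ ≤ J') {R : ℝ} (hR : 0 ≤ R)
    {Cr : Crd m V} {c : ℝ} (hc : 0 ≤ c) (hC : Cr.Bd 0 c) {g : F.Ω → V} {ω : F.Ω} {e : Fin n → Fin m}
    {i : Fin n} {k : Fin m} {G : MvPolynomial (Option (Fin n)) ℝ} {zb : Option (Fin n) → ℝ}
    (hx : ∀ k, |zb (some k) - (2 ^ w * Cr.L (g ω) (F.x ω) (e k) -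
      F.bcl w Cr g ω (e k) - tb F w ω * F.bvl Cr g ω (e k))| ≤ 3 / 2 ^ J')
    (ht : |zb none - tb F w ω| ≤ 1 / 2 ^ J')
    (hG : ∀ b' : Option (Fin n) → ℝ, (∀ o, |b' o - zb o| ≤ ((2 * c + 1) * R + 3) / 2 ^ J') →
      |zb (some i) - eval b' G| ≤ 1 / 2 ^ P₁)
    {b : Option (Fin m) → ℝ} (hb : ∀ o, |b o - bt F ω o| ≤ R / 2 ^ J) {μ : ℕ} {α : ℝ}
    (hαc : |α| ≤ c) (hα : 1 / 2 ^ μ ≤ |α|) :
    |F.x ω k - eval b (lck Cr (g ω) α k (e i)
      (qs w (F.T1 w ω) (fun i => F.bcl w Cr g ω i)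
        (fun i => F.bvl Cr g ω i) e (fun _ => G) i))| ≤
      2 ^ μ * (((3 * c + 1) * R + 4) / 2 ^ (w + P₁)) := by
  classical
  have pw : (0 : ℝ) < 2 ^ w := by positivity
  have pP : (0 : ℝ) < 2 ^ P₁ := by positivity
  have pJ : (0 : ℝ) < 2 ^ J' := by positivity
  have hv : ∀ k, |(F.bvl Cr g ω k : ℝ)| ≤ c + 1 := bd_bvl hC g ω
  have hRJ : 2 ^ w * (R / 2 ^ J) = R / 2 ^ J' := by
    rw [← hJ, pow_add]
    field_simp
  have hRJ0 : 0 ≤ R / 2 ^ J := by positivity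
  have htb : 2 ^ w * bt F ω none - (F.T1 w ω : ℝ) = tb F w ω := rfl
  -- the linear coordinates of the new point
  obtain ⟨y, hy⟩ : ∃ y, y = lcv Cr (g ω) b := ⟨_, rfl⟩
  have y0 : y none = b none := by rw [hy]; rfl
  have yL : ∀ k, y (some k) = Cr.L (g ω) (fun j => b (some j)) k := by
    intro k
    rw [hy]
    rfl
  have yc : ∀ k, |Cr.L (g ω) (fun j => b (some j)) k - Cr.L (g ω) (F.x ω) k| ≤ c * (R / 2 ^ J) :=
    fun k => bd_lip0 hC (v := g ω) (x := fun j => b (some j)) (y := F.x ω) hRJ0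
      (fun j => hb (some j)) k
  have yd : ∀ k, |2 ^ w * (y (some k) - Cr.L (g ω) (F.x ω) k)| ≤ c * (R / 2 ^ J') := by
    intro k
    rw [abs_mul, abs_of_pos pw, yL, ← hRJ]
    have h2 := mul_le_mul_of_nonneg_left (yc k) pw.le
    linarith
  -- the time
  have hn : |2 ^ w * y none - (F.T1 w ω : ℝ) - tb F w ω| ≤ R / 2 ^ J' := by
    have e1 : 2 ^ w * y none - (F.T1 w ω : ℝ) - tb F w ω = 2 ^ w * (b none - bt F ω none) := by
      rw [← htb, y0]
      ring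
    rw [e1, abs_mul, abs_of_pos pw, ← hRJ]
    exact mul_le_mul_of_nonneg_left (hb none) pw.le
  have hvn : ∀ k, |(F.bvl Cr g ω k : ℝ) * (2 ^ w * y none - (F.T1 w ω : ℝ) - tb F w ω)| ≤
      (c + 1) * (R / 2 ^ J') := by
    intro k
    rw [abs_mul]
    exact mul_le_mul (hv k) hn (abs_nonneg _) (by linarith)
  have e0' : 0 ≤ R / 2 ^ J' := by positivity
  -- the new point
  have hS : ∀ o, |eval y (sb w (F.T1 w ω : ℝ) (fun i => (F.bcl w Cr g ω i : ℝ))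
      (fun i => (F.bvl Cr g ω i : ℝ)) e o) - zb o| ≤ ((2 * c + 1) * R + 3) / 2 ^ J' := by
    intro o
    have e0 : ((2 * c + 1) * R + 3) / 2 ^ J' = (2 * c + 1) * (R / 2 ^ J') + 3 / 2 ^ J' := by ring
    have e0'' : (1 : ℝ) / 2 ^ J' ≤ 3 / 2 ^ J' := div_le_div_of_nonneg_right (by norm_num) pJ.le
    have e0c : 0 ≤ c * (R / 2 ^ J') := by positivity
    rcases o with _ | k
    · rw [eval_sb_none]
      have e1 : 2 ^ w * y none - (F.T1 w ω : ℝ) - zb none =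
          (2 ^ w * y none - (F.T1 w ω : ℝ) - tb F w ω) - (zb none - tb F w ω) := by ring
      rw [e1]
      refine (abs_sub _ _).trans ((add_le_add hn ht).trans ?_)
      rw [e0]
      linarith
    · rw [eval_sb_some]
      have h1 := yd (e k)
      have h3 := hx k
      have h2' := hvn (e k)
      have e1 : 2 ^ w * y (some (e k)) - (F.bcl w Cr g ω (e k) : ℝ) -
          (F.bvl Cr g ω (e k) : ℝ) * (2 ^ w * y none - (F.T1 w ω : ℝ)) - zb (some k) =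
          2 ^ w * (y (some (e k)) - Cr.L (g ω) (F.x ω) (e k)) -
          (F.bvl Cr g ω (e k) : ℝ) * (2 ^ w * y none - (F.T1 w ω : ℝ) - tb F w ω) -
          (zb (some k) - (2 ^ w * Cr.L (g ω) (F.x ω) (e k) - F.bcl w Cr g ω (e k) -
            tb F w ω * F.bvl Cr g ω (e k))) := by ring
      rw [e1]
      refine (abs_sub _ _).trans ((add_le_add ((abs_sub _ _).trans (add_le_add h1 h2')) h3).trans
        (le_of_eq ?_))
      rw [e0]
      ring
  have h1 := hG _ hS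
  have h3 := hx i
  have h2 := hvn (e i)
  -- the linear coordinate
  obtain ⟨q, hq⟩ : ∃ q, q = eval y (qs w (F.T1 w ω) (fun i => F.bcl w Cr g ω i)
    (fun i => F.bvl Cr g ω i) e (fun _ => G) i) := ⟨_, rfl⟩
  have hL : |Cr.L (g ω) (F.x ω) (e i) - q| ≤ ((c + 1) * R + 4) / 2 ^ (w + P₁) := by
    have e1 : Cr.L (g ω) (F.x ω) (e i) - q = 1 / 2 ^ w *
        ((zb (some i) - eval (fun o => eval y (sb w (F.T1 w ω : ℝ)
          (fun i => (F.bcl w Cr g ω i : ℝ)) (fun i => (F.bvl Cr g ω i : ℝ)) e o)) G) -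
          (zb (some i) - (2 ^ w * Cr.L (g ω) (F.x ω) (e i) - F.bcl w Cr g ω (e i) -
            tb F w ω * F.bvl Cr g ω (e i))) -
          (F.bvl Cr g ω (e i) : ℝ) * (2 ^ w * y none - (F.T1 w ω : ℝ) - tb F w ω)) := by
      rw [hq, eval_qs]
      field_simp
      ring
    rw [e1, abs_mul, abs_of_pos (by positivity : (0 : ℝ) < 1 / 2 ^ w)]
    have h5' : (1 : ℝ) / 2 ^ J' ≤ 1 / 2 ^ P₁ := inv_mono hP
    have h6 : (1 : ℝ) / 2 ^ P₁ + 3 / 2 ^ J' + (c + 1) * (R / 2 ^ J') ≤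
        ((c + 1) * R + 4) * (1 / 2 ^ P₁) := by
      have e2 : (1 : ℝ) / 2 ^ P₁ + 3 / 2 ^ J' + (c + 1) * (R / 2 ^ J') =
          1 / 2 ^ P₁ + ((c + 1) * R + 3) * (1 / 2 ^ J') := by ring
      rw [e2]
      have h0 : 0 ≤ (c + 1) * R := by positivity
      have := mul_le_mul_of_nonneg_left h5' (by linarith : 0 ≤ (c + 1) * R + 3)
      linarith
    have h7 : |(zb (some i) - eval (fun o => eval y (sb w (F.T1 w ω : ℝ)
          (fun i => (F.bcl w Cr g ω i : ℝ)) (fun i => (F.bvl Cr g ω i : ℝ)) e o)) G) -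
          (zb (some i) - (2 ^ w * Cr.L (g ω) (F.x ω) (e i) - F.bcl w Cr g ω (e i) -
            tb F w ω * F.bvl Cr g ω (e i))) -
          (F.bvl Cr g ω (e i) : ℝ) * (2 ^ w * y none - (F.T1 w ω : ℝ) - tb F w ω)| ≤
          1 / 2 ^ P₁ + 3 / 2 ^ J' + (c + 1) * (R / 2 ^ J') :=
      (abs_sub _ _).trans (add_le_add ((abs_sub _ _).trans (add_le_add h1 h3)) h2)
    refine (mul_le_mul_of_nonneg_left (h7.trans h6) (by positivity)).trans (le_of_eq ?_)
    rw [pow_add]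
    field_simp
  rw [eval_lck, ← hy, ← hq]
  have hα0 : 0 < |α| := lt_of_lt_of_le (by positivity) hα
  have hαne : α ≠ 0 := abs_pos.1 hα0
  have hinv : |α⁻¹| ≤ 2 ^ μ := by
    rw [abs_inv]
    have h4 := inv_anti₀ (by positivity : (0 : ℝ) < 1 / 2 ^ μ) hα
    rwa [one_div, inv_inv] at h4
  have e1 : F.x ω k - α⁻¹ * (q - Cr.L (g ω) (fun j => b (some j)) (e i) + α * b (some k)) =
      α⁻¹ * ((Cr.L (g ω) (F.x ω) (e i) - q) +
        (Cr.L (g ω) (fun j => b (some j)) (e i) - Cr.L (g ω) (F.x ω) (e i)) -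
        α * (b (some k) - F.x ω k)) := by
    field_simp
    ring
  rw [e1, abs_mul]
  have hbu : |b (some k) - F.x ω k| ≤ R / 2 ^ J := hb (some k)
  have h8 : R / 2 ^ J ≤ R / 2 ^ (w + P₁) := by
    refine div_le_div_of_nonneg_left hR (by positivity) ?_
    exact pow_le_pow_right₀ one_le_two (by omega)
  have h9 : |α * (b (some k) - F.x ω k)| ≤ c * (R / 2 ^ J) := by
    rw [abs_mul]
    exact mul_le_mul hαc hbu (abs_nonneg _) hc
  have h10 : |(Cr.L (g ω) (F.x ω) (e i) - q) +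
      (Cr.L (g ω) (fun j => b (some j)) (e i) - Cr.L (g ω) (F.x ω) (e i)) -
        α * (b (some k) - F.x ω k)| ≤ ((3 * c + 1) * R + 4) / 2 ^ (w + P₁) := by
    refine (abs_sub _ _).trans ((add_le_add ((abs_add_le _ _).trans (add_le_add hL (yc (e i))))
      h9).trans ?_)
    have h11 := mul_le_mul_of_nonneg_left h8 hc
    have e2 : ((3 * c + 1) * R + 4) / 2 ^ (w + P₁) = ((c + 1) * R + 4) / 2 ^ (w + P₁) +
        c * (R / 2 ^ (w + P₁)) + c * (R / 2 ^ (w + P₁)) := by ring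
    rw [e2]
    linarith
  exact mul_le_mul hinv h10 (abs_nonneg _) (by positivity)

/-- **A stable label of one coordinate of the zoom is a stable label of the family.** -/
theorem lbr_zfc (m n K : ℕ) (c : ℕ) {R : ℝ} (hR : 0 ≤ R) : ∃ (cm : ℝ) (l : ℕ), 0 < cm ∧ ∀ (J : ℕ)
    (F : Fam m J) (w J' : ℕ) (h : w + J' = J) (V : Type) (Cr : Crd m V) (z : PtT F → V)
    (z' : LnT F → V) (e : Fin n → Fin m) (B : F.Ω → Prop), Cr.Bd 0 (c : ℝ) →
    (∀ ω, B ω → z (ptr F J ω) = z' (slam F w ω)) →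
    ∀ (I : Finset (Fin m)) (k : Fin m) (I' : Finset (Fin n)) (i : Fin n) (α : V → ℝ)
      (w₁ P₁ μ : ℕ), w₁ ≤ J' → P₁ ≤ J' →
    LbR ((2 * c + 1) * R + 3) (zfc F w J' h.le Cr (fun ω => z' (slam F w ω)) e) I' i K w₁ P₁ B →
    Slot Cr e I' i I k α → (∀ ω, B ω → |α (z' (slam F w ω))| ≤ c ∧
      1 / 2 ^ μ ≤ |α (z' (slam F w ω))|) →
    l + μ ≤ w + P₁ → ∃ B' : F.Ω → Prop, Sub B' B ∧ cm * Pe F.p B ≤ Pe F.p B' ∧
      LbR R F I k (K + 1) (w + w₁) (w + P₁ - (l + μ)) B' := by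
  classical
  have hc0 : (0 : ℝ) ≤ c := Nat.cast_nonneg c
  obtain ⟨l, hl⟩ := pow_unbounded_of_one_lt ((3 * (c : ℝ) + 1) * R + 4)
    (one_lt_two : (1 : ℝ) < 2)
  obtain ⟨D, hD⟩ : ∃ D : ℝ, D = (6 * (c : ℝ) + 3) ^ m *
    ((4 * (c : ℝ) + 3) ^ m * (2 * (c : ℝ) + 15) ^ n) := ⟨_, rfl⟩
  have hDpos : 0 < D := by rw [hD]; positivity
  refine ⟨1 / D, l, by positivity, ?_⟩
  intro J F w J' h V Cr z z' e B hbd hcls I k I' i α w₁ P₁ μ hw₁ hP hL hsl hα hlP
  obtain ⟨g, hg⟩ : ∃ g : F.Ω → V, g = fun ω => z' (slam F w ω) := ⟨_, rfl⟩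
  rw [← hg] at hL
  obtain ⟨V₂, ζ, ζ', G, hlab⟩ := hL
  obtain ⟨B₂, hB2, hP2, hdet⟩ := ptc_zoom F h hbd g e B (fun ω ω' h1 h2 hpt => by
    rw [hg]
    simp only
    rw [← hcls ω h1, ← hcls ω' h2, hpt])
  rw [← hD] at hP2
  -- the value of the new label
  obtain ⟨w₂, hw₂⟩ : ∃ w₂, w₂ = w + w₁ := ⟨_, rfl⟩
  obtain ⟨Y, hY⟩ : ∃ Y : F.Ω → V₂ × (((ℕ × V) × ((Fin m → ℤ) × (Fin m → ℤ))) × F.ζ),
      Y = fun ω => (ζ' (slam (zfc F w J' h.le Cr g e) w₁ ω), F.blab w Cr g ω) := ⟨_, rfl⟩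
  obtain ⟨y, hy⟩ := fac (f := ptr F J) (Y := Y) (B := B₂) (by
    intro ω ω' h1 h2 hpt
    obtain ⟨a1, a2⟩ := hdet ω ω' h1 h2 hpt
    have a3 := hlab.cls ω (hB2 ω h1)
    have a4 := hlab.cls ω' (hB2 ω' h2)
    rw [hY]
    exact Prod.ext (a3.symm.trans ((congrArg ζ (a2 J' le_rfl)).trans a4)) a1)
  obtain ⟨y', hy'⟩ := fac (f := slam F w₂) (Y := Y) (B := B₂) (by
    intro ω ω' h1 h2 hsl'
    obtain ⟨a1, a2⟩ := Prod.ext_iff.1 hsl'
    obtain ⟨a3, a4⟩ := Prod.ext_iff.1 a2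
    have b1 : F.l ω = F.l ω' := a1
    have b2 : F.Z ω = F.Z ω' := a3
    have b3 : F.T1 w₂ ω = F.T1 w₂ ω' := a4
    rw [hw₂] at b3
    have b5 : F.T1 w ω = F.T1 w ω' := by
      rw [T1_div F (w := w) (K := w₁) (by omega) ω, T1_div F (w := w) (K := w₁) (by omega) ω', b3]
    have b6 : slam F w ω = slam F w ω' := Prod.ext b1 (Prod.ext b2 b5)
    have b7 : g ω = g ω' := by
      rw [hg]
      simp only
      rw [b6]
    obtain ⟨d1, d2, -⟩ := zfc_det F h.le Cr g e (v := w₁) (by omega) b1 b3 b7 b2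
    rw [hY]
    exact Prod.ext (congrArg ζ' d1) d2)
  -- the new polynomials
  obtain ⟨G', hG'⟩ : ∃ G' : Option (V₂ × (((ℕ × V) × ((Fin m → ℤ) × (Fin m → ℤ))) × F.ζ)) →
      MvPolynomial (Option (Fin m)) ℝ, G' = fun o => match o with
      | none => 0
      | some v => lck Cr v.2.1.1.2 (α v.2.1.1.2) k (e i)
          (qs w (v.2.1.1.1 : ℝ) (fun i => (v.2.1.2.1 i : ℝ))
          (fun i => (v.2.1.2.2 i : ℝ)) e (fun _ => G v.1) i) := ⟨_, rfl⟩
  have hG'Y : ∀ ω, G' (some (Y ω)) = lck Cr (g ω) (α (g ω)) k (e i)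
      (qs w (F.T1 w ω : ℝ) (fun i => (F.bcl w Cr g ω i : ℝ))
      (fun i => (F.bvl Cr g ω i : ℝ)) e
      (fun _ => G (ζ' (slam (zfc F w J' h.le Cr g e) w₁ ω))) i) := by
    intro ω
    rw [hG', hY]
    rfl
  refine ⟨B₂, hB2, ?_, _, y, y', G', ?_, ?_, ?_, ?_⟩
  · rw [div_mul_eq_mul_div, one_mul, div_le_iff₀ hDpos, mul_comm (Pe F.p B₂) D]
    exact hP2
  · intro v
    rw [hG']
    rcases v with _ | v
    · simp only
      rw [totalDegree_zero]
      exact Nat.zero_le _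
    · exact deg_lck (by omega) _ _ _ (deg_qs (hlab.deg _))
  · intro v b b' h0 h1
    rw [hG']
    rcases v with _ | v
    · simp only [map_zero]
    · simp only
      rw [eval_lck, eval_lck]
      have hq : eval (lcv Cr v.2.1.1.2 b)
          (qs w (v.2.1.1.1 : ℝ) (fun i => (v.2.1.2.1 i : ℝ))
            (fun i => (v.2.1.2.2 i : ℝ)) e (fun _ => G v.1) i) =
          eval (lcv Cr v.2.1.1.2 b')
          (qs w (v.2.1.1.1 : ℝ) (fun i => (v.2.1.2.1 i : ℝ))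
            (fun i => (v.2.1.2.2 i : ℝ)) e (fun _ => G v.1) i) := by
        have e0 : lcv Cr v.2.1.1.2 b none = lcv Cr v.2.1.1.2 b' none := h0
        rw [eval_qs, eval_qs, e0]
        congr 3
        refine hlab.dep _ _ _ ?_ fun i' hi' => ?_
        · rw [eval_sb_none, eval_sb_none, e0]
        · have e1 : lcv Cr v.2.1.1.2 b (some (e i')) = lcv Cr v.2.1.1.2 b' (some (e i')) :=
            hsl.dep i' hi' _ _ _ h1
          rw [eval_sb_some, eval_sb_some, e0, e1]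
      have h2 := hsl.top v.2.1.1.2 (fun j => b (some j)) (fun j => b' (some j)) h1
      rw [hq]
      congr 1
      linarith
  · intro ω hω
    rw [hy ω hω, ← hw₂, hy' ω hω]
  · intro ω hω b hb
    rw [← hw₂, hy' ω hω, hG'Y]
    obtain ⟨ha1, ha2⟩ := hα ω (hB2 ω hω)
    have hgω : g ω = z' (slam F w ω) := by rw [hg]
    rw [← hgω] at ha1 ha2
    refine (lbg_pos h hP hR hc0 hbd (g := g)
      (zb := bt (zfc F w J' h.le Cr g e) ω)
      (fun i => zfc_x F h.le Cr g e ω i) (by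
      have h1 := zf_t F h.le (fun _ => ()) e ω
      have e1 : bt (zfc F w J' h.le Cr g e) ω none =
        (zf F w J' h.le (fun _ => ()) e).t ω := rfl
      rw [e1, abs_le]
      have : (0 : ℝ) ≤ 1 / 2 ^ J' := by positivity
      constructor <;> linarith [h1.1, h1.2]) (fun b' hb' => hlab.pos ω (hB2 ω hω) b' hb')
      hb ha1 ha2).trans ?_
    have hpow : (2 : ℝ) ^ (w + P₁) = 2 ^ (w + P₁ - (l + μ)) * (2 ^ l * 2 ^ μ) := by
      rw [← pow_add, ← pow_add]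
      congr 1
      omega
    rw [hpow, mul_div_assoc', div_le_div_iff₀ (by positivity) (by positivity), one_mul]
    have p1 : (0 : ℝ) < 2 ^ (w + P₁ - (l + μ)) := by positivity
    have p2 : (0 : ℝ) < 2 ^ μ := by positivity
    have a1 := mul_le_mul_of_nonneg_left hl.le (mul_pos p1 p2).le
    have e1 : 2 ^ μ * ((3 * (c : ℝ) + 1) * R + 4) * 2 ^ (w + P₁ - (l + μ)) =
        2 ^ (w + P₁ - (l + μ)) * 2 ^ μ * ((3 * (c : ℝ) + 1) * R + 4) := by ring
    have e2 : (2 : ℝ) ^ (w + P₁ - (l + μ)) * (2 ^ l * 2 ^ μ) =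
        2 ^ (w + P₁ - (l + μ)) * 2 ^ μ * 2 ^ l := by ring
    rw [e1, e2]
    exact a1

/-- **The requirement on the closed data.** -/
def SlD (c : ℕ) (w₁ : ℝ) (e : Fin n → Fin m) (I' : Finset (Fin n)) (i : Fin n)
    (I : Finset (Fin m)) (k : Fin m) (ε c₀ : ℝ) : DtP m := fun J F A κ Cr z' =>
  Cr.Bd 0 (c : ℝ) ∧ ∃ (α : κ → ℝ) (μ : ℕ), Slot Cr e I' i I k α ∧ (μ : ℝ) ≤ ε * J + c₀ ∧
    ∀ ω, A ω → |α (z' (slam F ⌊w₁ * J⌋₊ ω))| ≤ c ∧ 1 / 2 ^ μ ≤ |α (z' (slam F ⌊w₁ * J⌋₊ ω))|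

/-- **No stable labels in the zooms** in closed linear coordinates. -/
theorem zpr_nolb {S : PCl m} {R Q Q' w₁ w₂ w' ε : ℝ} (c : ℕ) (hR : 0 ≤ R) (hw0 : 0 < w₁)
    (hw1 : w₁ < 1) (hw'0 : 0 ≤ w') (hw'1 : w' ≤ 1) (hw : w₁ + w' * (1 - w₁) < w₂) (hw2 : w₂ ≤ 1)
    (hQ0 : 0 ≤ Q) (hQ'0 : 0 ≤ Q') (hQ'1 : Q' ≤ 1) (hQ : Q + ε < w₁ + Q' * (1 - w₁))
    (e : Fin n → Fin m) (I' : Finset (Fin n)) (i : Fin n) (I : Finset (Fin m)) (k : Fin m) (K : ℕ)
    {c₀ : ℝ}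
    (habs : Bas S (fun J F A => ¬ LbR R F I k (K + 1) ⌊w₂ * J⌋₊ ⌊Q * J⌋₊ A)) :
    ZPr S w₁ e (SlD c w₁ e I' i I k ε c₀) (fun J' G B' =>
      ¬ LbR ((2 * c + 1) * R + 3) G I' i K ⌊w' * J'⌋₊ ⌊Q' * J'⌋₊ B') := by
  classical
  obtain ⟨cm, l, hcm, hzoom⟩ := lbr_zfc m n K c hR
  obtain ⟨τ₁, hτ₁, J₁, hb⟩ := habs
  obtain ⟨δ, hδ⟩ : ∃ δ, δ = τ₁ / 8 := ⟨_, rfl⟩
  have hδ0 : 0 < δ := by rw [hδ]; linarith
  obtain ⟨J₂, hJ₂⟩ := cst (1 / cm) hδ0
  obtain ⟨J₃, hJ₃⟩ := lin (1 : ℝ) (sub_pos.2 hw)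
  obtain ⟨J₄, hJ₄⟩ := lin ((l : ℝ) + |c₀| + 3) (sub_pos.2 hQ)
  refine ⟨δ / 3, by linarith, δ, hδ0, max J₁ (max J₂ (max J₃ J₄)), ?_⟩
  intro J hJ F B hS κ Cr z z' hcls hd hl J' hJ' B' hB'B hB' hLb
  simp only [ge_iff_le, max_le_iff] at hJ
  obtain ⟨hJ1, hJ2, hJ3, hJ4⟩ := hJ
  replace hJ2 := hJ₂ J hJ2
  replace hJ3 := hJ₃ J hJ3
  replace hJ4 := hJ₄ J hJ4
  obtain ⟨hbd, α, μ, hsl, hμr, hα⟩ := hd
  have hJr : (0 : ℝ) ≤ J := Nat.cast_nonneg J
  obtain ⟨W, hW⟩ : ∃ W, W = ⌊w₁ * (J : ℝ)⌋₊ := ⟨_, rfl⟩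
  have hWr : (W : ℝ) ≤ w₁ * J := by rw [hW]; exact Nat.floor_le (by positivity)
  have hWr' : w₁ * (J : ℝ) < W + 1 := by rw [hW]; exact Nat.lt_floor_add_one _
  have hsum : (W : ℝ) + J' = J := by
    have : W + J' = J := by rw [hW]; exact hJ'
    exact_mod_cast this
  have hJ'0 : (0 : ℝ) ≤ J' := Nat.cast_nonneg J'
  have hw1' : 0 ≤ 1 - w₁ := by linarith
  have hJ'1 : (1 - w₁) * J ≤ (J' : ℝ) := by
    have : (1 - w₁) * (J : ℝ) = J - w₁ * J := by ring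
    linarith
  have hJ'2 : (J' : ℝ) ≤ (1 - w₁) * J + 1 := by
    have : (1 - w₁) * (J : ℝ) = J - w₁ * J := by ring
    linarith
  have f1 : (⌊w' * (J' : ℝ)⌋₊ : ℝ) ≤ w' * J' := Nat.floor_le (by positivity)
  have f4 : Q' * (J' : ℝ) < ⌊Q' * (J' : ℝ)⌋₊ + 1 := Nat.lt_floor_add_one _
  have g1 : w' * (J' : ℝ) ≤ w' * (1 - w₁) * J + 1 := by
    have := mul_le_mul_of_nonneg_left hJ'2 hw'0
    have e2 : w' * ((1 - w₁) * (J : ℝ) + 1) = w' * (1 - w₁) * J + w' := by ring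
    linarith
  have g4 : Q' * (1 - w₁) * J ≤ Q' * (J' : ℝ) := by
    have := mul_le_mul_of_nonneg_left hJ'1 hQ'0
    have e2 : Q' * ((1 - w₁) * (J : ℝ)) = Q' * (1 - w₁) * J := by ring
    linarith
  have hwJ' : ⌊w' * (J' : ℝ)⌋₊ ≤ J' := by
    refine Nat.floor_le_of_le ?_
    have := mul_le_mul_of_nonneg_right hw'1 hJ'0
    linarith
  have hQJ' : ⌊Q' * (J' : ℝ)⌋₊ ≤ J' := by
    refine Nat.floor_le_of_le ?_
    have := mul_le_mul_of_nonneg_right hQ'1 hJ'0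
    linarith
  have hwin : W + ⌊w' * (J' : ℝ)⌋₊ ≤ ⌊w₂ * (J : ℝ)⌋₊ := by
    refine Nat.le_floor ?_
    push_cast
    have e2 : (w₂ - (w₁ + w' * (1 - w₁))) * (J : ℝ) = w₂ * J - w₁ * J - w' * (1 - w₁) * J := by
      ring
    linarith
  have hw2le : ⌊w₂ * (J : ℝ)⌋₊ ≤ J := by
    refine Nat.floor_le_of_le ?_
    have := mul_le_mul_of_nonneg_right hw2 hJr
    linarith
  -- the loss
  have hsl' : (l : ℝ) + μ + Q * J ≤ W + ⌊Q' * (J' : ℝ)⌋₊ := by
    have e2 : (w₁ + Q' * (1 - w₁) - (Q + ε)) * (J : ℝ) =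
        w₁ * J + Q' * (1 - w₁) * J - Q * J - ε * J := by ring
    linarith [le_abs_self c₀]
  have hQJ : 0 ≤ Q * (J : ℝ) := by positivity
  have hlμ : l + μ ≤ W + ⌊Q' * (J' : ℝ)⌋₊ := by
    have : ((l + μ : ℕ) : ℝ) ≤ ((W + ⌊Q' * (J' : ℝ)⌋₊ : ℕ) : ℝ) := by
      push_cast
      linarith
    exact_mod_cast this
  -- the label
  subst hW
  have hLb' : LbR ((2 * c + 1) * R + 3) (zfc F ⌊w₁ * (J : ℝ)⌋₊ J' hJ'.le Cr
      (fun ω => z' (slam F ⌊w₁ * (J : ℝ)⌋₊ ω)) e) I' i K ⌊w' * (J' : ℝ)⌋₊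
      ⌊Q' * (J' : ℝ)⌋₊ B' := by
    obtain ⟨V₂, y, y', G, h⟩ := hLb
    exact ⟨V₂, y, y', G, h.deg, h.dep, fun ω hω => h.cls ω hω, fun ω hω => h.pos ω hω⟩
  obtain ⟨B'', hB'', hPB'', hG⟩ := hzoom J F ⌊w₁ * (J : ℝ)⌋₊ J' hJ' κ Cr z z' e B' hbd
    (fun ω hω => hcls ω (hB'B ω hω)) I k I' i α ⌊w' * (J' : ℝ)⌋₊ ⌊Q' * (J' : ℝ)⌋₊ μ hwJ' hQJ'
    hLb' hsl (fun ω hω => hα ω (hB'B ω hω)) hlμ
  -- the size of the event
  have hBp : 0 ≤ Pe F.p B := Pe_nonneg F.isLaw B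
  have hsz : Real.exp (-(2 * δ * J)) * Pe F.p B ≤ Pe F.p B'' := by
    refine le_trans ?_ hPB''
    have h1 : Real.exp (-(δ * J)) * Pe F.p B ≤ Pe F.p B' := by
      refine le_trans (mul_le_mul_of_nonneg_right (Real.exp_le_exp.2 ?_) hBp) hB'
      have e3 : 3 * (δ / 3) * (J' : ℝ) = δ * J' := by ring
      rw [e3]
      have h2 : (J' : ℝ) ≤ J := by
        have := Nat.cast_nonneg (α := ℝ) ⌊w₁ * (J : ℝ)⌋₊
        linarith
      have := mul_le_mul_of_nonneg_left h2 hδ0.le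
      linarith
    have h3 : Real.exp (-(δ * J)) ≤ cm := by
      rw [one_div] at hJ2
      rw [Real.exp_neg, inv_le_comm₀ (Real.exp_pos _) hcm]
      exact hJ2
    have e1 : Real.exp (-(2 * δ * J)) = Real.exp (-(δ * J)) * Real.exp (-(δ * J)) := by
      rw [← Real.exp_add]
      congr 1
      ring
    rw [e1, mul_assoc]
    exact mul_le_mul h3 h1 (mul_nonneg (Real.exp_pos _).le hBp) hcm.le
  have hSB := S.res (by linarith : 0 ≤ 2 * δ) hS
    (fun ω hω => hB'B ω (hB'' ω hω)) hsz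
  refine hb J hJ1 F _ (S.mono (by linarith) hSB) ?_
  refine LbR.mono hG hwin hw2le ?_
  refine Nat.floor_le_of_le ?_
  rw [Nat.cast_sub hlμ]
  push_cast
  linarith

end Pool.ZLB
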