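import Pool.Agent.H80.ZC.Lbp
import Pool.Agent.H80.ZC.Lbg

/-!
# No stable labels in the zooms of a class, closed linear coordinates

`Pk.phi2_zpr`: (Phi2) as a statement on the zooms under the requirement `Pool.ZLB.SlD`.
-/

set_option autoImplicit false

namespace Pool.PKG

open MeasureTheory Set Filter Topology
open Pool.Agent.H49.Ent Pool.Agent.H32.Dense Pool.STK Pool.KA Pool.KSAT Pool.K2S Pool.PB
open Pool.GEN Pool.S6C Pool.STAT Pool.CHT Pool.GRW Pool.ONE Pool.STA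
open Pool.TOP (LbR)
open Pool.ZCO (ZPr)
open Pool.ZLB (SlD zpr_nolb)

variable {n : ℕ} {hn : 2 ≤ n} {S : PCl n} {P : ℝ → ℝ → ℝ} {r : ℝ → ℝ}
  {P' : ℕ → List (Fin n) × Fin n → ℝ → ℝ → ℝ} {Λ : Finset (Fin n) → Fin n → ℝ → ℝ → ℝ}

/-- **(Phi2) at a good window `w₁` which is a limit of good windows from the right**: no stable
labels of the slot `i` over the slots before it, with a precision above the number of the
coordinate. -/
theorem Pk.phi2_zpr (H : Pk hn S P r P' Λ) (hF : FZX (n - 1)) {o : Od n} {l : ℕ}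
    {w₁ Q' ε : ℝ} (c₀ : ℝ) (hg : w₁ ∈ Gs P r P' Λ o)
    (hR : ∀ δ : ℝ, 0 < δ → ∃ v ∈ Gs P r P' Λ o, w₁ < v ∧ v < w₁ + δ)
    (hQ'0 : 0 ≤ Q') (hQ'1 : Q' ≤ 1) (hε : 0 ≤ ε) (e : Fin n → Fin n) (i : Fin n)
    (hi : (i : ℕ) < n - 1) (hQ : LL hn P P' o (ix l i + 1) w₁ w₁ + ε < w₁ + Q' * (1 - w₁)) :
    ∃ d : ℝ, 0 < d ∧ d ≤ 1 ∧ ∀ K : ℕ, ZPr S w₁ e
      (SlD 2 w₁ e (Finset.univ.filter fun j : Fin n => (j : ℕ) < i) i
        ((Finset.range (ix l i)).image (cc hn o.1.1)) (cc hn o.1.1 (ix l i)) ε c₀)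
      (fun J' G B' => ¬ LbR 8 G (Finset.univ.filter fun j : Fin n => (j : ℕ) < i) i K
        ⌊d * J'⌋₊ ⌊Q' * J'⌋₊ B') := by
  classical
  have hw0 := hg.1.1.1
  have hw1 := hg.1.1.2.1
  have h01 : 0 < 1 - w₁ := by linarith
  obtain ⟨δ, hδ, h1⟩ := H.ll_near hg (ix_le (l := l) hi)
    (e := w₁ + Q' * (1 - w₁) - (LL hn P P' o (ix l i + 1) w₁ w₁ + ε)) (by linarith)
  obtain ⟨v, hv, h2, h3⟩ := hR δ hδ
  have hv0 := hv.1.1.1
  have hv1 := hv.1.1.2.1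
  have h4 := h1 v h2 h3 hv1.le
  obtain ⟨Q, hQd⟩ : ∃ Q, Q = (LL hn P P' o (ix l i + 1) v v + (w₁ + Q' * (1 - w₁) - ε)) / 2 :=
    ⟨_, rfl⟩
  have hLLQ : LL hn P P' o (ix l i + 1) v v < Q := by rw [hQd]; linarith
  have hQQ : Q + ε < w₁ + Q' * (1 - w₁) := by rw [hQd]; linarith
  have hQ1 : Q ≤ 1 := by
    have := mul_le_mul_of_nonneg_right hQ'1 h01.le
    linarith
  have hLL0 : 0 ≤ LL hn P P' o (ix l i + 1) v v := by
    have h1 := ix_le (l := l) hi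
    rcases h1.lt_or_eq with h2 | h2
    · rw [LL_low (by omega) (by omega)]
      exact hv0.le.trans ((H.cht o.2).low _ _ _ hv0.le le_rfl hv1.le)
    · rw [h2, LL_lst]
      exact hv0.le.trans (H.tgs.low () _ _ hv0.le le_rfl hv1.le)
  refine ⟨(v - w₁) / 2, by linarith, by linarith, fun K => ?_⟩
  have h5 : (v - w₁) / 2 * (1 - w₁) ≤ (v - w₁) / 2 * 1 :=
    mul_le_mul_of_nonneg_left (by linarith) (by linarith)
  have h6 := zpr_nolb 2 (R := 1) (by norm_num) hw0 hw1 (w' := (v - w₁) / 2) (by linarith)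
    (by linarith) (w₂ := v) (by linarith) hv1.le (hLL0.trans hLLQ.le) hQ'0 hQ'1 hQQ e
    (Finset.univ.filter fun j : Fin n => (j : ℕ) < i) i
    ((Finset.range (ix l i)).image (cc hn o.1.1)) (cc hn o.1.1 (ix l i)) K (c₀ := c₀)
    (H.nolb hF hv (ix_le hi) hLLQ hQ1 le_rfl (K + 1))
  have e1 : ((2 * ((2 : ℕ) : ℝ) + 1) * 1 + 3) = 8 := by norm_num
  rw [e1] at h6
  exact h6

end Pool.PKG
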