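import Pool.Agent.H80.ZC.Lbs

/-!
# No stable labels in the sheared zooms of a class

`zsh_nolb`: if a class has no stable labels of the coordinate `e i` over the coordinates in `I`
with the precision `Q` at the window `w₂`, then the sheared zooms at the window `w₁ < w₂` have no
stable labels of the coordinate `i` on large events, over coordinates which are functions of the
coordinates in `I`. The form is the hypothesis `hD` of `Pool.ZLC.zsh_clb`.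
-/

set_option autoImplicit false

namespace Pool.ZLB

open Finset Real MvPolynomial
open Pool.Agent.H49.Ent Pool.Agent.H32.Dense Pool.STK Pool.KA Pool.KSAT Pool.K2S Pool.PB Pool.S6C
open Pool.GEN Pool.ZCL Pool.TOP Pool.ZLC

variable {m n : ℕ}

/-- Stable labels do not depend on the law. -/
theorem lbr_law {J : ℕ} {V : Type} {R : ℝ} {F : Fam m J} {B B' : F.Ω → Prop}
    (hl : IsLaw (Pool.Agent.H49.Ent.cond F.p B True)) {w J' : ℕ} {h : w + J' ≤ J} {z' : LnT F → V}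
    {cb : V → Fin m → ℝ} {u : Fin m} {Lt : Finset (Fin m)} {hu : u ∉ Lt} {M : Fin m → ℕ}
    {e : Fin n → Fin m} {I' : Finset (Fin n)} {i : Fin n} {K w₁ P₁ : ℕ}
    (hL : LbR R (zsh (F.res B True hl) w J' h z' cb u Lt hu M e) I' i K w₁ P₁ B') :
    LbR R (zsh F w J' h z' cb u Lt hu M e) I' i K w₁ P₁ B' := by
  obtain ⟨V₂, y, y', G, h⟩ := hL
  exact ⟨V₂, y, y', G, h.deg, h.dep, fun ω hω => h.cls ω hω, fun ω hω => h.pos ω hω⟩

/-- **No stable labels in the sheared zooms.** -/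
theorem zsh_nolb {S : PCl m} {R Q Q' w₁ w₂ w' ε : ℝ} (hR : 0 ≤ R) (hw0 : 0 < w₁)
    (hw1 : w₁ < 1) (hw'0 : 0 ≤ w') (hw'1 : w' ≤ 1) (hw : w₁ + w' * (1 - w₁) < w₂) (hw2 : w₂ ≤ 1)
    (hQ0 : 0 ≤ Q) (hQ'0 : 0 ≤ Q') (hQ'1 : Q' ≤ 1) (hε : 0 ≤ ε)
    (hQ : Q + ε < w₁ + Q' * (1 - w₁))
    (e : Fin n → Fin m) (I' : Finset (Fin n)) (i : Fin n) (I : Finset (Fin m)) (u : Fin m)
    (Lt : Finset (Fin m)) (hu : u ∉ Lt) (hI : ∀ j ∈ I', e j ∈ I)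
    (hIu : (e i ∈ Lt ∨ ∃ j ∈ I', e j ∈ Lt) → u ∈ I) (K : ℕ) {M₀ : ℕ → Fin m → ℕ} {c₀ : ℝ}
    (hM : e i ∈ Lt → ∀ J : ℕ, (M₀ J (e i) : ℝ) ≤ ε * J + c₀)
    (habs : Bas S (fun J F A => ¬ LbR R F I (e i) (K + 1) ⌊w₂ * J⌋₊ ⌊Q * J⌋₊ A)) :
    ∃ ψ : ℝ, 0 < ψ ∧ ∀ K₁ : ℝ, 0 < K₁ → Bas S (fun J F A => ∀ B : F.Ω → Prop, Sub B A →
      Pe F.p A ≤ K₁ * Pe F.p B → ∀ (V : Type) (z : PtT F → V) (z' : LnT F → V)
        (cb : V → Fin m → ℝ), (∀ ω, B ω → z (ptr F J ω) = z' (slam F ⌊w₁ * J⌋₊ ω)) →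
        ∀ (hl : IsLaw (Pool.Agent.H49.Ent.cond F.p B True)) (J' : ℕ) (hJ : ⌊w₁ * J⌋₊ + J' = J)
          (B' : F.Ω → Prop), Sub B' B → Real.exp (-(3 * ψ * J')) * Pe F.p B ≤ Pe F.p B' →
          ¬ LbR (5 * R + 3) (zsh (F.res B True hl) ⌊w₁ * J⌋₊ J' hJ.le z' cb u Lt hu (M₀ J) e)
            I' i K ⌊w' * J'⌋₊ ⌊Q' * J'⌋₊ B') := by
  classical
  obtain ⟨c, l, hc, hzoom⟩ := lbr_zsh m n K hR
  obtain ⟨τ₁, hτ₁, J₁, hb⟩ := habs
  obtain ⟨δ, hδ⟩ : ∃ δ, δ = τ₁ / 8 := ⟨_, rfl⟩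
  have hδ0 : 0 < δ := by rw [hδ]; linarith
  refine ⟨δ / 3, by linarith, fun K₁ hK₁ => ?_⟩
  obtain ⟨J₂, hJ₂⟩ := cst (K₁ / c) hδ0
  obtain ⟨J₃, hJ₃⟩ := lin (1 : ℝ) (sub_pos.2 hw)
  obtain ⟨J₄, hJ₄⟩ := lin ((l : ℝ) + |c₀| + 3) (sub_pos.2 hQ)
  refine ⟨δ, hδ0, max J₁ (max J₂ (max J₃ J₄)), ?_⟩
  intro J hJ F A hS B hBA hPB V z z' cb hcls hl J' hJ' B' hB'B hB' hLb
  simp only [ge_iff_le, max_le_iff] at hJ
  obtain ⟨hJ1, hJ2, hJ3, hJ4⟩ := hJ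
  replace hJ2 := hJ₂ J hJ2
  replace hJ3 := hJ₃ J hJ3
  replace hJ4 := hJ₄ J hJ4
  have hJr : (0 : ℝ) ≤ J := Nat.cast_nonneg J
  obtain ⟨W, hW⟩ : ∃ W, W = ⌊w₁ * (J : ℝ)⌋₊ := ⟨_, rfl⟩
  have hWr : (W : ℝ) ≤ w₁ * J := by rw [hW]; exact Nat.floor_le (by positivity)
  have hWr' : w₁ * (J : ℝ) < W + 1 := by rw [hW]; exact Nat.lt_floor_add_one _
  have hsum : (W : ℝ) + J' = J := by
    have : W + J' = J := by rw [hW]; exact hJ'
    exact_mod_cast this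
  have hJ'0 : (0 : ℝ) ≤ J' := Nat.cast_nonneg J'
  have hw1' : 0 ≤ 1 - w₁ := by linarith
  have hJ'1 : (1 - w₁) * J ≤ (J' : ℝ) := by
    have : (1 - w₁) * (J : ℝ) = J - w₁ * J := by ring
    linarith
  have hJ'2 : (J' : ℝ) ≤ (1 - w₁) * J + 1 := by
    have : (1 - w₁) * (J : ℝ) = J - w₁ * J := by ring
    linarith
  have f1 : (⌊w' * (J' : ℝ)⌋₊ : ℝ) ≤ w' * J' := Nat.floor_le (by positivity)
  have f4 : Q' * (J' : ℝ) < ⌊Q' * (J' : ℝ)⌋₊ + 1 := Nat.lt_floor_add_one _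
  have g1 : w' * (J' : ℝ) ≤ w' * (1 - w₁) * J + 1 := by
    have := mul_le_mul_of_nonneg_left hJ'2 hw'0
    have e2 : w' * ((1 - w₁) * (J : ℝ) + 1) = w' * (1 - w₁) * J + w' := by ring
    linarith
  have g4 : Q' * (1 - w₁) * J ≤ Q' * (J' : ℝ) := by
    have := mul_le_mul_of_nonneg_left hJ'1 hQ'0
    have e2 : Q' * ((1 - w₁) * (J : ℝ)) = Q' * (1 - w₁) * J := by ring
    linarith
  have hwJ' : ⌊w' * (J' : ℝ)⌋₊ ≤ J' := by
    refine Nat.floor_le_of_le ?_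
    have := mul_le_mul_of_nonneg_right hw'1 hJ'0
    linarith
  have hQJ' : ⌊Q' * (J' : ℝ)⌋₊ ≤ J' := by
    refine Nat.floor_le_of_le ?_
    have := mul_le_mul_of_nonneg_right hQ'1 hJ'0
    linarith
  have hwin : W + ⌊w' * (J' : ℝ)⌋₊ ≤ ⌊w₂ * (J : ℝ)⌋₊ := by
    refine Nat.le_floor ?_
    push_cast
    have e2 : (w₂ - (w₁ + w' * (1 - w₁))) * (J : ℝ) = w₂ * J - w₁ * J - w' * (1 - w₁) * J := by
      ring
    linarith
  have hw2le : ⌊w₂ * (J : ℝ)⌋₊ ≤ J := by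
    refine Nat.floor_le_of_le ?_
    have := mul_le_mul_of_nonneg_right hw2 hJr
    linarith
  -- the loss
  obtain ⟨μ, hμ, hμr⟩ : ∃ μ : ℕ, (e i ∈ Lt → M₀ J (e i) ≤ μ) ∧ (μ : ℝ) ≤ ε * J + |c₀| := by
    by_cases hi : e i ∈ Lt
    · exact ⟨M₀ J (e i), fun _ => le_rfl, (hM hi J).trans (by linarith [le_abs_self c₀])⟩
    · refine ⟨0, fun h => absurd h hi, ?_⟩
      rw [Nat.cast_zero]
      positivity
  have hsl : (l : ℝ) + μ + Q * J ≤ W + ⌊Q' * (J' : ℝ)⌋₊ := by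
    have e2 : (w₁ + Q' * (1 - w₁) - (Q + ε)) * (J : ℝ) =
        w₁ * J + Q' * (1 - w₁) * J - Q * J - ε * J := by ring
    linarith
  have hQJ : 0 ≤ Q * (J : ℝ) := by positivity
  have hlμ : l + μ ≤ W + ⌊Q' * (J' : ℝ)⌋₊ := by
    have : ((l + μ : ℕ) : ℝ) ≤ ((W + ⌊Q' * (J' : ℝ)⌋₊ : ℕ) : ℝ) := by
      push_cast
      linarith
    exact_mod_cast this
  -- the label
  subst hW
  obtain ⟨B'', hB'', hPB'', hG⟩ := hzoom J F ⌊w₁ * (J : ℝ)⌋₊ J' hJ' V z z' cb u Lt hu (M₀ J) e B'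
    (fun ω hω => hcls ω (hB'B ω hω)) I I' i ⌊w' * (J' : ℝ)⌋₊ ⌊Q' * (J' : ℝ)⌋₊ μ hwJ' hQJ'
    (lbr_law hl hLb) hI hIu hμ hlμ
  -- the size of the event
  have hA0 : 0 ≤ Pe F.p A := Pe_nonneg F.isLaw A
  have hBp : 0 ≤ Pe F.p B := Pe_nonneg F.isLaw B
  have hsz : Real.exp (-(2 * δ * J)) * Pe F.p A ≤ Pe F.p B'' := by
    refine le_trans ?_ hPB''
    have h1 : Real.exp (-(δ * J)) * Pe F.p B ≤ Pe F.p B' := by
      refine le_trans (mul_le_mul_of_nonneg_right (Real.exp_le_exp.2 ?_) hBp) hB'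
      have e3 : 3 * (δ / 3) * (J' : ℝ) = δ * J' := by ring
      rw [e3]
      have h2 : (J' : ℝ) ≤ J := by
        have := Nat.cast_nonneg (α := ℝ) ⌊w₁ * (J : ℝ)⌋₊
        linarith
      have := mul_le_mul_of_nonneg_left h2 hδ0.le
      linarith
    have h3 : K₁ ≤ c * Real.exp (δ * J) := by
      rw [div_le_iff₀ hc] at hJ2
      linarith
    have h4 : Real.exp (-(δ * J)) * Pe F.p A ≤ c * Pe F.p B := by
      have h5 : Pe F.p A ≤ c * Real.exp (δ * J) * Pe F.p B :=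
        hPB.trans (mul_le_mul_of_nonneg_right h3 hBp)
      have h6 := mul_le_mul_of_nonneg_left h5 (Real.exp_pos (-(δ * J))).le
      have e4 : Real.exp (-(δ * J)) * (c * Real.exp (δ * J) * Pe F.p B) =
          (Real.exp (-(δ * J)) * Real.exp (δ * J)) * (c * Pe F.p B) := by ring
      rw [e4, ← Real.exp_add, neg_add_cancel, Real.exp_zero, one_mul] at h6
      exact h6
    have e1 : Real.exp (-(2 * δ * J)) = Real.exp (-(δ * J)) * Real.exp (-(δ * J)) := by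
      rw [← Real.exp_add]
      congr 1
      ring
    have h7 := mul_le_mul_of_nonneg_left h4 (Real.exp_pos (-(δ * J))).le
    have h8 := mul_le_mul_of_nonneg_left h1 hc.le
    rw [e1]
    have e5 : Real.exp (-(δ * J)) * (c * Pe F.p B) = c * (Real.exp (-(δ * J)) * Pe F.p B) := by ring
    rw [e5] at h7
    rw [mul_assoc]
    exact h7.trans h8
  have hSB := S.res (by linarith : 0 ≤ 2 * δ) hS
    (fun ω hω => hBA ω (hB'B ω (hB'' ω hω))) hsz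
  refine hb J hJ1 F _ (S.mono (by linarith) hSB) ?_
  refine LbR.mono hG hwin hw2le ?_
  refine Nat.floor_le_of_le ?_
  rw [Nat.cast_sub hlμ]
  push_cast
  linarith

end Pool.ZLB
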