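import Pool.Agent.H27.TOP.Stm
import Pool.Agent.H72.EXW.Full

/-!
# Full coordinates have no stable labels

`one_lbr`: the entropy of a coordinate with a stable label. `lbr_nofull`: a coordinate which is full
beyond `x`, given the exact coordinates before it and any closed function, has no stable labels (of
any slope) with a precision above `x`.
-/

set_option autoImplicit false

namespace Pool.ZLB

open Finset Real MvPolynomial
open Pool.Agent.H49.Ent Pool.Agent.H32.Dense Pool.STK Pool.KA Pool.KSAT Pool.K2S Pool.PB Pool.S6C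
open Pool.GEN Pool.TOP Pool.EXW

variable {m J : ℕ}

/-- A stable label determines its coordinate up to few choices. -/
theorem one_lbr {F : Fam m J} {A : F.Ω → Prop} {R : ℝ} (hR : 1 ≤ R) {I : Finset (Fin m)}
    {k : Fin m} {K w P : ℕ} {V : Type} {z : PtT F → V} {z' : LnT F → V}
    {G : V → MvPolynomial (Option (Fin m)) ℝ} (h : LbROK R F I k K w P A z z' G) (hP : P ≤ J)
    {q : F.Ω → ℝ} (hq : IsLaw q) (hqA : ∀ ω, 0 < q ω → A ω)
    {S : Type*} {c : F.Ω → S} (hc : ∀ ω ω', 0 < q ω → 0 < q ω' → c ω = c ω' →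
      (∀ i ∈ I, F.X J ω i = F.X J ω' i) ∧
        z' (slam F w ω) = z' (slam F w ω') ∧ F.T ω = F.T ω') :
    CH q (fun ω => F.X J ω k) c ≤ ((J : ℝ) - P) * Real.log 2 + Real.log 7 := by
  classical
  have hu0 : (0 : ℝ) < 2 ^ J := by positivity
  have hM : ∀ ω ω', 0 < q ω → 0 < q ω' → c ω = c ω' →
      |((F.X J ω k - F.X J ω' k : ℤ) : ℝ)| ≤ 3 * 2 ^ (J - P) := by
    intro ω ω' hω hω' hcc
    obtain ⟨h1, h2, h3⟩ := hc ω ω' hω hω' hcc
    have ht : F.t ω = F.t ω' := by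
      unfold Fam.t
      rw [h3]
    obtain ⟨y, hy⟩ : ∃ y : Option (Fin m) → ℝ, y = fun o => match o with
        | none => F.t ω
        | some i => if i ∈ I then F.x ω' i else F.x ω i := ⟨_, rfl⟩
    have hyn : y none = bt F ω none := by rw [hy]; rfl
    have hyI : ∀ i ∈ I, y (some i) = F.x ω' i := by
      intro i hi
      rw [hy]
      exact if_pos hi
    have hyO : ∀ i ∉ I, y (some i) = F.x ω i := by
      intro i hi
      rw [hy]
      exact if_neg hi
    have hd : ∀ o, |y o - bt F ω o| ≤ R / 2 ^ J := by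
      intro o
      rcases o with - | i
      · rw [hyn, sub_self, abs_zero]
        positivity
      · by_cases hi : i ∈ I
        · rw [hyI i hi]
          change |F.x ω' i - F.x ω i| ≤ _
          have h4 := Int.abs_sub_lt_one_of_floor_eq_floor
            (h1 i hi : ⌊(2 : ℝ) ^ J * F.x ω i⌋ = ⌊(2 : ℝ) ^ J * F.x ω' i⌋)
          rw [← mul_sub, abs_mul, abs_of_pos hu0] at h4
          rw [abs_sub_comm, le_div_iff₀ hu0]
          linarith
        · rw [hyO i hi]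
          change |F.x ω i - F.x ω i| ≤ _
          rw [sub_self, abs_zero]
          positivity
    have h4 : eval (bt F ω') (G (z' (slam F w ω'))) = eval y (G (z' (slam F w ω))) := by
      rw [← h2]
      refine h.dep _ _ _ ?_ fun i hi => ?_
      · rw [hyn]
        exact ht.symm
      · rw [hyI i hi]
        rfl
    have h8 := h.pos ω (hqA ω hω) y hd
    have h9 := h.pos ω' (hqA ω' hω') (bt F ω') fun o => by
      rw [sub_self, abs_zero]
      positivity
    rw [h4] at h9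
    have h10 : |F.x ω k - F.x ω' k| ≤ 2 / 2 ^ P := by
      have e1 : F.x ω k - F.x ω' k = (F.x ω k - eval y (G (z' (slam F w ω)))) -
        (F.x ω' k - eval y (G (z' (slam F w ω)))) := by ring
      rw [e1]
      refine (abs_sub _ _).trans ((add_le_add h8 h9).trans (le_of_eq ?_))
      ring
    have h12 := Pool.EXW.abs_floor_sub ((2 : ℝ) ^ J * F.x ω k) (2 ^ J * F.x ω' k)
    rw [← mul_sub, abs_mul, abs_of_pos hu0] at h12
    have h11 := mul_le_mul_of_nonneg_left h10 hu0.le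
    have e3 : (2 : ℝ) ^ J * (2 / 2 ^ P) = 2 * 2 ^ (J - P) := by
      have e4 : (2 : ℝ) ^ J = 2 ^ (J - P) * 2 ^ P := by
        rw [← pow_add]
        congr 1
        omega
      rw [e4]
      field_simp
    rw [e3] at h11
    have h13 : (1 : ℝ) ≤ 2 ^ (J - P) := one_le_pow₀ (by norm_num)
    change |((⌊(2 : ℝ) ^ J * F.x ω k⌋ - ⌊(2 : ℝ) ^ J * F.x ω' k⌋ : ℤ) : ℝ)| ≤ _
    linarith
  have h1 := CH_le_int hq.nonneg hq.sum_one (fun ω => F.X J ω k) c
    (fun _ => 3 * 2 ^ (J - P)) hM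
  rw [Ex_const hq.sum_one] at h1
  refine h1.trans ?_
  have h2 : 2 * (3 * (2 : ℝ) ^ (J - P)) + 1 ≤ 2 ^ (J - P) * 7 := by
    have : (1 : ℝ) ≤ 2 ^ (J - P) := one_le_pow₀ (by norm_num)
    linarith
  refine (Real.log_le_log (by positivity) h2).trans ?_
  rw [Real.log_mul (by positivity) (by positivity), Real.log_pow]
  have e1 : ((J - P : ℕ) : ℝ) = (J : ℝ) - P := by
    push_cast [Nat.cast_sub hP]
    ring
  rw [e1]

/-- **Full coordinates have no stable labels.** -/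
theorem lbr_nofull {S : PCl m} (hpos : Bas S (fun _ F A => 0 < Pe F.p A)) {c : ℕ → Fin m}
    {i : ℕ} {v x : ℝ} (hfull : ∀ ρ : ℝ, 0 < ρ → Bas S (fun J F A =>
      ∀ (V : Type) (z : PtT F → V) (z' : LnT F → V),
      (∀ ω, A ω → z (ptr F J ω) = z' (slam F ⌊v * J⌋₊ ω)) →
      ((1 - x) - ρ) * Real.log 2 * J ≤ CH (Pool.Agent.H49.Ent.cond F.p A True)
        (fun ω => F.X J ω (c i)) (fun ω => ((fun l : Fin i => F.X J ω (c l)),
          z' (slam F ⌊v * J⌋₊ ω), F.W ω))))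
    {R : ℝ} (hR : 1 ≤ R) {Q : ℝ} (hxQ : x < Q) (hQ1 : Q ≤ 1) (K : ℕ) :
    Bas S (fun J F A => ¬ LbR R F ((range i).image c) (c i) K ⌊v * J⌋₊ ⌊Q * J⌋₊ A) := by
  classical
  have hl0 : 0 < Real.log 2 := Real.log_pos one_lt_two
  obtain ⟨ρ, hρ⟩ : ∃ ρ, ρ = (Q - x) / 2 := ⟨_, rfl⟩
  have hρ0 : 0 < ρ := by rw [hρ]; linarith
  obtain ⟨J₁, hJ₁⟩ := exists_nat_gt ((Real.log 2 + Real.log 7) / (ρ * Real.log 2))
  refine Bas.mono J₁ ((hfull ρ hρ0).and hpos) ?_
  rintro J hJ F A ⟨h1, hA⟩ ⟨V, z, z', G, hG⟩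
  have hq := isLaw_cond F.isLaw hA
  have hqA : ∀ ω, 0 < Pool.Agent.H49.Ent.cond F.p A True ω → A ω := fun ω hω =>
    of_eq_true ((cond_pos_iff F.isLaw.nonneg A True ω).1 hω).2
  have hJ' : (J₁ : ℝ) ≤ J := by exact_mod_cast hJ
  have hJ0 : (0 : ℝ) ≤ J := Nat.cast_nonneg J
  have hJ2 : (Real.log 2 + Real.log 7) / (ρ * Real.log 2) < J := hJ₁.trans_le hJ'
  rw [div_lt_iff₀ (by positivity)] at hJ2
  have hPJ : ⌊Q * (J : ℝ)⌋₊ ≤ J := Nat.floor_le_of_le (by
    calc Q * (J : ℝ) ≤ 1 * J := mul_le_mul_of_nonneg_right hQ1 hJ0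
      _ = J := one_mul _)
  have h2 := h1 V z z' hG.cls
  have h3 := one_lbr hR hG hPJ hq hqA (c := fun ω => ((fun l : Fin i => F.X J ω (c l)),
    z' (slam F ⌊v * J⌋₊ ω), F.W ω)) (by
      intro ω ω' _ _ hh
      have h4 := Prod.ext_iff.mp hh
      have h5 := Prod.ext_iff.mp h4.2
      refine ⟨fun k hk => ?_, h5.1, congrArg Prod.fst h5.2⟩
      obtain ⟨j, hj, rfl⟩ := mem_image.1 hk
      exact congrFun h4.1 ⟨j, mem_range.1 hj⟩)
  have h4 := h2.trans h3
  have h5 : Q * (J : ℝ) < ⌊Q * (J : ℝ)⌋₊ + 1 := Nat.lt_floor_add_one _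
  have h6 : ((J : ℝ) - ⌊Q * (J : ℝ)⌋₊) * Real.log 2 ≤ (J - Q * J + 1) * Real.log 2 :=
    mul_le_mul_of_nonneg_right (by linarith) hl0.le
  have e1 : (1 - x - ρ) * Real.log 2 * J = (J - Q * J) * Real.log 2 +
      2 * (ρ * Real.log 2 * J) - ρ * Real.log 2 * J := by
    rw [hρ]
    ring
  rw [e1] at h4
  have e2 : (J - Q * J + 1) * Real.log 2 = (J - Q * J) * Real.log 2 + Real.log 2 := by ring
  rw [e2] at h6
  have e3 : (J : ℝ) * (ρ * Real.log 2) = ρ * Real.log 2 * J := by ring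
  rw [e3] at hJ2
  linarith

end Pool.ZLB
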