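import Pool.Agent.H87.GEN.Pkg
import Pool.Agent.H80.ZC.Lbc
import Pool.Agent.H80.ZC.Lbv

/-!
# No stable labels of any slope in a class and in its sheared zooms

`Pk.crd`: at the good windows each coordinate of the order is full beyond its number, given the
exact coordinates before it and any closed function. `Pk.nolb`: hence it has no stable closed
labels over the coordinates before it, of any slope.

`ez hn σ l`: the coordinates of the sheared zoom: the order `cc hn σ` with the coordinate `cc l` at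
the end. `Pk.phi2`: the sheared zooms at the window `w₁` have no stable labels of the `i`-th
coordinate over the coordinates before it, at the window `w'`, with a precision above the number of
the corresponding coordinate at any good window `v > w₁ + w' (1 - w₁)`. `Pk.phi2_ex`: at a small
window, when `w₁` is a limit of good windows from the right (`gs_right`: almost all of them are).
-/

set_option autoImplicit false

namespace Pool.PKG

open MeasureTheory Set Filter Topology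
open Pool.Agent.H49.Ent Pool.Agent.H32.Dense Pool.STK Pool.KA Pool.KSAT Pool.K2S Pool.PB
open Pool.GEN Pool.S6C Pool.STAT Pool.CHT Pool.GRW Pool.ONE Pool.STA
open Pool.LBT (LSys ThrOf)
open Pool.LBN (cof)
open Pool.ALL (RateOf)
open Pool.TOP (LbR lbr_no)
open Pool.ZLC (zsh)

variable {n : ℕ}

/-! ### The order of the sheared zoom -/

/-- **The coordinates of the sheared zoom**: the order, with its `l`-th coordinate at the end. -/
def ez (hn : 2 ≤ n) (σ : Equiv.Perm (Fin (n - 1))) (l : ℕ) (k : Fin n) : Fin n :=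
  if (k : ℕ) < l then cc hn σ k else if (k : ℕ) < n - 1 then cc hn σ (k + 1) else cc hn σ l

/-- The number of the `i`-th coordinate of the zoom in the order. -/
def ix (l i : ℕ) : ℕ := if i < l then i else i + 1

theorem ix_le {l i : ℕ} (hi : i < n - 1) : ix l i ≤ n - 1 := by
  unfold ix
  split_ifs <;> omega

theorem ez_ix (hn : 2 ≤ n) (σ : Equiv.Perm (Fin (n - 1))) (l : ℕ) {k : Fin n}
    (hk : (k : ℕ) < n - 1) : ez hn σ l k = cc hn σ (ix l k) := by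
  unfold ez ix
  split_ifs <;> rfl

theorem ez_lst (hn : 2 ≤ n) (σ : Equiv.Perm (Fin (n - 1))) {l : ℕ} (hl : l ≤ n - 1) :
    ez hn σ l (lst hn) = cc hn σ l := by
  have h1 : ((lst hn : Fin n) : ℕ) = n - 1 := rfl
  unfold ez
  rw [if_neg (by omega), if_neg (by omega)]

theorem ez_zero (hn : 2 ≤ n) (σ : Equiv.Perm (Fin (n - 1))) {l : ℕ} (hl : 1 ≤ l) {k : Fin n}
    (hk : (k : ℕ) = 0) : ez hn σ l k = cc hn σ 0 := by
  unfold ez
  rw [if_pos (by omega), hk]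

theorem ez_inj (hn : 2 ≤ n) (σ : Equiv.Perm (Fin (n - 1))) {l : ℕ} (hl : l ≤ n - 1) :
    Function.Injective (ez hn σ l) := by
  intro a b h
  have ha := a.2
  have hb := b.2
  apply Fin.ext
  unfold ez at h
  split_ifs at h <;> have h1 := cc_inj' hn σ (by omega) (by omega) h <;> omega

section

variable {hn : 2 ≤ n} {S : PCl n} {P : ℝ → ℝ → ℝ} {r : ℝ → ℝ}
  {P' : ℕ → List (Fin n) × Fin n → ℝ → ℝ → ℝ} {Λ : Finset (Fin n) → Fin n → ℝ → ℝ → ℝ}

/-- **Fullness of each coordinate** at the good windows. -/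
theorem Pk.crd (H : Pk hn S P r P' Λ) (hF : FZX (n - 1)) {o : Od n} {g : ℝ}
    (hg : g ∈ Gs P r P' Λ o) {i : ℕ} (hi : i < n - 1) {ρ : ℝ} (hρ : 0 < ρ) :
    Bas S (fun J F A => ∀ (V : Type) (z : PtT F → V) (z' : LnT F → V),
      (∀ ω, A ω → z (ptr F J ω) = z' (slam F ⌊g * J⌋₊ ω)) →
      ((1 - LL hn P P' o (i + 1) g g) - ρ) * Real.log 2 * J ≤
        CH (Pool.Agent.H49.Ent.cond F.p A True) (fun ω => F.X J ω (cc hn o.1.1 i))
          (fun ω => ((fun l : Fin i => F.X J ω (cc hn o.1.1 l)),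
            z' (slam F ⌊g * J⌋₊ ω), F.W ω))) := by
  obtain ⟨al, g₀, s, d, e, K₀, N, hal, hg₀, hC⟩ := H.cl
  have hW := hg.1
  have hg0 := hW.1.1
  have hg1 := hW.1.2.1
  have hcε : ∀ i : Fin (n - 1), cc hn o.1.1 i = bse (o.1.1 i) := fun i => cc_lt hn _ i.2
  have hex : VExa S Λ (fun i => bse (o.1.1 i)) g := by
    intro ρ hρ
    refine vst_exa hF hC.ne (C₀ := 6) (by norm_num) H.tmc H.lam hal hg₀ hC.actm H.pos
      (bse_inj.comp o.1.1.injective) (fun k hk => hC.actb _ ?_) hg0 hg1 hW.1.2.2.1 hW.1.2.2.2 hρ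
    exact o.1.2 k hk
  have h1 := vst_crd H.pos H.lam hcε hg0 hg1 hW.1.2.2.1 hW.1.2.2.2 hex hρ
  have h2 := vst_le_bet (tht_pos o.2) hC.ne H.tmc H.pos H.lam (H.cht o.2)
    (bse_inj.comp o.1.1.injective) hcε hW hex (le_refl i) hi
  have e1 : LL hn P P' o (i + 1) g g =
      P' o.2 ((List.range i).map (cc hn o.1.1), cc hn o.1.1 i) g g := by
    rw [LL_low (by omega) (by omega)]
    rfl
  refine Bas.mono 0 h1 ?_
  intro J _ F A h3 V z z' hz
  refine le_trans ?_ (h3 V z z' hz i hi)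
  have hl0 : 0 < Real.log 2 := Real.log_pos one_lt_two
  refine mul_le_mul_of_nonneg_right (mul_le_mul_of_nonneg_right ?_ hl0.le) (Nat.cast_nonneg J)
  rw [e1]
  have h2' : vs Λ (fun i => bse (o.1.1 i)) g (i + 1) ≤
      P' o.2 ((List.range i).map (cc hn o.1.1), cc hn o.1.1 i) g g := h2
  linarith

/-- **No stable labels** of any slope above the numbers, at the good windows. -/
theorem Pk.nolb (H : Pk hn S P r P' Λ) (hF : FZX (n - 1)) {o : Od n} {g : ℝ}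
    (hg : g ∈ Gs P r P' Λ o) {i : ℕ} (hi : i ≤ n - 1) {Q : ℝ}
    (hQ : LL hn P P' o (i + 1) g g < Q) (hQ1 : Q ≤ 1) {R : ℝ} (hR : 1 ≤ R) (K : ℕ) :
    Bas S (fun J F A => ¬ LbR R F ((Finset.range i).image (cc hn o.1.1)) (cc hn o.1.1 i) K
      ⌊g * J⌋₊ ⌊Q * J⌋₊ A) := by
  rcases hi.lt_or_eq with hi | rfl
  · exact Pool.ZLB.lbr_nofull H.pos (fun ρ hρ => H.crd hF hg hi hρ) hR hQ hQ1 K
  · obtain ⟨hW, -, hcP⟩ := hg
    have hg0 := hW.1.1
    have hg1 := hW.1.2.1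
    rw [LL_lst] at hQ
    have h0 : dgP P g < Q := by rw [dgP_eq P hg0.le hg1.le]; exact hQ
    obtain ⟨δ, hδ, h1⟩ := Metric.continuousAt_iff.1 hcP (Q - dgP P g) (by linarith)
    obtain ⟨a', ha'⟩ : ∃ a', a' = min (g + δ / 2) 1 := ⟨_, rfl⟩
    have h2 : g < a' := by rw [ha']; exact lt_min (by linarith) hg1
    have h3 : a' ≤ 1 := by rw [ha']; exact min_le_right _ _
    have h4 : a' ≤ g + δ / 2 := by rw [ha']; exact min_le_left _ _
    have h5 := @h1 a' (by rw [Real.dist_eq, abs_lt]; constructor <;> linarith)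
    rw [Real.dist_eq, dgP_eq P (hg0.le.trans h2.le) h3] at h5
    have h6 : P a' a' < Q := by linarith [(abs_lt.1 h5).2]
    rw [cc_ge hn _ le_rfl]
    refine lbr_no H.tgs (by linarith) ?_ hg0 h2 h3 h6 hQ1 K
    intro h7
    obtain ⟨j, hj, h8⟩ := Finset.mem_image.1 h7
    exact cc_ne hn _ (Finset.mem_range.1 hj) h8

/-- **No stable labels in the sheared zooms** (Phi2), at any window. -/
theorem Pk.phi2 (H : Pk hn S P r P' Λ) (hF : FZX (n - 1)) {o : Od n} {l : ℕ}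
    {w₁ v w' Q' ε c₀ : ℝ} (hw0 : 0 < w₁) (hw1 : w₁ < 1) (hv : v ∈ Gs P r P' Λ o)
    (hw'0 : 0 ≤ w') (hw'1 : w' ≤ 1) (hw : w₁ + w' * (1 - w₁) < v) (hQ'0 : 0 ≤ Q') (hQ'1 : Q' ≤ 1)
    (hε : 0 ≤ ε) (i : Fin n) (hi : (i : ℕ) < n - 1)
    (hQ : LL hn P P' o (ix l i + 1) v v + ε < w₁ + Q' * (1 - w₁))
    {Lt : Finset (Fin n)} (hu : cc hn o.1.1 l ∉ Lt) (hLt : ∀ j < l, cc hn o.1.1 j ∉ Lt)
    {M₀ : ℕ → Fin n → ℕ} (hM : ez hn o.1.1 l i ∈ Lt → ∀ J : ℕ,
      (M₀ J (ez hn o.1.1 l i) : ℝ) ≤ ε * J + c₀) (K : ℕ) :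
    ∃ ψ : ℝ, 0 < ψ ∧ ∀ K₁ : ℝ, 0 < K₁ → Bas S (fun J F A => ∀ B : F.Ω → Prop, Sub B A →
      Pe F.p A ≤ K₁ * Pe F.p B → ∀ (V : Type) (z : PtT F → V) (z' : LnT F → V)
        (cb : V → Fin n → ℝ), (∀ ω, B ω → z (ptr F J ω) = z' (slam F ⌊w₁ * J⌋₊ ω)) →
        ∀ (hl : IsLaw (Pool.Agent.H49.Ent.cond F.p B True)) (J' : ℕ) (hJ : ⌊w₁ * J⌋₊ + J' = J)
          (B' : F.Ω → Prop), Sub B' B → Real.exp (-(3 * ψ * J')) * Pe F.p B ≤ Pe F.p B' →
          ¬ LbR 8 (zsh (F.res B True hl) ⌊w₁ * J⌋₊ J' hJ.le z' cb (cc hn o.1.1 l) Lt hu (M₀ J)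
            (ez hn o.1.1 l)) (Finset.univ.filter fun j : Fin n => (j : ℕ) < i) i K
            ⌊w' * J'⌋₊ ⌊Q' * J'⌋₊ B') := by
  classical
  have hg0 := hv.1.1.1
  have hg1 := hv.1.1.2.1
  obtain ⟨Q, hQd⟩ : ∃ Q, Q = (LL hn P P' o (ix l i + 1) v v + (w₁ + Q' * (1 - w₁) - ε)) / 2 :=
    ⟨_, rfl⟩
  have hLLQ : LL hn P P' o (ix l i + 1) v v < Q := by rw [hQd]; linarith
  have hQQ : Q + ε < w₁ + Q' * (1 - w₁) := by rw [hQd]; linarith
  have h01 : 0 ≤ 1 - w₁ := by linarith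
  have hQ1 : Q ≤ 1 := by
    have := mul_le_mul_of_nonneg_right hQ'1 h01
    linarith
  have hLL0 : 0 ≤ LL hn P P' o (ix l i + 1) v v := by
    have h1 := ix_le (l := l) hi
    rcases h1.lt_or_eq with h2 | h2
    · rw [LL_low (by omega) (by omega)]
      exact hg0.le.trans ((H.cht o.2).low _ _ _ hg0.le le_rfl hg1.le)
    · rw [h2, LL_lst]
      exact hg0.le.trans (H.tgs.low () _ _ hg0.le le_rfl hg1.le)
  have habs : ∀ K, Bas S (fun J F A => ¬ LbR 1 F ((Finset.range (ix l i)).image (cc hn o.1.1))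
      (ez hn o.1.1 l i) (K + 1) ⌊v * J⌋₊ ⌊Q * J⌋₊ A) := by
    intro K
    rw [ez_ix hn _ l hi]
    exact H.nolb hF hv (ix_le hi) hLLQ hQ1 le_rfl (K + 1)
  have h2 := Pool.ZLB.zsh_nolb (R := 1) (by norm_num) hw0 hw1 hw'0 hw'1 hw hg1.le
    (hLL0.trans hLLQ.le) hQ'0 hQ'1 hε hQQ (ez hn o.1.1 l)
    (Finset.univ.filter fun j : Fin n => (j : ℕ) < i) i
    ((Finset.range (ix l i)).image (cc hn o.1.1)) (cc hn o.1.1 l) Lt hu ?_ ?_ K
    (M₀ := M₀) (c₀ := c₀) hM (habs K)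
  · have e1 : (5 * (1 : ℝ) + 3) = 8 := by norm_num
    rw [e1] at h2
    exact h2
  · intro j hj
    have hji := (Finset.mem_filter.1 hj).2
    rw [ez_ix hn _ l (by omega)]
    refine Finset.mem_image_of_mem _ (Finset.mem_range.2 ?_)
    unfold ix
    split_ifs <;> omega
  · intro h3
    have h4 : l ≤ (i : ℕ) := by
      by_contra hcon
      push Not at hcon
      rcases h3 with h5 | ⟨j, hj, h5⟩
      · rw [ez_ix hn _ l hi] at h5
        refine hLt _ ?_ h5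
        unfold ix
        rw [if_pos hcon]
        exact hcon
      · have hji := (Finset.mem_filter.1 hj).2
        rw [ez_ix hn _ l (by omega)] at h5
        refine hLt _ ?_ h5
        unfold ix
        rw [if_pos (by omega)]
        omega
    refine Finset.mem_image_of_mem _ (Finset.mem_range.2 ?_)
    unfold ix
    rw [if_neg (by omega)]
    omega

/-- The numbers are continuous from the right at the good windows. -/
theorem Pk.ll_near (H : Pk hn S P r P' Λ) {o : Od n} {g : ℝ} (hg : g ∈ Gs P r P' Λ o) {i : ℕ}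
    (hi : i ≤ n - 1) {e : ℝ} (he : 0 < e) : ∃ δ : ℝ, 0 < δ ∧ ∀ v : ℝ, g < v → v < g + δ → v ≤ 1 →
      LL hn P P' o (i + 1) v v < LL hn P P' o (i + 1) g g + e := by
  obtain ⟨hW, -, hcP⟩ := hg
  have hg0 := hW.1.1
  have hg1 := hW.1.2.1
  rcases hi.lt_or_eq with hi | rfl
  · obtain ⟨δ, hδ, h1⟩ := Metric.continuousAt_iff.1
      (hW.2 ((List.range i).map (cc hn o.1.1), cc hn o.1.1 i)) e he
    refine ⟨δ, hδ, fun v h2 h3 h4 => ?_⟩
    have h5 := @h1 v (by rw [Real.dist_eq, abs_lt]; constructor <;> linarith)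
    rw [Real.dist_eq, dg_eq _ _ (hg0.le.trans h2.le) h4, dg_eq _ _ hg0.le hg1.le] at h5
    rw [LL_low (by omega) (by omega)]
    have h6 : P' o.2 ((List.range i).map (cc hn o.1.1), cc hn o.1.1 i) v v <
        P' o.2 ((List.range i).map (cc hn o.1.1), cc hn o.1.1 i) g g + e := by
      linarith [(abs_lt.1 h5).2]
    exact h6
  · obtain ⟨δ, hδ, h1⟩ := Metric.continuousAt_iff.1 hcP e he
    refine ⟨δ, hδ, fun v h2 h3 h4 => ?_⟩
    have h5 := @h1 v (by rw [Real.dist_eq, abs_lt]; constructor <;> linarith)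
    rw [Real.dist_eq, dgP_eq _ (hg0.le.trans h2.le) h4, dgP_eq _ hg0.le hg1.le] at h5
    rw [LL_lst]
    linarith [(abs_lt.1 h5).2]

/-- **No stable labels in the sheared zooms** (Phi2), at a small window. -/
theorem Pk.phi2_ex (H : Pk hn S P r P' Λ) (hF : FZX (n - 1)) {o : Od n} {l : ℕ}
    {w₁ Q' ε c₀ : ℝ} (hg : w₁ ∈ Gs P r P' Λ o)
    (hR : ∀ δ : ℝ, 0 < δ → ∃ v ∈ Gs P r P' Λ o, w₁ < v ∧ v < w₁ + δ)
    (hQ'0 : 0 ≤ Q') (hQ'1 : Q' ≤ 1) (hε : 0 ≤ ε) (i : Fin n) (hi : (i : ℕ) < n - 1)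
    (hQ : LL hn P P' o (ix l i + 1) w₁ w₁ + ε < w₁ + Q' * (1 - w₁))
    {Lt : Finset (Fin n)} (hu : cc hn o.1.1 l ∉ Lt) (hLt : ∀ j < l, cc hn o.1.1 j ∉ Lt)
    {M₀ : ℕ → Fin n → ℕ} (hM : ez hn o.1.1 l i ∈ Lt → ∀ J : ℕ,
      (M₀ J (ez hn o.1.1 l i) : ℝ) ≤ ε * J + c₀) :
    ∃ d : ℝ, 0 < d ∧ d ≤ 1 ∧ ∀ K : ℕ,
    ∃ ψ : ℝ, 0 < ψ ∧ ∀ K₁ : ℝ, 0 < K₁ → Bas S (fun J F A => ∀ B : F.Ω → Prop, Sub B A →
      Pe F.p A ≤ K₁ * Pe F.p B → ∀ (V : Type) (z : PtT F → V) (z' : LnT F → V)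
        (cb : V → Fin n → ℝ), (∀ ω, B ω → z (ptr F J ω) = z' (slam F ⌊w₁ * J⌋₊ ω)) →
        ∀ (hl : IsLaw (Pool.Agent.H49.Ent.cond F.p B True)) (J' : ℕ) (hJ : ⌊w₁ * J⌋₊ + J' = J)
          (B' : F.Ω → Prop), Sub B' B → Real.exp (-(3 * ψ * J')) * Pe F.p B ≤ Pe F.p B' →
          ¬ LbR 8 (zsh (F.res B True hl) ⌊w₁ * J⌋₊ J' hJ.le z' cb (cc hn o.1.1 l) Lt hu (M₀ J)
            (ez hn o.1.1 l)) (Finset.univ.filter fun j : Fin n => (j : ℕ) < i) i K
            ⌊d * J'⌋₊ ⌊Q' * J'⌋₊ B') := by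
  have hw0 := hg.1.1.1
  have hw1 := hg.1.1.2.1
  obtain ⟨δ, hδ, h1⟩ := H.ll_near hg (ix_le (l := l) hi)
    (e := w₁ + Q' * (1 - w₁) - (LL hn P P' o (ix l i + 1) w₁ w₁ + ε)) (by linarith)
  obtain ⟨v, hv, h2, h3⟩ := hR δ hδ
  have hv1 := hv.1.1.2.1
  have h4 := h1 v h2 h3 hv1.le
  have h01 : 0 < 1 - w₁ := by linarith
  refine ⟨(v - w₁) / 2, by linarith, by linarith, fun K => ?_⟩
  refine H.phi2 hF hw0 hw1 hv (by linarith) (by linarith) ?_ hQ'0 hQ'1 hε i hi (by linarith)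
    hu hLt hM K
  have h5 : (v - w₁) / 2 * (1 - w₁) ≤ (v - w₁) / 2 * 1 :=
    mul_le_mul_of_nonneg_left (by linarith) (by linarith)
  linarith

/-- Almost all good windows are limits of good windows from the right. -/
theorem gs_right (o : Od n) : ∀ᵐ w : ℝ, w ∈ Gs P r P' Λ o →
    ∀ δ : ℝ, 0 < δ → ∃ v ∈ Gs P r P' Λ o, w < v ∧ v < w + δ := by
  obtain ⟨G, hG⟩ : ∃ G, G = Gs P r P' Λ o := ⟨_, rfl⟩
  rw [← hG]
  have h1 : {x ∈ G | 𝓝[G ∩ Ioi x] x = ⊥}.Countable := countable_setOfPred_isolated_right_within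
  filter_upwards [Set.Countable.ae_notMem h1 volume] with w hw hwG δ hδ
  by_contra hcon
  push Not at hcon
  refine hw ⟨hwG, ?_⟩
  rw [← Filter.empty_mem_iff_bot, mem_nhdsWithin]
  refine ⟨Iio (w + δ), isOpen_Iio, by simp [hδ], ?_⟩
  rintro x ⟨h2, h3, h4⟩
  exact absurd h2 (not_lt.2 (hcon x h3 h4))

end

end Pool.PKG
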