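import Pool.Agent.H80.ZC.Zfg
import Pool.Agent.H39.GEN.Zfin
import Pool.Agent.H87.GEN.Pkg

/-!
# The theorem on the sheared class

`zcof_fin`: the statements on the zooms (Phi1, Phi2, Psi1, Psi2) in closed linear coordinates, each
under one requirement on the closed data, give 39's inequality for the class of the zooms: the
deficit of the target of the family goes to the rough coordinate.
-/

set_option autoImplicit false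

namespace Pool.ZCO

open MeasureTheory Set Filter Topology
open Finset (range univ)
open Pool.Agent.H49.Ent Pool.Agent.H32.Dense Pool.STK Pool.KA Pool.KSAT Pool.K2S Pool.PB Pool.S6C
open Pool.GEN Pool.ONE Pool.EXW Pool.TOP Pool.ZCL Pool.ZLC Pool.ZFN
open Pool.LBT (ThrOf)
open Pool.ALL (RateOf)
open Pool.PKG (bse)

variable {m n : ℕ}

/-- The first coordinates. -/
theorem image_first {v : ℕ → Fin n} (hv : ∀ i, (h : i < n) → v i = ⟨i, h⟩) {i : ℕ}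
    (hi : i ≤ n) : (range i).image v = Finset.univ.filter fun j : Fin n => (j : ℕ) < i := by
  ext j
  simp only [Finset.mem_image, Finset.mem_range, Finset.mem_filter, Finset.mem_univ, true_and]
  constructor
  · rintro ⟨k, hk, rfl⟩
    rw [hv k (by omega)]
    exact hk
  · intro hj
    exact ⟨j, hj, hv j j.2⟩

/-- **The theorem on the sheared class.** -/
theorem zcof_fin (hn : 2 ≤ n) (hF : FZX 1) (hW : ∀ k, 2 ≤ k → k < n → RW k) {al : ℝ} {g₀ : ℝ → ℝ}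
    (hal : 0 < al) (hg₀ : ∀ ε : ℝ, 0 < ε → 0 < g₀ ε) {N : ℚ → ℚ → ℝ} (hN : ActM N al g₀)
    {S : PCl m} {C₀ : ℝ} (hC₀ : 0 ≤ C₀) (hbs : TmC S C₀) {w₁ : ℝ} (hw0 : 0 < w₁) (hw11 : w₁ < 1)
    {e : Fin n → Fin m} {kap : Fin m} (hk0 : ∀ k : Fin n, (k : ℕ) = 0 → e k = kap)
    (hact : ActB N S kap) {cL : ℝ} {Req : Type*} {R : Req → DtP m} (hD : ZReq S w₁ kap cL R)
    {Q : ℕ → ℝ} (hQ0 : ∀ i, 0 ≤ Q i) {Rr : ℝ} (hRr : 0 ≤ Rr)
    (hΦ₂ : ∀ i : Fin n, 1 ≤ (i : ℕ) → (i : ℕ) < n - 1 → ∀ h : ℝ, 0 < h → Q i + h ≤ 1 →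
      ∃ d : ℝ, 0 < d ∧ ∀ K : ℕ, ∃ r : Req, ZPr S w₁ e (R r) (fun J G B =>
        ¬ LbR Rr G (Finset.univ.filter fun j : Fin n => (j : ℕ) < i) i K ⌊d * J⌋₊
          ⌊(Q i + h) * J⌋₊ B))
    {U : ℝ → ℝ → ℝ} {D σ : ℝ → ℝ} {b₁ : ℝ} (hb₁ : b₁ ≤ 1)
    (hΦ₁ : ∀ a w : ℚ, 0 < w → w ≤ a → (a : ℝ) < b₁ → ∀ (K : ℕ) (h : ℝ), 0 < h →
      ∃ r : Req, ZPr S w₁ e (R r) (fun J G B =>
        ¬ (tgs (lst hn)).T () K ⌊(a : ℝ) * J⌋₊ ⌊(w : ℝ) * J⌋₊ ⌊(U a w + h) * J⌋₊ J G B))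
    (hΨ₁ : ∀ w : ℚ, 0 < w → (w : ℝ) < b₁ → D w ≤ 1 ∧ ∀ h : ℝ, 0 < h → ∃ K : ℕ,
      ∀ τ : ℝ, 0 < τ → ∃ r : Req, ZPr S w₁ e (R r) (fun J G A => ∃ B : G.Ω → Prop, Sub B A ∧
        Real.exp (-(τ * J)) * Pe G.p A ≤ Pe G.p B ∧
        (tgs (lst hn)).T () K ⌊(w : ℝ) * J⌋₊ ⌊(w : ℝ) * J⌋₊ ⌊(D w - h) * J⌋₊ J G B))
    {Qb eb : ℝ} (hQb0 : 0 ≤ Qb) (hQb1 : Qb ≤ 1)
    (hΨ₂ : ∀ h : ℝ, 0 < h → ∃ r : Req, ZPr S w₁ e (R r) (fun J G A =>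
      CH (Pool.Agent.H49.Ent.cond G.p A True)
        (fun ω => (G.X ⌊Qb * J⌋₊ ω (lst hn), fun i : Fin (n - 1) => G.X J ω (bse i))) G.W ≤
        (eb + h) * Real.log 2 * J))
    {E : Set ℝ} {s₀ h₀ : ℝ} (hs : 1 < s₀) (hh₀ : h₀ ≤ 1)
    (hE : ∀ w ∈ E, 0 < w ∧ w < b₁ ∧ s₀ ≤ σ w ∧ RgUp U w (D w) (σ w) ∧
      DgLo (fun _ w => D w) w (D w) (σ w) ∧ 0 < D w ∧ D w < Qb)
    (hM : ∀ (S' : PCl n) (P : ℝ → ℝ → ℝ) (r : ℝ → ℝ), ClX (fun _ => 0) (fun _ => 1) al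
      (fun x => min (g₀ (x / 2)) 1) 2 0 (NZR S kap (al + 1) w₁) S' →
      ThrOf (tgs (lst hn)) S' (fun _ => P) → RateOf S' (lst hn) r → RgFull P r h₀ E) :
    ENNReal.ofReal ((1 - h₀) * s₀) * volume E ≤
      ENNReal.ofReal (eb - (1 + ∑ i ∈ range (n - 2), (1 - Q (i + 1)))) := by
  obtain ⟨S', hS', h2, h1, h3, h4⟩ := zcof_four hC₀ hbs hw0 hw11 (ε := e) hk0
    (show 0 ≤ al + 1 by linarith) hD (l := lst hn) (v := bse) hΦ₂ hb₁ hΦ₁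
    (fun w hw hwb => (hΨ₁ w hw hwb).2) hΨ₂
  obtain ⟨v, hv⟩ : ∃ v : ℕ → Fin n, v = fun i => if h : i < n then ⟨i, h⟩ else lst hn :=
    ⟨_, rfl⟩
  have hvi : ∀ i, (h : i < n) → v i = ⟨i, h⟩ := fun i h => by rw [hv]; exact dif_pos h
  have hlst : ((lst hn : Fin n) : ℕ) = n - 1 := rfl
  refine zfin hn hF hW hal (g₀ := fun x => min (g₀ (x / 2)) 1)
    (fun x hx => lt_min (hg₀ _ (half_pos hx)) one_pos)
    (ActM.real (fun τ J F A hτ hA => (hbs τ J F A hτ hA).1) hal.le hN hact hw0.le hw11)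
    hS' (v := v) ?_ ?_ ?_ hQ0 hRr ?_ hb₁ h1 ?_ hQb0 hQb1 (eb := eb) ?_ hs hh₀ hE ?_
  · rw [hvi 0 (by omega)]
  · intro i hi j hj h
    rw [hvi i (by omega), hvi j (by omega)] at h
    exact Fin.mk.inj h
  · intro i hi h
    rw [hvi i (by omega)] at h
    have := congrArg Fin.val h
    rw [hlst] at this
    change i = n - 1 at this
    omega
  · intro i hi1 hi2 h hh hQh
    have hin : i < n := by omega
    obtain ⟨d, hd, h5⟩ := h2 ⟨i, hin⟩ hi1 hi2 h hh hQh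
    refine ⟨d, hd, fun K => ?_⟩
    rw [image_first hvi (by omega), hvi i hin]
    exact h5 K
  · intro w hw hwb
    exact ⟨(hΨ₁ w hw hwb).1, h3 w hw hwb⟩
  · intro h hh
    refine (h4 h hh).mono 0 fun J _ F A h5 => ?_
    have e1 : (fun ω => (F.X ⌊Qb * (J : ℝ)⌋₊ ω (lst hn), fun l : Fin (n - 1) => F.X J ω (v l))) =
        (fun ω => (F.X ⌊Qb * (J : ℝ)⌋₊ ω (lst hn),
          fun i : Fin (n - 1) => F.X J ω (bse i))) := by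
      funext ω
      refine Prod.ext rfl (funext fun l => ?_)
      change F.X J ω (v l) = F.X J ω (bse l)
      rw [hvi l (by have := l.2; omega)]
      rfl
    rw [e1]
    exact h5
  · intro S₁ P r hC _ hT hr
    exact hM S₁ P r hC hT hr

end Pool.ZCO
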