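import Pool.Agent.H9.ZC.Zpt
import Pool.Agent.H62.TOP.Lbz

/-!
# Stable labels of the sheared zooms

`lbr_zsh`: a stable label of one coordinate of the sheared zoom `Pool.ZLC.zsh` over other
coordinates of the zoom is a stable label of the family over the same coordinates and the
direction `u` of the shear.
-/

set_option autoImplicit false

namespace Pool.ZLB

open Finset Real MvPolynomial
open Pool.Agent.H49.Ent Pool.Agent.H32.Dense Pool.STK Pool.KA Pool.KSAT Pool.K2S Pool.PB Pool.S6C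
open Pool.GEN Pool.ZCL Pool.TOP Pool.ZLC

variable {m n J : ℕ} {V : Type}

section

variable (c : Fin m → ℝ) (u : Fin m) (Lt : Finset (Fin m)) (M : Fin m → ℕ)

/-- The sheared variables. -/
noncomputable def shs : Option (Fin m) → MvPolynomial (Option (Fin m)) ℝ
  | none => X none
  | some k => if k ∈ Lt then C (1 / 2 ^ M k) * (X (some k) - C (c k) * X (some u)) else X (some k)

/-- The coordinate `k`, when `q` is the sheared coordinate as a function of the sheared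
coordinates. -/
noncomputable def shq (k : Fin m) (q : MvPolynomial (Option (Fin m)) ℝ) :
    MvPolynomial (Option (Fin m)) ℝ :=
  if k ∈ Lt then C (2 ^ M k) * aeval (shs c u Lt M) q + C (c k) * X (some u)
  else aeval (shs c u Lt M) q

/-- The values of the sheared variables. -/
noncomputable def shv (b : Option (Fin m) → ℝ) : Option (Fin m) → ℝ
  | none => b none
  | some k => if k ∈ Lt then (b (some k) - c k * b (some u)) / 2 ^ M k else b (some k)

variable {c u Lt M}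

theorem eval_shs (b : Option (Fin m) → ℝ) (o : Option (Fin m)) :
    eval b (shs c u Lt M o) = shv c u Lt M b o := by
  rcases o with _ | k
  · exact eval_X _
  · unfold shs shv
    simp only
    split_ifs
    · rw [map_mul, map_sub, map_mul, eval_C, eval_C, eval_X, eval_X]
      ring
    · exact eval_X _

theorem eval_shq (b : Option (Fin m) → ℝ) (k : Fin m) (q : MvPolynomial (Option (Fin m)) ℝ) :
    eval b (shq c u Lt M k q) =
      if k ∈ Lt then 2 ^ M k * eval (shv c u Lt M b) q + c k * b (some u)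
      else eval (shv c u Lt M b) q := by
  have e1 : (fun o => eval b (shs c u Lt M o)) = shv c u Lt M b := funext fun o => eval_shs b o
  unfold shq
  split_ifs
  · rw [map_add, map_mul, map_mul, eval_C, eval_C, eval_X, eval_aevalσ, e1]
  · rw [eval_aevalσ, e1]

theorem deg_shs (o : Option (Fin m)) : (shs c u Lt M o).totalDegree ≤ 1 := by
  rcases o with _ | k
  · unfold shs
    rw [totalDegree_X]
  · unfold shs
    simp only
    split_ifs
    · refine (totalDegree_mul _ _).trans ?_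
      rw [totalDegree_C, zero_add]
      refine (totalDegree_sub _ _).trans (max_le ?_ ?_)
      · rw [totalDegree_X]
      · refine (totalDegree_mul _ _).trans ?_
        rw [totalDegree_C, totalDegree_X]
    · rw [totalDegree_X]

theorem deg_shq {K : ℕ} (hK : 1 ≤ K) (k : Fin m) {q : MvPolynomial (Option (Fin m)) ℝ}
    (hq : q.totalDegree ≤ K) : (shq c u Lt M k q).totalDegree ≤ K := by
  have h1 : (aeval (shs c u Lt M) q).totalDegree ≤ K := by
    have := totalDegree_aevalσ (g := shs c u Lt M) (fun o => deg_shs o) hq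
    omega
  unfold shq
  split_ifs
  · refine (totalDegree_add _ _).trans (max_le ?_ ?_)
    · refine (totalDegree_mul _ _).trans ?_
      rw [totalDegree_C, zero_add]
      exact h1
    · refine (totalDegree_mul _ _).trans ?_
      rw [totalDegree_C, totalDegree_X]
      omega
  · exact h1

end

/-- The sheared coordinates are Lipschitz functions. -/
theorem shC_lip {cb : V → Fin m → ℝ} {u : Fin m} {Lt : Finset (Fin m)} {hu : u ∉ Lt}
    {M : Fin m → ℕ} (v : V) {x y : Fin m → ℝ} {δ : ℝ} (hδ : 0 ≤ δ)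
    (h : ∀ j, |x j - y j| ≤ δ) (k : Fin m) :
    |(shC cb u Lt hu M).L v x k - (shC cb u Lt hu M).L v y k| ≤ 2 * δ := by
  have p1 : (1 : ℝ) ≤ 2 ^ M k := one_le_pow₀ one_le_two
  by_cases hk : k ∈ Lt
  · rw [shC_mem hk, shC_mem hk]
    have e1 : (x k - clp (M k) (cb v k) * x u) / 2 ^ M k -
        (y k - clp (M k) (cb v k) * y u) / 2 ^ M k =
        ((x k - y k) - clp (M k) (cb v k) * (x u - y u)) / 2 ^ M k := by ring
    rw [e1, abs_div, abs_of_pos (by positivity : (0 : ℝ) < 2 ^ M k), div_le_iff₀ (by positivity)]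
    refine (abs_sub _ _).trans ?_
    rw [abs_mul]
    have h1 := h k
    have h2 := mul_le_mul (clp_le (M k) (cb v k)) (h u) (abs_nonneg _) (by positivity)
    have h3 := mul_le_mul_of_nonneg_left p1 hδ
    linarith
  · rw [shC_not hk, shC_not hk]
    exact (h k).trans (by linarith)

/-- The cells of the velocities are bounded. -/
theorem shC_bvl {F : Fam m J} {cb : V → Fin m → ℝ} {u : Fin m} {Lt : Finset (Fin m)} {hu : u ∉ Lt}
    {M : Fin m → ℕ} (g : F.Ω → V) (ω : F.Ω) (k : Fin m) :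
    |(F.bvl (shC cb u Lt hu M) g ω k : ℝ)| ≤ 3 := by
  have h0 : (shC cb u Lt hu M).L (g ω) (fun _ => 0) k = 0 := by
    by_cases hk : k ∈ Lt
    · rw [shC_mem hk]
      simp
    · rw [shC_not hk]
  have h1 := shC_lip (cb := cb) (hu := hu) (M := M) (g ω) (x := F.d ω) (y := fun _ => 0) zero_le_one
    (fun j => by rw [sub_zero]; exact F.dir ω j) k
  rw [h0, sub_zero, mul_one, abs_le] at h1
  have h2 := Int.floor_le ((2 : ℝ) ^ 0 * (shC cb u Lt hu M).L (g ω) (F.d ω) k)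
  have h3 := Int.lt_floor_add_one ((2 : ℝ) ^ 0 * (shC cb u Lt hu M).L (g ω) (F.d ω) k)
  rw [pow_zero, one_mul] at h2 h3
  have e1 : F.bvl (shC cb u Lt hu M) g ω k = ⌊(shC cb u Lt hu M).L (g ω) (F.d ω) k⌋ := by
    change ⌊(2 : ℝ) ^ 0 * (shC cb u Lt hu M).L (g ω) (F.d ω) k⌋ = _
    rw [pow_zero, one_mul]
  rw [e1, abs_le]
  constructor <;> linarith [h1.1, h1.2]

/-- The position: the value of the substituted label near the point. -/
theorem lbs_pos {F : Fam m J} {w J' P₁ : ℕ} (hJ : w + J' = J) (hP : P₁ ≤ J') {R : ℝ} (hR : 0 ≤ R)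
    {cb : V → Fin m → ℝ} {u : Fin m} {Lt : Finset (Fin m)} {hu : u ∉ Lt}
    {M : Fin m → ℕ} {g : F.Ω → V} {ω : F.Ω} {e : Fin n → Fin m} {i : Fin n}
    {G : MvPolynomial (Option (Fin n)) ℝ} {zb : Option (Fin n) → ℝ}
    (hx : ∀ k, |zb (some k) - (2 ^ w * (shC cb u Lt hu M).L (g ω) (F.x ω) (e k) -
      F.bcl w (shC cb u Lt hu M) g ω (e k) - tb F w ω * F.bvl (shC cb u Lt hu M) g ω (e k))| ≤
      3 / 2 ^ J')
    (ht : |zb none - tb F w ω| ≤ 1 / 2 ^ J')
    (hG : ∀ b' : Option (Fin n) → ℝ, (∀ o, |b' o - zb o| ≤ (5 * R + 3) / 2 ^ J') →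
      |zb (some i) - eval b' G| ≤ 1 / 2 ^ P₁)
    {b : Option (Fin m) → ℝ} (hb : ∀ o, |b o - bt F ω o| ≤ R / 2 ^ J) {μ : ℕ}
    (hμ : e i ∈ Lt → M (e i) ≤ μ) :
    |F.x ω (e i) - eval b (shq (fun k => clp (M k) (cb (g ω) k)) u Lt M (e i)
      (qs w (F.T1 w ω) (fun i => F.bcl w (shC cb u Lt hu M) g ω i)
        (fun i => F.bvl (shC cb u Lt hu M) g ω i) e (fun _ => G) i))| ≤
      2 ^ μ * ((4 * R + 4) / 2 ^ (w + P₁)) := by
  classical
  obtain ⟨Cc, hCc⟩ : ∃ Cc, Cc = shC cb u Lt hu M := ⟨_, rfl⟩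
  obtain ⟨cc, hcc⟩ : ∃ cc : Fin m → ℝ, cc = fun k => clp (M k) (cb (g ω) k) := ⟨_, rfl⟩
  have pw : (0 : ℝ) < 2 ^ w := by positivity
  have pP : (0 : ℝ) < 2 ^ P₁ := by positivity
  have pJ : (0 : ℝ) < 2 ^ J' := by positivity
  have pμ : (1 : ℝ) ≤ 2 ^ μ := one_le_pow₀ one_le_two
  have hv : ∀ k, |(F.bvl Cc g ω k : ℝ)| ≤ 3 := by
    intro k
    rw [hCc]
    exact shC_bvl g ω k
  have hRJ : 2 ^ w * (R / 2 ^ J) = R / 2 ^ J' := by
    rw [← hJ, pow_add]
    field_simp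
  have hRJ0 : 0 ≤ R / 2 ^ J := by positivity
  have htb : 2 ^ w * bt F ω none - (F.T1 w ω : ℝ) = tb F w ω := rfl
  -- the linear coordinates of the new point
  obtain ⟨y, hy⟩ : ∃ y, y = shv cc u Lt M b := ⟨_, rfl⟩
  have y0 : y none = b none := by rw [hy]; rfl
  have yL : ∀ k, y (some k) = Cc.L (g ω) (fun j => b (some j)) k := by
    intro k
    rw [hy, hCc, hcc]
    rfl
  have yd : ∀ k, |2 ^ w * (y (some k) - Cc.L (g ω) (F.x ω) k)| ≤ 2 * (R / 2 ^ J') := by
    intro k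
    have h1 := shC_lip (cb := cb) (hu := hu) (M := M) (g ω) (x := fun j => b (some j))
      (y := F.x ω) hRJ0 (fun j => hb (some j)) k
    rw [← hCc] at h1
    rw [abs_mul, abs_of_pos pw, yL, ← hRJ]
    have h2 := mul_le_mul_of_nonneg_left h1 pw.le
    linarith
  -- the time
  have hn : |2 ^ w * y none - (F.T1 w ω : ℝ) - tb F w ω| ≤ R / 2 ^ J' := by
    have e1 : 2 ^ w * y none - (F.T1 w ω : ℝ) - tb F w ω = 2 ^ w * (b none - bt F ω none) := by
      rw [← htb, y0]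
      ring
    rw [e1, abs_mul, abs_of_pos pw, ← hRJ]
    exact mul_le_mul_of_nonneg_left (hb none) pw.le
  have hvn : ∀ k, |(F.bvl Cc g ω k : ℝ) * (2 ^ w * y none - (F.T1 w ω : ℝ) - tb F w ω)| ≤
      3 * (R / 2 ^ J') := by
    intro k
    rw [abs_mul]
    exact mul_le_mul (hv k) hn (abs_nonneg _) (by norm_num)
  rw [← hCc] at hx
  -- the new point
  have hS : ∀ o, |eval y (sb w (F.T1 w ω : ℝ) (fun i => (F.bcl w Cc g ω i : ℝ))
      (fun i => (F.bvl Cc g ω i : ℝ)) e o) - zb o| ≤ (5 * R + 3) / 2 ^ J' := by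
    intro o
    have e0 : (5 * R + 3) / 2 ^ J' = 5 * (R / 2 ^ J') + 3 / 2 ^ J' := by ring
    have e0' : 0 ≤ R / 2 ^ J' := by positivity
    have e0'' : (1 : ℝ) / 2 ^ J' ≤ 3 / 2 ^ J' := div_le_div_of_nonneg_right (by norm_num) pJ.le
    rcases o with _ | k
    · rw [eval_sb_none]
      have e1 : 2 ^ w * y none - (F.T1 w ω : ℝ) - zb none =
          (2 ^ w * y none - (F.T1 w ω : ℝ) - tb F w ω) - (zb none - tb F w ω) := by ring
      rw [e1]
      refine (abs_sub _ _).trans ((add_le_add hn ht).trans ?_)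
      rw [e0]
      linarith
    · rw [eval_sb_some]
      have h1 := yd (e k)
      have h3 := hx k
      have h2' := hvn (e k)
      have e1 : 2 ^ w * y (some (e k)) - (F.bcl w Cc g ω (e k) : ℝ) -
          (F.bvl Cc g ω (e k) : ℝ) * (2 ^ w * y none - (F.T1 w ω : ℝ)) - zb (some k) =
          2 ^ w * (y (some (e k)) - Cc.L (g ω) (F.x ω) (e k)) -
          (F.bvl Cc g ω (e k) : ℝ) * (2 ^ w * y none - (F.T1 w ω : ℝ) - tb F w ω) -
          (zb (some k) - (2 ^ w * Cc.L (g ω) (F.x ω) (e k) - F.bcl w Cc g ω (e k) -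
            tb F w ω * F.bvl Cc g ω (e k))) := by ring
      rw [e1]
      refine (abs_sub _ _).trans ((add_le_add ((abs_sub _ _).trans (add_le_add h1 h2')) h3).trans
        (le_of_eq ?_))
      rw [e0]
      ring
  have h1 := hG _ hS
  have h3 := hx i
  have h2 := hvn (e i)
  -- the sheared coordinate
  have hL : |Cc.L (g ω) (F.x ω) (e i) - eval y (qs w (F.T1 w ω) (fun i => F.bcl w Cc g ω i)
      (fun i => F.bvl Cc g ω i) e (fun _ => G) i)| ≤ (3 * R + 4) / 2 ^ (w + P₁) := by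
    have e1 : Cc.L (g ω) (F.x ω) (e i) - eval y (qs w (F.T1 w ω) (fun i => F.bcl w Cc g ω i)
        (fun i => F.bvl Cc g ω i) e (fun _ => G) i) = 1 / 2 ^ w *
        ((zb (some i) - eval (fun o => eval y (sb w (F.T1 w ω : ℝ)
          (fun i => (F.bcl w Cc g ω i : ℝ)) (fun i => (F.bvl Cc g ω i : ℝ)) e o)) G) -
          (zb (some i) - (2 ^ w * Cc.L (g ω) (F.x ω) (e i) - F.bcl w Cc g ω (e i) -
            tb F w ω * F.bvl Cc g ω (e i))) -
          (F.bvl Cc g ω (e i) : ℝ) * (2 ^ w * y none - (F.T1 w ω : ℝ) - tb F w ω)) := by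
      rw [eval_qs]
      field_simp
      ring
    rw [e1, abs_mul, abs_of_pos (by positivity : (0 : ℝ) < 1 / 2 ^ w)]
    have h5' : (1 : ℝ) / 2 ^ J' ≤ 1 / 2 ^ P₁ := inv_mono hP
    have h6 : (1 : ℝ) / 2 ^ P₁ + 3 / 2 ^ J' + 3 * (R / 2 ^ J') ≤ (3 * R + 4) * (1 / 2 ^ P₁) := by
      have e2 : (1 : ℝ) / 2 ^ P₁ + 3 / 2 ^ J' + 3 * (R / 2 ^ J') =
          1 / 2 ^ P₁ + (3 * R + 3) * (1 / 2 ^ J') := by ring
      rw [e2]
      have := mul_le_mul_of_nonneg_left h5' (by linarith : 0 ≤ 3 * R + 3)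
      linarith
    have h7 : |(zb (some i) - eval (fun o => eval y (sb w (F.T1 w ω : ℝ)
          (fun i => (F.bcl w Cc g ω i : ℝ)) (fun i => (F.bvl Cc g ω i : ℝ)) e o)) G) -
          (zb (some i) - (2 ^ w * Cc.L (g ω) (F.x ω) (e i) - F.bcl w Cc g ω (e i) -
            tb F w ω * F.bvl Cc g ω (e i))) -
          (F.bvl Cc g ω (e i) : ℝ) * (2 ^ w * y none - (F.T1 w ω : ℝ) - tb F w ω)| ≤
          1 / 2 ^ P₁ + 3 / 2 ^ J' + 3 * (R / 2 ^ J') :=
      (abs_sub _ _).trans (add_le_add ((abs_sub _ _).trans (add_le_add h1 h3)) h2)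
    refine (mul_le_mul_of_nonneg_left (h7.trans h6) (by positivity)).trans (le_of_eq ?_)
    rw [pow_add]
    field_simp
  rw [← hCc, ← hcc, eval_shq, ← hy]
  have e9 : (3 * R + 4) / 2 ^ (w + P₁) ≤ (4 * R + 4) / 2 ^ (w + P₁) :=
    div_le_div_of_nonneg_right (by linarith) (by positivity)
  by_cases hi : e i ∈ Lt
  · rw [if_pos hi]
    have pM : (0 : ℝ) < 2 ^ M (e i) := by positivity
    have hMμ : (2 : ℝ) ^ M (e i) ≤ 2 ^ μ := pow_le_pow_right₀ one_le_two (hμ hi)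
    have hxL : F.x ω (e i) = 2 ^ M (e i) * Cc.L (g ω) (F.x ω) (e i) + cc (e i) * F.x ω u := by
      rw [hCc, shC_mem hi, hcc]
      field_simp
      ring
    obtain ⟨q, hq⟩ : ∃ q, q = eval y (qs w (F.T1 w ω) (fun i => F.bcl w Cc g ω i)
      (fun i => F.bvl Cc g ω i) e (fun _ => G) i) := ⟨_, rfl⟩
    rw [← hq] at hL ⊢
    have e1 : F.x ω (e i) - (2 ^ M (e i) * q + cc (e i) * b (some u)) =
        2 ^ M (e i) * (Cc.L (g ω) (F.x ω) (e i) - q) - cc (e i) * (b (some u) - F.x ω u) := by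
      rw [hxL]
      ring
    have hcb : |cc (e i)| ≤ 2 ^ M (e i) := by
      rw [hcc]
      exact clp_le _ _
    have hbu : |b (some u) - F.x ω u| ≤ R / 2 ^ (w + P₁) := by
      refine (hb (some u)).trans ?_
      refine div_le_div_of_nonneg_left hR (by positivity) ?_
      exact pow_le_pow_right₀ one_le_two (by omega)
    rw [e1]
    refine (abs_sub _ _).trans ?_
    rw [abs_mul, abs_mul, abs_of_pos pM]
    have a1 := mul_le_mul_of_nonneg_left hL pM.le
    have a2 := mul_le_mul hcb hbu (abs_nonneg _) pM.le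
    have a3 : (2 : ℝ) ^ M (e i) * ((3 * R + 4) / 2 ^ (w + P₁)) +
        2 ^ M (e i) * (R / 2 ^ (w + P₁)) = 2 ^ M (e i) * ((4 * R + 4) / 2 ^ (w + P₁)) := by ring
    have a4 := mul_le_mul_of_nonneg_right hMμ
      (by positivity : (0 : ℝ) ≤ (4 * R + 4) / 2 ^ (w + P₁))
    linarith
  · rw [if_neg hi]
    have hxL : F.x ω (e i) = Cc.L (g ω) (F.x ω) (e i) := by
      rw [hCc, shC_not hi]
    rw [hxL]
    refine (hL.trans e9).trans ?_
    have := mul_le_mul_of_nonneg_right pμ (by positivity : (0 : ℝ) ≤ (4 * R + 4) / 2 ^ (w + P₁))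
    linarith

/-- **A stable label of one coordinate of the sheared zoom is a stable label of the family.** -/
theorem lbr_zsh (m n K : ℕ) {R : ℝ} (hR : 0 ≤ R) : ∃ (c : ℝ) (l : ℕ), 0 < c ∧ ∀ (J : ℕ)
    (F : Fam m J) (w J' : ℕ) (h : w + J' = J) (V : Type) (z : PtT F → V) (z' : LnT F → V)
    (cb : V → Fin m → ℝ) (u : Fin m) (Lt : Finset (Fin m)) (hu : u ∉ Lt) (M : Fin m → ℕ)
    (e : Fin n → Fin m) (B : F.Ω → Prop), (∀ ω, B ω → z (ptr F J ω) = z' (slam F w ω)) →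
    ∀ (I : Finset (Fin m)) (I' : Finset (Fin n)) (i : Fin n) (w₁ P₁ μ : ℕ), w₁ ≤ J' → P₁ ≤ J' →
    LbR (5 * R + 3) (zsh F w J' h.le z' cb u Lt hu M e) I' i K w₁ P₁ B →
    (∀ j ∈ I', e j ∈ I) → ((e i ∈ Lt ∨ ∃ j ∈ I', e j ∈ Lt) → u ∈ I) → (e i ∈ Lt → M (e i) ≤ μ) →
    l + μ ≤ w + P₁ → ∃ B' : F.Ω → Prop, Sub B' B ∧ c * Pe F.p B ≤ Pe F.p B' ∧
      LbR R F I (e i) (K + 1) (w + w₁) (w + P₁ - (l + μ)) B' := by
  classical
  obtain ⟨l, hl⟩ := pow_unbounded_of_one_lt (4 * R + 4) (one_lt_two : (1 : ℝ) < 2)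
  obtain ⟨D, hD⟩ : ∃ D : ℝ, D = (6 * ((2 : ℕ) : ℝ) + 3) ^ m *
    ((4 * ((2 : ℕ) : ℝ) + 3) ^ m * (2 * ((2 : ℕ) : ℝ) + 15) ^ n) := ⟨_, rfl⟩
  have hDpos : 0 < D := by rw [hD]; positivity
  refine ⟨1 / D, l, by positivity, ?_⟩
  intro J F w J' h V z z' cb u Lt hu M e B hcls I I' i w₁ P₁ μ hw₁ hP hL hI hIu hμ hlP
  obtain ⟨g, hg⟩ : ∃ g : F.Ω → V, g = fun ω => z' (slam F w ω) := ⟨_, rfl⟩
  obtain ⟨Gm, hGm⟩ : ∃ Gm, Gm = zfc F w J' h.le (shC cb u Lt hu M) g e := ⟨_, rfl⟩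
  have hL' : LbR (5 * R + 3) (zfc F w J' h.le (shC cb u Lt hu M) g e) I' i K w₁ P₁ B := by
    rw [hg]
    exact hL
  obtain ⟨V₂, ζ, ζ', G, hlab⟩ := hL'
  have hbd : (shC cb u Lt hu M).Bd 0 ((2 : ℕ) : ℝ) := by
    push_cast
    exact shC_bd cb u Lt hu M
  obtain ⟨B₂, hB2, hP2, hdet⟩ := ptc_zoom F h hbd g e B (fun ω ω' h1 h2 hpt => by
    rw [hg]
    simp only
    rw [← hcls ω h1, ← hcls ω' h2, hpt])
  rw [← hD] at hP2
  -- the value of the new label
  obtain ⟨w₂, hw₂⟩ : ∃ w₂, w₂ = w + w₁ := ⟨_, rfl⟩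
  obtain ⟨Y, hY⟩ : ∃ Y : F.Ω → V₂ × (((ℕ × V) × ((Fin m → ℤ) × (Fin m → ℤ))) × F.ζ),
      Y = fun ω => (ζ' (slam (zfc F w J' h.le (shC cb u Lt hu M) g e) w₁ ω),
        F.blab w (shC cb u Lt hu M) g ω) := ⟨_, rfl⟩
  obtain ⟨y, hy⟩ := fac (f := ptr F J) (Y := Y) (B := B₂) (by
    intro ω ω' h1 h2 hpt
    obtain ⟨a1, a2⟩ := hdet ω ω' h1 h2 hpt
    have a3 := hlab.cls ω (hB2 ω h1)
    have a4 := hlab.cls ω' (hB2 ω' h2)
    rw [hY]
    exact Prod.ext (a3.symm.trans ((congrArg ζ (a2 J' le_rfl)).trans a4)) a1)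
  obtain ⟨y', hy'⟩ := fac (f := slam F w₂) (Y := Y) (B := B₂) (by
    intro ω ω' h1 h2 hsl
    obtain ⟨a1, a2⟩ := Prod.ext_iff.1 hsl
    obtain ⟨a3, a4⟩ := Prod.ext_iff.1 a2
    have b1 : F.l ω = F.l ω' := a1
    have b2 : F.Z ω = F.Z ω' := a3
    have b3 : F.T1 w₂ ω = F.T1 w₂ ω' := a4
    rw [hw₂] at b3
    have b5 : F.T1 w ω = F.T1 w ω' := by
      rw [T1_div F (w := w) (K := w₁) (by omega) ω, T1_div F (w := w) (K := w₁) (by omega) ω', b3]
    have b6 : slam F w ω = slam F w ω' := Prod.ext b1 (Prod.ext b2 b5)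
    have b7 : g ω = g ω' := by
      rw [hg]
      simp only
      rw [b6]
    obtain ⟨d1, d2, -⟩ := zfc_det F h.le (shC cb u Lt hu M) g e (v := w₁) (by omega) b1 b3 b7 b2
    rw [hY]
    exact Prod.ext (congrArg ζ' d1) d2)
  -- the new polynomials
  obtain ⟨G', hG'⟩ : ∃ G' : Option (V₂ × (((ℕ × V) × ((Fin m → ℤ) × (Fin m → ℤ))) × F.ζ)) →
      MvPolynomial (Option (Fin m)) ℝ, G' = fun o => match o with
      | none => 0
      | some v => shq (fun k => clp (M k) (cb v.2.1.1.2 k)) u Lt M (e i)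
          (qs w (v.2.1.1.1 : ℝ) (fun i => (v.2.1.2.1 i : ℝ))
          (fun i => (v.2.1.2.2 i : ℝ)) e (fun _ => G v.1) i) := ⟨_, rfl⟩
  have hG'Y : ∀ ω, G' (some (Y ω)) = shq (fun k => clp (M k) (cb (g ω) k)) u Lt M (e i)
      (qs w (F.T1 w ω : ℝ) (fun i => (F.bcl w (shC cb u Lt hu M) g ω i : ℝ))
      (fun i => (F.bvl (shC cb u Lt hu M) g ω i : ℝ)) e
      (fun _ => G (ζ' (slam (zfc F w J' h.le (shC cb u Lt hu M) g e) w₁ ω))) i) := by
    intro ω
    rw [hG', hY]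
    rfl
  refine ⟨B₂, hB2, ?_, _, y, y', G', ?_, ?_, ?_, ?_⟩
  · rw [div_mul_eq_mul_div, one_mul, div_le_iff₀ hDpos, mul_comm (Pe F.p B₂) D]
    exact hP2
  · intro v
    rw [hG']
    rcases v with _ | v
    · simp only
      rw [totalDegree_zero]
      exact Nat.zero_le _
    · exact deg_shq (by omega) _ (deg_qs (hlab.deg _))
  · intro v b b' h0 h1
    rw [hG']
    rcases v with _ | v
    · simp only [map_zero]
    · simp only
      rw [eval_shq, eval_shq]
      have hq : eval (shv (fun k => clp (M k) (cb v.2.1.1.2 k)) u Lt M b)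
          (qs w (v.2.1.1.1 : ℝ) (fun i => (v.2.1.2.1 i : ℝ))
            (fun i => (v.2.1.2.2 i : ℝ)) e (fun _ => G v.1) i) =
          eval (shv (fun k => clp (M k) (cb v.2.1.1.2 k)) u Lt M b')
          (qs w (v.2.1.1.1 : ℝ) (fun i => (v.2.1.2.1 i : ℝ))
            (fun i => (v.2.1.2.2 i : ℝ)) e (fun _ => G v.1) i) := by
        have e0 : shv (fun k => clp (M k) (cb v.2.1.1.2 k)) u Lt M b none =
            shv (fun k => clp (M k) (cb v.2.1.1.2 k)) u Lt M b' none := h0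
        rw [eval_qs, eval_qs, e0]
        congr 3
        refine hlab.dep _ _ _ ?_ fun i' hi' => ?_
        · rw [eval_sb_none, eval_sb_none, e0]
        · have e1 : shv (fun k => clp (M k) (cb v.2.1.1.2 k)) u Lt M b (some (e i')) =
              shv (fun k => clp (M k) (cb v.2.1.1.2 k)) u Lt M b' (some (e i')) := by
            unfold shv
            simp only
            split_ifs with hk
            · rw [h1 _ (hI i' hi'), h1 u (hIu (Or.inr ⟨i', hi', hk⟩))]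
            · exact h1 _ (hI i' hi')
          rw [eval_sb_some, eval_sb_some, e0, e1]
      split_ifs with hk
      · rw [hq, h1 u (hIu (Or.inl hk))]
      · exact hq
  · intro ω hω
    rw [hy ω hω, ← hw₂, hy' ω hω]
  · intro ω hω b hb
    rw [← hw₂, hy' ω hω, hG'Y]
    refine (lbs_pos h hP hR (g := g) (hu := hu)
      (zb := bt (zfc F w J' h.le (shC cb u Lt hu M) g e) ω)
      (fun i => zfc_x F h.le (shC cb u Lt hu M) g e ω i) (by
      have h1 := zf_t F h.le (fun _ => ()) e ω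
      have e1 : bt (zfc F w J' h.le (shC cb u Lt hu M) g e) ω none =
        (zf F w J' h.le (fun _ => ()) e).t ω := rfl
      rw [e1, abs_le]
      have : (0 : ℝ) ≤ 1 / 2 ^ J' := by positivity
      constructor <;> linarith [h1.1, h1.2]) (fun b' hb' => hlab.pos ω (hB2 ω hω) b' hb')
      hb hμ).trans ?_
    have hpow : (2 : ℝ) ^ (w + P₁) = 2 ^ (w + P₁ - (l + μ)) * (2 ^ l * 2 ^ μ) := by
      rw [← pow_add, ← pow_add]
      congr 1
      omega
    rw [hpow, mul_div_assoc', div_le_div_iff₀ (by positivity) (by positivity), one_mul]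
    have p1 : (0 : ℝ) < 2 ^ (w + P₁ - (l + μ)) := by positivity
    have p2 : (0 : ℝ) < 2 ^ μ := by positivity
    have a1 := mul_le_mul_of_nonneg_left hl.le (mul_pos p1 p2).le
    have e1 : 2 ^ μ * (4 * R + 4) * 2 ^ (w + P₁ - (l + μ)) =
        2 ^ (w + P₁ - (l + μ)) * 2 ^ μ * (4 * R + 4) := by ring
    have e2 : (2 : ℝ) ^ (w + P₁ - (l + μ)) * (2 ^ l * 2 ^ μ) =
        2 ^ (w + P₁ - (l + μ)) * 2 ^ μ * 2 ^ l := by ring
    rw [e1, e2]
    exact a1

end Pool.ZLB
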