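import Pool.Agent.H80.ZC.Lbq

/-!
# The closed linear coordinates of the sheared zooms

`Pool.ZLC.shC` (case A): the target is the rough coordinate `u`.
`swC` (case B): the target is the last coordinate `N`, and `x u - x N / c` takes the place of `N`,
where `c` is the shear coefficient of `N`, `1 ≤ |c|`.
-/

set_option autoImplicit false

namespace Pool.ZLC

open Finset Real MvPolynomial
open Pool.Agent.H49.Ent Pool.Agent.H32.Dense Pool.STK Pool.KA Pool.KSAT Pool.K2S Pool.PB Pool.S6C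
open Pool.GEN Pool.ZCL Pool.TOP

variable {m n J : ℕ} {V : Type}

/-- **The coordinates of case B.** -/
noncomputable def swC (cb : V → Fin m → ℝ) (u N : Fin m) (Lt : Finset (Fin m)) (huN : u ≠ N)
    (M : Fin m → ℕ) : Crd m V where
  L := fun v x k => if k = u then x N else if k = N then x u - clp 0 (cb v N)⁻¹ * x N
    else if k ∈ Lt then (x k - clp (M k) (cb v k) * x u) / 2 ^ M k else x k
  lin := by
    intro v x y t k
    simp only
    split_ifs
    · rfl
    · ring
    · ring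
    · rfl
  inj := by
    intro v x y h
    have hxN : x N = y N := by
      have h1 := congrFun h u
      simp only [if_true] at h1
      exact h1
    have hxu : x u = y u := by
      have h1 := congrFun h N
      simp only [if_neg huN.symm, if_true] at h1
      rw [hxN] at h1
      linarith
    funext k
    by_cases hku : k = u
    · rw [hku]; exact hxu
    by_cases hkN : k = N
    · rw [hkN]; exact hxN
    have h1 := congrFun h k
    simp only [if_neg hku, if_neg hkN] at h1
    by_cases hk : k ∈ Lt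
    · simp only [if_pos hk] at h1
      rw [div_left_inj' (by positivity), hxu] at h1
      linarith
    · simp only [if_neg hk] at h1
      exact h1

section

variable {cb : V → Fin m → ℝ} {u N : Fin m} {Lt : Finset (Fin m)} {hu : u ∉ Lt} {huN : u ≠ N}
  {M : Fin m → ℕ}

theorem swC_u (v : V) (x : Fin m → ℝ) : (swC cb u N Lt huN M).L v x u = x N := if_pos rfl

theorem swC_N (v : V) (x : Fin m → ℝ) :
    (swC cb u N Lt huN M).L v x N = x u - clp 0 (cb v N)⁻¹ * x N := by
  have h : (swC cb u N Lt huN M).L v x N = if N = u then x N else if N = N then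
    x u - clp 0 (cb v N)⁻¹ * x N else if N ∈ Lt then (x N - clp (M N) (cb v N) * x u) / 2 ^ M N
    else x N := rfl
  rw [h, if_neg huN.symm, if_pos rfl]

theorem swC_mem (hu : u ∉ Lt) (hN : N ∉ Lt) {k : Fin m} (hk : k ∈ Lt) (v : V) (x : Fin m → ℝ) :
    (swC cb u N Lt huN M).L v x k = (x k - clp (M k) (cb v k) * x u) / 2 ^ M k := by
  have h : (swC cb u N Lt huN M).L v x k = if k = u then x N else if k = N then
    x u - clp 0 (cb v N)⁻¹ * x N else if k ∈ Lt then (x k - clp (M k) (cb v k) * x u) / 2 ^ M k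
    else x k := rfl
  have h1 : k ≠ u := fun h => hu (by rw [← h]; exact hk)
  have h2 : k ≠ N := fun h => hN (by rw [← h]; exact hk)
  rw [h, if_neg h1, if_neg h2, if_pos hk]

theorem swC_not {k : Fin m} (hk : k ∉ Lt) (hku : k ≠ u) (hkN : k ≠ N) (v : V) (x : Fin m → ℝ) :
    (swC cb u N Lt huN M).L v x k = x k := by
  have h : (swC cb u N Lt huN M).L v x k = if k = u then x N else if k = N then
    x u - clp 0 (cb v N)⁻¹ * x N else if k ∈ Lt then (x k - clp (M k) (cb v k) * x u) / 2 ^ M k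
    else x k := rfl
  rw [h, if_neg hku, if_neg hkN, if_neg hk]

/-- A slot of the coordinates of case B which is not exchanged is a slot of case A. -/
theorem swC_eq {k : Fin m} (hku : k ≠ u) (hkN : k ≠ N) (v : V) (x : Fin m → ℝ) :
    (swC cb u N Lt huN M).L v x k = (shC cb u Lt hu M).L v x k := by
  have h : (swC cb u N Lt huN M).L v x k = if k = u then x N else if k = N then
    x u - clp 0 (cb v N)⁻¹ * x N else if k ∈ Lt then (x k - clp (M k) (cb v k) * x u) / 2 ^ M k
    else x k := rfl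
  rw [h, if_neg hku, if_neg hkN]
  rfl

/-- The coordinates are Lipschitz functions. -/
theorem swC_bd (cb : V → Fin m → ℝ) (u N : Fin m) (Lt : Finset (Fin m)) (hu : u ∉ Lt)
    (huN : u ≠ N) (M : Fin m → ℕ) : (swC cb u N Lt huN M).Bd 0 2 := by
  intro v x y h k
  by_cases hku : k = u
  · rw [hku, swC_u, swC_u, pow_zero]
    exact (h N).trans (by norm_num)
  by_cases hkN : k = N
  · rw [hkN, swC_N, swC_N, pow_zero]
    have e1 : x u - clp 0 (cb v N)⁻¹ * x N - (y u - clp 0 (cb v N)⁻¹ * y N) =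
        (x u - y u) - clp 0 (cb v N)⁻¹ * (x N - y N) := by ring
    rw [e1]
    refine (abs_sub _ _).trans ?_
    rw [abs_mul]
    have h1 := clp_le 0 (cb v N)⁻¹
    rw [pow_zero] at h1
    have h2 := mul_le_mul h1 (h N) (abs_nonneg _) zero_le_one
    linarith [h u]
  · rw [swC_eq (hu := hu) hku hkN, swC_eq (hu := hu) hku hkN]
    exact shC_bd cb u Lt hu M v x y h k

/-! ### The inverse -/

/-- The inverse of the coordinates of case A. -/
theorem shC_inv {M₁ : ℕ} (hM : ∀ k ∈ Lt, M k ≤ M₁) (v : V) {x y : Fin m → ℝ} {δ : ℝ}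
    (hδ : 0 ≤ δ) (h : ∀ k, |(shC cb u Lt hu M).L v x k - (shC cb u Lt hu M).L v y k| ≤ δ)
    (k : Fin m) : |x k - y k| ≤ 2 ^ (M₁ + 1) * δ := by
  have hu' := h u
  rw [shC_not hu, shC_not hu] at hu'
  have p1 : (1 : ℝ) ≤ 2 ^ (M₁ + 1) := one_le_pow₀ one_le_two
  by_cases hk : k ∈ Lt
  · have hk' := h k
    rw [shC_mem hk, shC_mem hk, ← sub_div, abs_div, abs_of_pos (by positivity : (0 : ℝ) < 2 ^ M k),
      div_le_iff₀ (by positivity)] at hk'
    have e1 : x k - y k = (x k - clp (M k) (cb v k) * x u - (y k - clp (M k) (cb v k) * y u)) +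
        clp (M k) (cb v k) * (x u - y u) := by ring
    rw [e1]
    refine (abs_add_le _ _).trans ?_
    rw [abs_mul]
    have h2 := mul_le_mul (clp_le (M k) (cb v k)) hu' (abs_nonneg _) (by positivity)
    have h3 : (2 : ℝ) ^ M k * δ ≤ 2 ^ M₁ * δ :=
      mul_le_mul_of_nonneg_right (pow_le_pow_right₀ one_le_two (hM k hk)) hδ
    rw [pow_succ]
    linarith
  · have hk' := h k
    rw [shC_not hk, shC_not hk] at hk'
    have := mul_le_mul_of_nonneg_right p1 hδ
    linarith

/-- The inverse of the coordinates of case B. -/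
theorem swC_inv (hu : u ∉ Lt) (hN : N ∉ Lt) {M₁ : ℕ} (hM : ∀ k ∈ Lt, M k ≤ M₁) (v : V) {x y : Fin m → ℝ} {δ : ℝ}
    (hδ : 0 ≤ δ) (h : ∀ k, |(swC cb u N Lt huN M).L v x k -
      (swC cb u N Lt huN M).L v y k| ≤ δ) (k : Fin m) : |x k - y k| ≤ 2 ^ (M₁ + 2) * δ := by
  have hN' := h u
  rw [swC_u, swC_u] at hN'
  have hu' : |x u - y u| ≤ 2 * δ := by
    have h1 := h N
    rw [swC_N, swC_N] at h1
    have e1 : x u - y u = (x u - clp 0 (cb v N)⁻¹ * x N - (y u - clp 0 (cb v N)⁻¹ * y N)) +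
        clp 0 (cb v N)⁻¹ * (x N - y N) := by ring
    rw [e1]
    refine (abs_add_le _ _).trans ?_
    rw [abs_mul]
    have h2 := clp_le 0 (cb v N)⁻¹
    rw [pow_zero] at h2
    have h3 := mul_le_mul h2 hN' (abs_nonneg _) zero_le_one
    linarith
  have p1 : (1 : ℝ) ≤ 2 ^ M₁ := one_le_pow₀ one_le_two
  have p2 : (2 : ℝ) ^ (M₁ + 2) * δ = 4 * (2 ^ M₁ * δ) := by rw [pow_add]; ring
  have p3 := mul_le_mul_of_nonneg_right p1 hδ
  rw [p2]
  by_cases hku : k = u
  · rw [hku]
    linarith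
  by_cases hkN : k = N
  · rw [hkN]
    linarith
  by_cases hk : k ∈ Lt
  · have hk' := h k
    rw [swC_mem hu hN hk, swC_mem hu hN hk, ← sub_div, abs_div, abs_of_pos (by positivity : (0 : ℝ) < 2 ^ M k),
      div_le_iff₀ (by positivity)] at hk'
    have e1 : x k - y k = (x k - clp (M k) (cb v k) * x u - (y k - clp (M k) (cb v k) * y u)) +
        clp (M k) (cb v k) * (x u - y u) := by ring
    rw [e1]
    refine (abs_add_le _ _).trans ?_
    rw [abs_mul]
    have h2 := mul_le_mul (clp_le (M k) (cb v k)) hu' (abs_nonneg _) (by positivity)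
    have h3 : (2 : ℝ) ^ M k * δ ≤ 2 ^ M₁ * δ :=
      mul_le_mul_of_nonneg_right (pow_le_pow_right₀ one_le_two (hM k hk)) hδ
    linarith
  · have hk' := h k
    rw [swC_not hk hku hkN, swC_not hk hku hkN] at hk'
    linarith

/-! ### The direction of the shear -/

/-- The direction: `1` at `u`, the shear coefficients at the sheared coordinates. -/
noncomputable def dirA (cb : V → Fin m → ℝ) (u : Fin m) (Lt : Finset (Fin m)) (M : Fin m → ℕ)
    (v : V) (k : Fin m) : ℝ :=
  if k = u then 1 else if k ∈ Lt then clp (M k) (cb v k) else 0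

/-- The direction in case B: moreover the shear coefficient at `N`. -/
noncomputable def dirB (cb : V → Fin m → ℝ) (u N : Fin m) (Lt : Finset (Fin m)) (M : Fin m → ℕ)
    (v : V) (k : Fin m) : ℝ :=
  if k = u then 1 else if k = N then cb v N else if k ∈ Lt then clp (M k) (cb v k) else 0

theorem shC_dir_u (v : V) : (shC cb u Lt hu M).L v (dirA cb u Lt M v) u = 1 := by
  rw [shC_not hu]
  exact if_pos rfl

theorem shC_dir {k : Fin m} (hk : k ≠ u) (v : V) :
    (shC cb u Lt hu M).L v (dirA cb u Lt M v) k = 0 := by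
  have h1 : dirA cb u Lt M v u = 1 := if_pos rfl
  by_cases hk' : k ∈ Lt
  · rw [shC_mem hk', h1]
    have h2 : dirA cb u Lt M v k = clp (M k) (cb v k) := by
      unfold dirA
      rw [if_neg hk, if_pos hk']
    rw [h2]
    simp
  · rw [shC_not hk']
    unfold dirA
    rw [if_neg hk, if_neg hk']

theorem swC_dir_u (v : V) :
    (swC cb u N Lt huN M).L v (dirB cb u N Lt M v) u = cb v N := by
  rw [swC_u]
  unfold dirB
  rw [if_neg huN.symm, if_pos rfl]

theorem swC_dir (hu : u ∉ Lt) (hN : N ∉ Lt) {k : Fin m} (hk : k ≠ u) (v : V) (hc : 1 ≤ |cb v N|) :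
    (swC cb u N Lt huN M).L v (dirB cb u N Lt M v) k = 0 := by
  have h1 : dirB cb u N Lt M v u = 1 := if_pos rfl
  have hN' : dirB cb u N Lt M v N = cb v N := by
    unfold dirB
    rw [if_neg huN.symm, if_pos rfl]
  by_cases hkN : k = N
  · rw [hkN, swC_N, h1, hN']
    have h3 : |(cb v N)⁻¹| ≤ 2 ^ 0 := by
      rw [pow_zero, abs_inv]
      exact inv_le_one_of_one_le₀ hc
    rw [clp_of h3, inv_mul_cancel₀ (fun h => by rw [h, abs_zero] at hc; linarith), sub_self]
  by_cases hk' : k ∈ Lt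
  · rw [swC_mem hu hN hk', h1]
    have h2 : dirB cb u N Lt M v k = clp (M k) (cb v k) := by
      unfold dirB
      rw [if_neg hk, if_neg hkN, if_pos hk']
    rw [h2]
    simp
  · rw [swC_not hk' hk hkN]
    unfold dirB
    rw [if_neg hk, if_neg hkN, if_neg hk']

end

end Pool.ZLC

namespace Pool.PKG

open Finset
open Pool.Agent.H49.Ent Pool.Agent.H32.Dense Pool.STK Pool.KA Pool.KSAT Pool.K2S Pool.PB
open Pool.GEN Pool.S6C Pool.STAT Pool.CHT Pool.GRW Pool.ONE Pool.STA Pool.ZLC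
open Pool.ZLB (SlD Slot)

variable {n : ℕ} {V : Type} (hn : 2 ≤ n) (σ : Equiv.Perm (Fin (n - 1))) {l : ℕ}

/-- The slots before the slot `i` of the zoom in case A. -/
theorem slot_dep {cb : V → Fin n → ℝ} {Lt : Finset (Fin n)} {hu : cc hn σ l ∉ Lt}
    {M : Fin n → ℕ} (hLt : ∀ j < l, cc hn σ j ∉ Lt) {j i : Fin n} (hji : (j : ℕ) < i)
    (hi : (i : ℕ) < n - 1) (v : V) (x y : Fin n → ℝ)
    (h : ∀ k ∈ (range (ix l i)).image (cc hn σ), x k = y k) :
    (shC cb (cc hn σ l) Lt hu M).L v x (ez hn σ l j) =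
      (shC cb (cc hn σ l) Lt hu M).L v y (ez hn σ l j) := by
  have h1 : x (ez hn σ l j) = y (ez hn σ l j) := by
    refine h _ ?_
    rw [ez_ix hn σ l (by omega)]
    refine Finset.mem_image_of_mem _ (Finset.mem_range.2 ?_)
    unfold ix
    split_ifs <;> omega
  by_cases hj : ez hn σ l j ∈ Lt
  · have hlj : l ≤ j := by
      by_contra hcon
      push Not at hcon
      refine hLt _ ?_ ((ez_ix hn σ l (k := j) (by omega)) ▸ hj)
      unfold ix
      rw [if_pos hcon]
      exact hcon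
    have h2 : x (cc hn σ l) = y (cc hn σ l) := by
      refine h _ (Finset.mem_image_of_mem _ (Finset.mem_range.2 ?_))
      unfold ix
      rw [if_neg (by omega)]
      omega
    rw [shC_mem hj, shC_mem hj, h1, h2]
  · rw [shC_not hj, shC_not hj, h1]

/-- **The slots of case A.** -/
theorem slot_shC {cb : V → Fin n → ℝ} {Lt : Finset (Fin n)} {hu : cc hn σ l ∉ Lt}
    {M : Fin n → ℕ} (hLt : ∀ j < l, cc hn σ j ∉ Lt) {i : Fin n} (hi : (i : ℕ) < n - 1) :
    Slot (shC cb (cc hn σ l) Lt hu M) (ez hn σ l) (univ.filter fun j : Fin n => (j : ℕ) < i) i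
      ((range (ix l i)).image (cc hn σ)) (cc hn σ (ix l i))
      (fun _ => if cc hn σ (ix l i) ∈ Lt then 1 / 2 ^ M (cc hn σ (ix l i)) else 1) where
  dep j hj v x y h := slot_dep hn σ hLt (Finset.mem_filter.1 hj).2 hi v x y h
  top v x y h := by
    rw [ez_ix hn σ l hi]
    by_cases hk : cc hn σ (ix l i) ∈ Lt
    · have hli : l ≤ i := by
        by_contra hcon
        push Not at hcon
        refine hLt _ ?_ hk
        unfold ix
        rw [if_pos hcon]
        exact hcon
      have h2 : x (cc hn σ l) = y (cc hn σ l) := by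
        refine h _ (Finset.mem_image_of_mem _ (Finset.mem_range.2 ?_))
        unfold ix
        rw [if_neg (by omega)]
        omega
      rw [shC_mem hk, shC_mem hk, h2, if_pos hk]
      ring
    · rw [shC_not hk, shC_not hk, if_neg hk]
      ring

/-- **The requirement of (Phi2) in case A.** -/
theorem sld_shC {cb : V → Fin n → ℝ} {Lt : Finset (Fin n)} {hu : cc hn σ l ∉ Lt}
    {M : Fin n → ℕ} (hLt : ∀ j < l, cc hn σ j ∉ Lt) {i : Fin n} (hi : (i : ℕ) < n - 1)
    {w₁ ε c₀ : ℝ} {J : ℕ} {F : Fam n J} {A : F.Ω → Prop} {z' : LnT F → V}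
    (h0 : 0 ≤ ε * J + c₀)
    (hM : cc hn σ (ix l i) ∈ Lt → (M (cc hn σ (ix l i)) : ℝ) ≤ ε * J + c₀) :
    SlD 2 w₁ (ez hn σ l) (univ.filter fun j : Fin n => (j : ℕ) < i) i
      ((range (ix l i)).image (cc hn σ)) (cc hn σ (ix l i)) ε c₀ J F A V
      (shC cb (cc hn σ l) Lt hu M) z' := by
  refine ⟨by push_cast; exact shC_bd _ _ _ _ _, _,
    if cc hn σ (ix l i) ∈ Lt then M (cc hn σ (ix l i)) else 0, slot_shC hn σ hLt hi, ?_,
    fun ω _ => ?_⟩
  · split_ifs with hk
    · exact hM hk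
    · rw [Nat.cast_zero]
      exact h0
  · split_ifs with hk
    · have p1 : (0 : ℝ) < 1 / 2 ^ M (cc hn σ (ix l i)) := by positivity
      have p2 : (1 : ℝ) / 2 ^ M (cc hn σ (ix l i)) ≤ 1 := by
        rw [div_le_one (by positivity)]
        exact one_le_pow₀ one_le_two
      rw [abs_of_pos p1]
      exact ⟨by push_cast; linarith, le_rfl⟩
    · rw [abs_one, pow_zero]
      exact ⟨by norm_num, by norm_num⟩

/-- **The slots of case B** before the exchanged one. -/
theorem slot_swC {cb : V → Fin n → ℝ} {Lt : Finset (Fin n)} (hu : cc hn σ l ∉ Lt)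
    {huN : cc hn σ l ≠ lst hn} (hl : l < n - 1)
    {M : Fin n → ℕ} (hLt : ∀ j < l, cc hn σ j ∉ Lt) {i : Fin n} (hi : (i : ℕ) < n - 2) :
    Slot (swC cb (cc hn σ l) (lst hn) Lt huN M) (ez hn σ l)
      (univ.filter fun j : Fin n => (j : ℕ) < i) i
      ((range (ix l i)).image (cc hn σ)) (cc hn σ (ix l i))
      (fun _ => if cc hn σ (ix l i) ∈ Lt then 1 / 2 ^ M (cc hn σ (ix l i)) else 1) := by
  have hne : ∀ j : Fin n, (j : ℕ) < n - 2 → ez hn σ l j ≠ cc hn σ l ∧ ez hn σ l j ≠ lst hn := by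
    intro j hj
    rw [ez_ix hn σ l (by omega), ← cc_ge hn σ (le_refl (n - 1))]
    constructor
    · intro h
      have h1 := cc_inj' hn σ (by unfold ix; split_ifs <;> omega) (by omega) h
      unfold ix at h1
      split_ifs at h1 <;> omega
    · intro h
      have h1 := cc_inj' hn σ (by unfold ix; split_ifs <;> omega) (by omega) h
      unfold ix at h1
      split_ifs at h1 <;> omega
  have hs := slot_shC hn σ (cb := cb) (hu := hu) (M := M) hLt (i := i) (by omega)
  constructor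
  · intro j hj v x y h
    have hji := (Finset.mem_filter.1 hj).2
    obtain ⟨h1, h2⟩ := hne j (by omega)
    rw [swC_eq (hu := hu) h1 h2, swC_eq (hu := hu) h1 h2]
    exact hs.dep j hj v x y h
  · intro v x y h
    obtain ⟨h1, h2⟩ := hne i hi
    rw [swC_eq (hu := hu) h1 h2, swC_eq (hu := hu) h1 h2]
    exact hs.top v x y h

/-- **The exchanged slot of case B.** -/
theorem slot_swN {cb : V → Fin n → ℝ} {Lt : Finset (Fin n)} (hu : cc hn σ l ∉ Lt)
    {huN : cc hn σ l ≠ lst hn} (hl : l < n - 1)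
    {M : Fin n → ℕ} (hLt : ∀ j < l, cc hn σ j ∉ Lt) {i : Fin n} (hi : (i : ℕ) = n - 2) :
    Slot (swC cb (cc hn σ l) (lst hn) Lt huN M) (ez hn σ l)
      (univ.filter fun j : Fin n => (j : ℕ) < i) i
      ((range (ix l i)).image (cc hn σ)) (cc hn σ (ix l i))
      (fun v => -clp 0 (cb v (lst hn))⁻¹) := by
  have hix : ix l i = n - 1 := by
    unfold ix
    rw [if_neg (by omega)]
    omega
  have hN' : cc hn σ (n - 1) = lst hn := cc_ge hn σ le_rfl
  have hne : ∀ j : Fin n, (j : ℕ) < n - 2 → ez hn σ l j ≠ cc hn σ l ∧ ez hn σ l j ≠ lst hn := by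
    intro j hj
    rw [ez_ix hn σ l (by omega), ← hN']
    constructor
    · intro h
      have h1 := cc_inj' hn σ (by unfold ix; split_ifs <;> omega) (by omega) h
      unfold ix at h1
      split_ifs at h1 <;> omega
    · intro h
      have h1 := cc_inj' hn σ (by unfold ix; split_ifs <;> omega) (by omega) h
      unfold ix at h1
      split_ifs at h1 <;> omega
  constructor
  · intro j hj v x y h
    have hji := (Finset.mem_filter.1 hj).2
    obtain ⟨h1, h2⟩ := hne j (by omega)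
    rw [swC_eq (hu := hu) h1 h2, swC_eq (hu := hu) h1 h2]
    exact slot_dep hn σ hLt hji (by omega) v x y h
  · intro v x y h
    rw [ez_ix hn σ l (by omega), hix, hN', swC_N, swC_N]
    have h2 : x (cc hn σ l) = y (cc hn σ l) := by
      refine h _ (Finset.mem_image_of_mem _ (Finset.mem_range.2 ?_))
      rw [hix]
      exact hl
    rw [h2]
    ring

/-- **The requirement of (Phi2) in case B**, before the exchanged slot. -/
theorem sld_swC {cb : V → Fin n → ℝ} {Lt : Finset (Fin n)} (hu : cc hn σ l ∉ Lt)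
    {huN : cc hn σ l ≠ lst hn} (hl : l < n - 1)
    {M : Fin n → ℕ} (hLt : ∀ j < l, cc hn σ j ∉ Lt) {i : Fin n} (hi : (i : ℕ) < n - 2)
    {w₁ ε c₀ : ℝ} {J : ℕ} {F : Fam n J} {A : F.Ω → Prop} {z' : LnT F → V}
    (h0 : 0 ≤ ε * J + c₀)
    (hM : cc hn σ (ix l i) ∈ Lt → (M (cc hn σ (ix l i)) : ℝ) ≤ ε * J + c₀) :
    SlD 2 w₁ (ez hn σ l) (univ.filter fun j : Fin n => (j : ℕ) < i) i
      ((range (ix l i)).image (cc hn σ)) (cc hn σ (ix l i)) ε c₀ J F A V
      (swC cb (cc hn σ l) (lst hn) Lt huN M) z' := by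
  refine ⟨by push_cast; exact swC_bd _ _ _ _ hu _ _, _,
    if cc hn σ (ix l i) ∈ Lt then M (cc hn σ (ix l i)) else 0, slot_swC hn σ hu hl hLt hi, ?_,
    fun ω _ => ?_⟩
  · split_ifs with hk
    · exact hM hk
    · rw [Nat.cast_zero]
      exact h0
  · split_ifs with hk
    · have p1 : (0 : ℝ) < 1 / 2 ^ M (cc hn σ (ix l i)) := by positivity
      have p2 : (1 : ℝ) / 2 ^ M (cc hn σ (ix l i)) ≤ 1 := by
        rw [div_le_one (by positivity)]
        exact one_le_pow₀ one_le_two
      rw [abs_of_pos p1]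
      exact ⟨by push_cast; linarith, le_rfl⟩
    · rw [abs_one, pow_zero]
      exact ⟨by norm_num, by norm_num⟩

/-- **The requirement of (Phi2) in case B**, the exchanged slot: the shear coefficient `c` of `N`
satisfies `1 ≤ |c| ≤ 2 ^ μ` on the event. -/
theorem sld_swN {cb : V → Fin n → ℝ} {Lt : Finset (Fin n)} (hu : cc hn σ l ∉ Lt)
    {huN : cc hn σ l ≠ lst hn} (hl : l < n - 1)
    {M : Fin n → ℕ} (hLt : ∀ j < l, cc hn σ j ∉ Lt) {i : Fin n} (hi : (i : ℕ) = n - 2)
    {w₁ ε c₀ : ℝ} {J : ℕ} {F : Fam n J} {A : F.Ω → Prop} {z' : LnT F → V} {μ : ℕ}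
    (hμ : (μ : ℝ) ≤ ε * J + c₀)
    (hc : ∀ ω, A ω → 1 ≤ |cb (z' (slam F ⌊w₁ * J⌋₊ ω)) (lst hn)| ∧
      |cb (z' (slam F ⌊w₁ * J⌋₊ ω)) (lst hn)| ≤ 2 ^ μ) :
    SlD 2 w₁ (ez hn σ l) (univ.filter fun j : Fin n => (j : ℕ) < i) i
      ((range (ix l i)).image (cc hn σ)) (cc hn σ (ix l i)) ε c₀ J F A V
      (swC cb (cc hn σ l) (lst hn) Lt huN M) z' := by
  refine ⟨by push_cast; exact swC_bd _ _ _ _ hu _ _, _, μ, slot_swN hn σ hu hl hLt hi, hμ,
    fun ω hω => ?_⟩
  obtain ⟨h1, h2⟩ := hc ω hω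
  have h3 : |(cb (z' (slam F ⌊w₁ * J⌋₊ ω)) (lst hn))⁻¹| ≤ 2 ^ 0 := by
    rw [pow_zero, abs_inv]
    exact inv_le_one_of_one_le₀ h1
  rw [clp_of h3, abs_neg, abs_inv]
  rw [pow_zero, abs_inv] at h3
  refine ⟨by push_cast; linarith, ?_⟩
  rw [one_div]
  exact inv_anti₀ (by linarith) h2

end Pool.PKG
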